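import Mathlib

set_option autoImplicit false

/-!
# The local ring of a subring of a field at a prime ideal
-/

namespace Pool.Agent.NIPFields.LG

open IsLocalRing

variable {k : Type*} [Field k] (E : Subring k) (P : Ideal E) [hP : P.IsPrime]

/-- The local ring of `E` at `P`, inside the field `k`. -/
def locS : Subring k where
  carrier := {x | ∃ a b : E, b ∉ P ∧ x * b = a}
  mul_mem' := by
    rintro x y ⟨a, b, hb, h⟩ ⟨a', b', hb', h'⟩
    refine ⟨a * a', b * b', fun hm => (hP.mem_or_mem hm).elim hb hb', ?_⟩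
    push_cast
    linear_combination (y * b') * h + (a : k) * h'
  one_mem' := ⟨1, 1, fun h => hP.ne_top ((Ideal.eq_top_iff_one _).2 h), by simp⟩
  zero_mem' := ⟨0, 1, fun h => hP.ne_top ((Ideal.eq_top_iff_one _).2 h), by simp⟩
  add_mem' := by
    rintro x y ⟨a, b, hb, h⟩ ⟨a', b', hb', h'⟩
    refine ⟨a * b' + a' * b, b * b', fun hm => (hP.mem_or_mem hm).elim hb hb', ?_⟩
    push_cast
    linear_combination (b' : k) * h + (b : k) * h'
  neg_mem' := by
    rintro x ⟨a, b, hb, h⟩
    refine ⟨-a, b, hb, ?_⟩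
    push_cast
    linear_combination -h

variable {E P}

theorem mem_locS {x : k} : x ∈ locS E P ↔ ∃ a b : E, b ∉ P ∧ x * b = a := Iff.rfl

theorem le_locS {x : k} (hx : x ∈ E) : x ∈ locS E P :=
  ⟨⟨x, hx⟩, 1, fun h => hP.ne_top ((Ideal.eq_top_iff_one _).2 h), by simp⟩

omit hP in
theorem ne_zero_of_notMem {b : E} (hb : b ∉ P) : (b : k) ≠ 0 := by
  intro h
  apply hb
  have : b = 0 := Subtype.ext h
  rw [this]
  exact P.zero_mem

/-- Nonunits of the local ring. -/
theorem locS_nonunit {x : locS E P} : x ∈ nonunits (locS E P) ↔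
    ∃ a b : E, a ∈ P ∧ b ∉ P ∧ (x : k) * b = a := by
  constructor
  · intro hx
    obtain ⟨a, b, hb, h⟩ := x.2
    refine ⟨a, b, ?_, hb, h⟩
    by_contra ha
    apply hx
    have ha0 := ne_zero_of_notMem ha
    have hb0 := ne_zero_of_notMem hb
    have hx0 : (x : k) ≠ 0 := by
      intro h0
      rw [h0, zero_mul] at h
      exact ha0 h.symm
    have hinv : (x : k)⁻¹ ∈ locS E P := ⟨b, a, ha, by rw [← h]; field_simp⟩
    exact IsUnit.of_mul_eq_one ⟨_, hinv⟩ (Subtype.ext (mul_inv_cancel₀ hx0))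
  · rintro ⟨a, b, ha, hb, h⟩ hu
    obtain ⟨y, hy⟩ := hu.exists_right_inv
    have hy' : (x : k) * y = 1 := congrArg Subtype.val hy
    obtain ⟨a', b', hb', h'⟩ := y.2
    have h2 : b * b' = a * a' := by
      apply Subtype.ext
      push_cast
      rw [← h, ← h']
      linear_combination (-(b : k) * b') * hy'
    have h3 : b * b' ∈ P := by rw [h2]; exact P.mul_mem_right _ ha
    exact (hP.mem_or_mem h3).elim hb hb'

instance locS_isLocalRing : IsLocalRing (locS E P) := by
  refine IsLocalRing.of_nonunits_add ?_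
  intro x y hx hy
  obtain ⟨a, b, ha, hb, h⟩ := locS_nonunit.1 hx
  obtain ⟨a', b', ha', hb', h'⟩ := locS_nonunit.1 hy
  refine locS_nonunit.2 ⟨a * b' + a' * b, b * b', P.add_mem (P.mul_mem_right _ ha)
    (P.mul_mem_right _ ha'), fun hm => (hP.mem_or_mem hm).elim hb hb', ?_⟩
  push_cast
  linear_combination (b' : k) * h + (b : k) * h'

theorem locS_mem_max {x : locS E P} : x ∈ maximalIdeal (locS E P) ↔
    ∃ a b : E, a ∈ P ∧ b ∉ P ∧ (x : k) * b = a := by
  rw [mem_maximalIdeal]
  exact locS_nonunit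

theorem locS_residue_eq_zero {x : E} :
    residue (locS E P) ⟨x, le_locS x.2⟩ = 0 ↔ x ∈ P := by
  rw [residue_eq_zero_iff, locS_mem_max]
  constructor
  · rintro ⟨a, b, ha, hb, h⟩
    have h1 : x * b = a := Subtype.ext h
    have h2 : x * b ∈ P := by rw [h1]; exact ha
    exact (hP.mem_or_mem h2).resolve_right hb
  · intro hx
    exact ⟨x, 1, hx, fun h => hP.ne_top ((Ideal.eq_top_iff_one _).2 h), by simp⟩

/-- The inclusion `E → locS E P`. -/
def toLocS : E →+* locS E P where
  toFun x := ⟨x, le_locS x.2⟩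
  map_one' := rfl
  map_zero' := rfl
  map_add' _ _ := rfl
  map_mul' _ _ := rfl

theorem toLocS_coe (x : E) : ((toLocS (P := P) x : locS E P) : k) = x := rfl

theorem residue_toLocS {x : E} : residue (locS E P) (toLocS x) = 0 ↔ x ∈ P :=
  locS_residue_eq_zero

theorem locS_residue_surjective (hmax : P.IsMaximal) (δ : ResidueField (locS E P)) :
    ∃ d : E, residue (locS E P) (toLocS d) = δ := by
  obtain ⟨x, rfl⟩ := residue_surjective δ
  obtain ⟨a, b, hb, h⟩ := x.2
  obtain ⟨c, hc⟩ := hmax.exists_inv hb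
  obtain ⟨i, hi, hci⟩ := hc
  -- `c b + i = 1`
  refine ⟨a * c, ?_⟩
  rw [← sub_eq_zero, ← map_sub, residue_eq_zero_iff, locS_mem_max]
  refine ⟨-(a * i), b, P.neg_mem (P.mul_mem_left _ hi), hb, ?_⟩
  have hci' : (c : k) * b + i = 1 := congrArg Subtype.val hci
  have e1 : ((toLocS (P := P) (a * c) - x : locS E P) : k) = (a : k) * c - x := rfl
  rw [e1]
  push_cast
  linear_combination -h + (a : k) * hci'

end Pool.Agent.NIPFields.LG
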