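import Mathlib
import Pool.Agent.NIPFields.LG.In

set_option autoImplicit false

/-!
# The cusp lemma and the family of rings with maximal infinitesimal ideal
-/

namespace Pool.Agent.NIPFields.LG

open Pool.Agent.NIPFields.FI

variable {K k : Type*} [Field K] [Field k] [Algebra K k] {ℓ : ℕ}

/-- If the square and the cube of `h` are infinitesimal then `h` is infinitesimal. -/
theorem LD.cusp (D : LD K k ℓ) (hℓ : (ℓ : K) ≠ 0) {h : k} (h2 : h ^ 2 ∈ Inf K (Pw k ℓ))
    (h3 : h ^ 3 ∈ Inf K (Pw k ℓ)) : h ∈ Inf K (Pw k ℓ) := by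
  have hm : ∀ a : K, 1 + -(algebraMap K k (a * a) * h ^ 2) ∈ Pw k ℓ := fun a =>
    one_add_mem (neg_mem (smul_mem (a * a) h2))
  have hfac : ∀ a : K, 1 + -(algebraMap K k (a * a) * h ^ 2) =
      (1 + algebraMap K k a * h) * (1 - algebraMap K k a * h) := by
    intro a
    rw [map_mul]
    ring
  have hne : ∀ a : K, 1 + algebraMap K k a * h ≠ 0 := by
    intro a h0
    have h1 := Pw_ne (hm a)
    rw [hfac a, h0, zero_mul] at h1
    exact h1 rfl
  -- the product rule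
  have hmul : ∀ a b : K, ∃ t ∈ Pw k ℓ, (1 + algebraMap K k a * h) * (1 + algebraMap K k b * h) =
      (1 + algebraMap K k (a + b) * h) * t := by
    intro a b
    have hs : -(algebraMap K k ((a + b) * (a + b)) * h ^ 2) ∈ Inf K (Pw k ℓ) :=
      neg_mem (smul_mem _ h2)
    have hr : h ^ 2 - algebraMap K k (a + b) * h ^ 3 ∈ Inf K (Pw k ℓ) :=
      D.sub_mem h2 (smul_mem _ h3)
    have hX : (h ^ 2 - algebraMap K k (a + b) * h ^ 3) /
        (1 + -(algebraMap K k ((a + b) * (a + b)) * h ^ 2)) ∈ Inf K (Pw k ℓ) := by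
      have key : ∀ r s : k, 1 + s ≠ 0 → r / (1 + s) = r - r * (s / (1 + s)) := by
        intro r s hs
        field_simp
        ring
      rw [key _ _ (one_add_ne hs)]
      exact D.sub_mem hr (D.mul_mem hr (div_mem hs))
    have hY := one_add_mem (smul_mem (a * b) hX)
    refine ⟨_, hY, ?_⟩
    have e2 := one_add_ne hs
    have e3 := hne (a + b)
    rw [hfac (a + b)] at e2
    have e4 : (1 - algebraMap K k (a + b) * h) ≠ 0 := right_ne_zero_of_mul e2
    rw [hfac (a + b)]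
    have e5 : (h ^ 2 - algebraMap K k (a + b) * h ^ 3) /
        ((1 + algebraMap K k (a + b) * h) * (1 - algebraMap K k (a + b) * h)) =
        h ^ 2 / (1 + algebraMap K k (a + b) * h) := by
      rw [div_eq_div_iff e2 e3]
      ring
    rw [e5]
    have e6 : (1 + algebraMap K k (a + b) * h) * (1 + algebraMap K k (a * b) *
        (h ^ 2 / (1 + algebraMap K k (a + b) * h))) = (1 + algebraMap K k (a + b) * h) +
        algebraMap K k (a * b) * h ^ 2 := by
      field_simp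
    rw [e6, map_mul, map_add]
    ring
  -- powers
  have hpow : ∀ (b : K) (m : ℕ), ∃ t ∈ Pw k ℓ, (1 + algebraMap K k b * h) ^ m =
      (1 + algebraMap K k (m * b) * h) * t := by
    intro b m
    induction m with
    | zero => exact ⟨1, Pw_one, by simp⟩
    | succ m ih =>
      obtain ⟨t, ht, h1⟩ := ih
      obtain ⟨t', ht', h4⟩ := hmul (m * b) b
      refine ⟨t' * t, Pw_mul ht' ht, ?_⟩
      rw [pow_succ, h1]
      have h5 : ((m + 1 : ℕ) : K) * b = m * b + b := by push_cast; ring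
      rw [h5]
      calc (1 + algebraMap K k (m * b) * h) * t * (1 + algebraMap K k b * h)
          = (1 + algebraMap K k (m * b) * h) * (1 + algebraMap K k b * h) * t := by ring
        _ = _ := by rw [h4]; ring
  intro a
  obtain ⟨t, ht, h1⟩ := hpow (a / ℓ) ℓ
  rw [mul_div_cancel₀ _ hℓ] at h1
  have h5 : 1 + algebraMap K k a * h = (1 + algebraMap K k (a / ℓ) * h) ^ ℓ * t⁻¹ := by
    rw [h1, mul_assoc, mul_inv_cancel₀ (Pw_ne ht), mul_one]
  rw [h5]
  exact Pw_mul ⟨_, hne _, rfl⟩ (Pw_inv ht)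

/-- `I G` is the largest `E G`-submodule of `J`. -/
structure Fam (D : LD K k ℓ) (G : Finset k) : Prop where
  one : (1 : k) ∈ G
  max : ∀ s : k, (∀ z ∈ D.E G, z * s ∈ Inf K (Pw k ℓ)) → s ∈ D.I G

theorem Fam.singleton (D : LD K k ℓ) : Fam D {1} := by
  refine ⟨Finset.mem_singleton_self 1, fun s hs => ?_⟩
  rw [D.mem_I_one]
  have := hs 1 (D.E {1}).one_mem
  rwa [one_mul] at this

variable {D : LD K k ℓ} {G G' : Finset k}

theorem Fam.mem_iff (hG : Fam D G) {s : k} :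
    s ∈ D.I G ↔ ∀ z ∈ D.E G, z * s ∈ Inf K (Pw k ℓ) :=
  ⟨fun hs _ hz => D.I_le_J hG.one (hz s hs), hG.max s⟩

theorem Fam.inv_mem (hG : Fam D G) {g : k} (hg : g ∈ G) : g⁻¹ ∈ D.E G := by
  intro d hd
  refine hG.max _ fun z hz => ?_
  have h1 := hz d hd g hg
  have h2 : z * (g⁻¹ * d) = z * d / g := by
    rw [div_eq_mul_inv]
    ring
  rwa [h2]

/-- Larger rings have smaller ideals. -/
theorem Fam.I_anti (hG : Fam D G) (hG' : Fam D G') (h : ∀ z ∈ D.E G, z ∈ D.E G') {s : k}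
    (hs : s ∈ D.I G') : s ∈ D.I G :=
  hG.max s fun z hz => hG'.mem_iff.1 hs z (h z hz)

/-- The radical trick. -/
theorem Fam.rad (hG : Fam D G) (hℓ : (ℓ : K) ≠ 0) {e : k} (N : ℕ)
    (h : ∀ i, N ≤ i → ∀ z ∈ D.E G, z * e ^ i ∈ Inf K (Pw k ℓ)) : e ∈ D.I G := by
  have key : ∀ i, 1 ≤ i → ∀ z ∈ D.E G, z * e ^ i ∈ Inf K (Pw k ℓ) := by
    induction N with
    | zero => exact fun i _ => h i (Nat.zero_le i)
    | succ N ih =>
      rcases Nat.eq_zero_or_pos N with h0 | h0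
      · subst h0
        exact h
      · refine ih fun i hi z hz => ?_
        rcases Nat.lt_or_ge N i with hlt | hge
        · exact h i hlt z hz
        · have hiN : i = N := le_antisymm hge hi
          subst hiN
          refine D.cusp hℓ ?_ ?_
          · have h1 := h (2 * i) (by omega) (z ^ 2) ((D.E G).pow_mem hz 2)
            have h2 : (z * e ^ i) ^ 2 = z ^ 2 * e ^ (2 * i) := by
              rw [mul_pow, ← pow_mul, mul_comm i 2]
            rwa [h2]
          · have h1 := h (3 * i) (by omega) (z ^ 3) ((D.E G).pow_mem hz 3)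
            have h2 : (z * e ^ i) ^ 3 = z ^ 3 * e ^ (3 * i) := by
              rw [mul_pow, ← pow_mul, mul_comm i 3]
            rwa [h2]
  refine hG.max e fun z hz => ?_
  have h1 := key 1 le_rfl z hz
  rwa [pow_one] at h1

theorem Fam.radical (hG : Fam D G) (hℓ : (ℓ : K) ≠ 0) {e : k} (he : e ∈ D.E G) {m : ℕ}
    (h : e ^ m ∈ D.I G) : e ∈ D.I G := by
  refine hG.rad hℓ m fun i hi z hz => ?_
  have h1 := hG.mem_iff.1 h (z * e ^ (i - m)) ((D.E G).mul_mem hz ((D.E G).pow_mem he _))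
  rwa [mul_assoc, ← pow_add, Nat.sub_add_cancel hi] at h1

/-- The condition `(I_n)` for `I G`. -/
theorem Fam.inC (hG : Fam D G) {n : ℕ} (hIn : InC (k := k) K ℓ n) (g : Fin n → k)
    (hg : ∀ i, g i ≠ 0) : ∃ i, ∀ d : k, (∀ j, j ≠ i → d / g j ∈ D.I G) → d / g i ∈ D.I G := by
  obtain ⟨i, hi⟩ := hIn g hg
  refine ⟨i, fun d hd => hG.max _ fun z hz => ?_⟩
  rw [← mul_div_assoc]
  refine hi (z * d) fun j hj => ?_
  rw [mul_div_assoc]
  exact hG.mem_iff.1 (hd j hj) z hz

/-- The ideal `I G` of `E G`. -/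
def Fam.ideal (hG : Fam D G) : Ideal (D.E G) where
  carrier := {x | (x : k) ∈ D.I G}
  add_mem' := fun ha hb => (D.I G).add_mem ha hb
  zero_mem' := (D.I G).zero_mem
  smul_mem' := fun c _ hx => c.2 _ hx

theorem Fam.mem_ideal (hG : Fam D G) {x : D.E G} : x ∈ hG.ideal ↔ (x : k) ∈ D.I G := Iff.rfl

theorem Fam.one_notMem (hG : Fam D G) : (1 : k) ∉ D.I G := fun h =>
  LG.one_notMem (D.I_le_J hG.one h)

theorem Fam.ideal_ne_top (hG : Fam D G) : hG.ideal ≠ ⊤ := by
  intro h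
  have h1 : (1 : D.E G) ∈ hG.ideal := by rw [h]; trivial
  exact hG.one_notMem (hG.mem_ideal.1 h1)

theorem Fam.ideal_isRadical (hG : Fam D G) (hℓ : (ℓ : K) ≠ 0) : hG.ideal.IsRadical := by
  intro x hx
  obtain ⟨m, hm⟩ := hx
  rw [hG.mem_ideal] at hm ⊢
  rw [Subring.coe_pow] at hm
  exact hG.radical hℓ x.2 hm

/-- `1 + r` is a unit for `r ∈ I G`. -/
theorem Fam.inv_one_add (hG : Fam D G) {r : k} (hr : r ∈ D.I G) :
    1 + r ≠ 0 ∧ (1 + r)⁻¹ ∈ D.E G := by
  have h1 := D.I_le_J hG.one hr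
  have h2 := one_add_ne h1
  refine ⟨h2, ?_⟩
  have h3 : (1 + r)⁻¹ = 1 - r / (1 + r) := by
    field_simp
    ring
  rw [h3]
  exact (D.E G).sub_mem (D.E G).one_mem (D.O_le_E (D.inf_mem_O (div_mem h1)))

end Pool.Agent.NIPFields.LG
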