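import Mathlib
import Pool.Agent.NIPFields.LZ.Fam

set_option autoImplicit false

/-!
# Good elements
-/

namespace Pool.Agent.NIPFields.LG

open Pool.Agent.NIPFields.FI

variable {K k : Type*} [Field K] [Field k] [Algebra K k] {ℓ : ℕ} {D : LD K k ℓ} {G : Finset k}

/-- `w` is good for `G`. -/
def GoodW (D : LD K k ℓ) (G : Finset k) (n : ℕ) (w : k) : Prop :=
  ∀ s, (∀ i, i + 2 ≤ n → s * w ^ i ∈ D.I G) → ∀ i, s * w ^ i ∈ D.I G

/-- Polynomials of small degree in `w`. -/
private theorem aeval_mem {n : ℕ} {w s : k} (h : ∀ i, i + 2 ≤ n → s * w ^ i ∈ D.I G)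
    (P : Polynomial K) (hP : P.natDegree + 2 ≤ n) : s * Polynomial.aeval w P ∈ D.I G := by
  rw [Polynomial.aeval_eq_sum_range, Finset.mul_sum]
  refine (D.I G).sum_mem fun i hi => ?_
  rw [mul_smul_comm]
  refine (D.I G).smul_mem _ (h i ?_)
  have := Finset.mem_range.1 hi
  omega

/-- It is enough to look at the power `n - 1`. -/
private theorem goodW_of {n : ℕ} (hn : 2 ≤ n) {w : k}
    (h : ∀ s, (∀ i, i + 2 ≤ n → s * w ^ i ∈ D.I G) → s * w ^ (n - 1) ∈ D.I G) :
    GoodW D G n w := by
  have key : ∀ m s, (∀ i, i + 2 ≤ n → s * w ^ i ∈ D.I G) → s * w ^ m ∈ D.I G := by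
    intro m
    induction m with
    | zero => intro s hs; exact hs 0 (by omega)
    | succ m ih =>
      intro s hs
      have h1 : s * w ^ (m + 1) = s * w * w ^ m := by ring
      rw [h1]
      refine ih _ fun i hi => ?_
      have h2 : s * w * w ^ i = s * w ^ (i + 1) := by ring
      rw [h2]
      by_cases h3 : i + 1 + 2 ≤ n
      · exact hs _ h3
      · have h4 : i + 1 = n - 1 := by omega
        rw [h4]
        exact h s hs
  exact fun s hs m => key m s hs

/-- Among `n` translates one is good. -/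
theorem Fam.exists_good (hG : Fam D G) {n : ℕ} (hn : 2 ≤ n) (hIn : InC (k := k) K ℓ n) {y : k}
    (hy : ∀ a : K, y ≠ algebraMap K k a) (X : Finset K) (hX : X.card = n) :
    ∃ x ∈ X, GoodW D G n (y + algebraMap K k x)⁻¹ := by
  classical
  let e : Fin n ≃ X := (Fintype.equivFinOfCardEq (by rw [Fintype.card_coe, hX])).symm
  have hyx : ∀ x : K, y + algebraMap K k x ≠ 0 := by
    intro x h
    apply hy (-x)
    rw [map_neg]
    exact eq_neg_of_add_eq_zero_left h
  obtain ⟨i0, hi0⟩ := hG.inC hIn (fun i => y + algebraMap K k (e i : K)) fun i => hyx _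
  set x0 : K := (e i0 : K) with hx0
  refine ⟨x0, (e i0).2, goodW_of hn fun s hs => ?_⟩
  set w : k := (y + algebraMap K k x0)⁻¹ with hw
  have hw0 : w ≠ 0 := inv_ne_zero (hyx _)
  -- the linear factors
  let F : K → Polynomial K := fun x => 1 + Polynomial.C (x - x0) * Polynomial.X
  have hF : ∀ x, Polynomial.aeval w (F x) = 1 + algebraMap K k (x - x0) * w := by
    intro x
    simp [F]
  have hFy : ∀ x, Polynomial.aeval w (F x) = (y + algebraMap K k x) * w := by
    intro x
    rw [hF, hw, map_sub]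
    have := hyx x0
    field_simp
    ring
  have hFd : ∀ x, (F x).natDegree ≤ 1 := by
    intro x
    refine (Polynomial.natDegree_add_le _ _).trans (max_le ?_ ?_)
    · rw [Polynomial.natDegree_one]; omega
    · exact (Polynomial.natDegree_C_mul_le _ _).trans Polynomial.natDegree_X_le
  have hFd' : ∀ x, x ≠ x0 → (F x).natDegree = 1 ∧ (F x).leadingCoeff = x - x0 := by
    intro x hx
    have h1 : x - x0 ≠ 0 := sub_ne_zero.2 hx
    have h2 : (F x) = Polynomial.C (x - x0) * Polynomial.X + Polynomial.C 1 := by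
      simp only [F, map_one]
      rw [add_comm]
    rw [h2]
    exact ⟨Polynomial.natDegree_linear h1, Polynomial.leadingCoeff_linear h1⟩
  have hX0 : x0 ∈ X := (e i0).2
  have hmem := hi0 (s * w⁻¹ * Polynomial.aeval w (∏ x ∈ X.erase x0, F x)) (by
    intro j hj
    set x : K := (e j : K) with hx
    have hxx0 : x ≠ x0 := fun h => hj (e.injective (Subtype.ext h))
    have hxX : x ∈ X.erase x0 := Finset.mem_erase.2 ⟨hxx0, (e j).2⟩
    have h1 : ∏ x ∈ X.erase x0, F x = F x * ∏ x ∈ (X.erase x0).erase x, F x :=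
      (Finset.mul_prod_erase _ _ hxX).symm
    have h2 : s * w⁻¹ * Polynomial.aeval w (∏ x ∈ X.erase x0, F x) / (y + algebraMap K k x) =
        s * Polynomial.aeval w (∏ x ∈ (X.erase x0).erase x, F x) := by
      rw [h1, map_mul, hFy]
      have := hyx x
      field_simp
    change s * w⁻¹ * Polynomial.aeval w (∏ x ∈ X.erase x0, F x) / (y + algebraMap K k x) ∈ D.I G
    rw [h2]
    refine aeval_mem hs _ ?_
    have h3 : (∏ x ∈ (X.erase x0).erase x, F x).natDegree ≤ ((X.erase x0).erase x).card := by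
      refine (Polynomial.natDegree_prod_le _ _).trans ?_
      refine (Finset.sum_le_card_nsmul _ _ 1 fun i _ => hFd i).trans ?_
      rw [smul_eq_mul, mul_one]
    rw [Finset.card_erase_of_mem hxX, Finset.card_erase_of_mem hX0, hX] at h3
    have h4 : 1 ≤ (X.erase x0).card := Finset.card_pos.2 ⟨x, hxX⟩
    rw [Finset.card_erase_of_mem hX0, hX] at h4
    omega)
  -- the product of all factors
  set Q : Polynomial K := ∏ x ∈ X.erase x0, F x with hQ
  have hne : ∀ x ∈ X.erase x0, x ≠ x0 := fun x hx => (Finset.mem_erase.1 hx).1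
  have hlead : Q.leadingCoeff ≠ 0 := by
    rw [hQ, Polynomial.leadingCoeff_prod]
    refine Finset.prod_ne_zero_iff.2 fun x hx => ?_
    rw [(hFd' x (hne x hx)).2]
    exact sub_ne_zero.2 (hne x hx)
  have hdeg : Q.natDegree = n - 1 := by
    rw [hQ, Polynomial.natDegree_prod _ _ fun x hx h => ?_,
      Finset.sum_congr rfl fun x hx => (hFd' x (hne x hx)).1, Finset.sum_const, smul_eq_mul,
      mul_one, Finset.card_erase_of_mem hX0, hX]
    have := (hFd' x (hne x hx)).1
    rw [h, Polynomial.natDegree_zero] at this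
    omega
  have h5 : s * Polynomial.aeval w Q ∈ D.I G := by
    have h6 : s * w⁻¹ * Polynomial.aeval w Q / (y + algebraMap K k x0) =
        s * Polynomial.aeval w Q := by
      have : (y + algebraMap K k x0) = w⁻¹ := by rw [hw, inv_inv]
      rw [this]
      field_simp
    change s * w⁻¹ * Polynomial.aeval w Q / (y + algebraMap K k x0) ∈ D.I G at hmem
    rwa [h6] at hmem
  have h7 : s * Polynomial.aeval w Q.eraseLead ∈ D.I G := by
    refine aeval_mem hs _ ?_
    have := Polynomial.eraseLead_natDegree_le Q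
    omega
  have h8 : s * w ^ (n - 1) =
      Q.leadingCoeff⁻¹ • (s * Polynomial.aeval w Q - s * Polynomial.aeval w Q.eraseLead) := by
    have h9 : Polynomial.aeval w Q = Polynomial.aeval w Q.eraseLead +
        algebraMap K k Q.leadingCoeff * w ^ (n - 1) := by
      conv_lhs => rw [← Polynomial.eraseLead_add_C_mul_X_pow Q]
      rw [map_add, map_mul, Polynomial.aeval_C, map_pow, Polynomial.aeval_X, hdeg]
    rw [h9, Algebra.smul_def, map_inv₀]
    have : algebraMap K k Q.leadingCoeff ≠ 0 := (map_ne_zero _).2 hlead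
    field_simp
    ring
  rw [h8]
  exact (D.I G).smul_mem _ ((D.I G).sub_mem h5 h7)

theorem Fam.exists_good' [Infinite K] (hG : Fam D G) {n : ℕ} (hn : 2 ≤ n)
    (hIn : InC (k := k) K ℓ n) {y : k} (hy : ∀ a : K, y ≠ algebraMap K k a) (B : Finset K) :
    ∃ x, x ∉ B ∧ GoodW D G n (y + algebraMap K k x)⁻¹ := by
  obtain ⟨X, hX, hXn⟩ := B.finite_toSet.infinite_compl.exists_subset_card_eq n
  obtain ⟨x, hx, h⟩ := hG.exists_good hn hIn hy X hXn
  exact ⟨x, fun hB => hX hx hB, h⟩

/-- The next ring. -/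
theorem Fam.step (hG : Fam D G) {n : ℕ} (hn : 2 ≤ n) {w : k} (hw : GoodW D G n w) :
    ∃ G', Fam D G' ∧ (∀ z ∈ D.E G, z ∈ D.E G') ∧ w ∈ D.E G' ∧
      ∀ s, s ∈ D.I G' ↔ ∀ i : ℕ, s * w ^ i ∈ D.I G := by
  classical
  let G' : Finset k := (G ×ˢ Finset.range (n - 1)).image fun p => p.1 / w ^ p.2
  have hI : ∀ s, s ∈ D.I G' ↔ ∀ i : ℕ, s * w ^ i ∈ D.I G := by
    intro s
    constructor
    · intro h
      refine hw s fun i hi g hg => ?_
      have h1 : g / w ^ i ∈ G' := Finset.mem_image.2
        ⟨(g, i), Finset.mem_product.2 ⟨hg, Finset.mem_range.2 (by omega)⟩, rfl⟩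
      have h2 := h _ h1
      rwa [div_div_eq_mul_div] at h2
    · intro h g' hg'
      obtain ⟨⟨g, i⟩, hp, rfl⟩ := Finset.mem_image.1 hg'
      have h2 := h i g (Finset.mem_product.1 hp).1
      change s / (g / w ^ i) ∈ Inf K (Pw k ℓ)
      rwa [div_div_eq_mul_div]
  have hE : ∀ z ∈ D.E G, z ∈ D.E G' := by
    intro z hz d hd
    rw [hI] at hd ⊢
    intro i
    rw [mul_assoc]
    exact hz _ (hd i)
  have hwE : w ∈ D.E G' := by
    intro d hd
    rw [hI] at hd ⊢
    intro i
    have h1 : w * d * w ^ i = d * w ^ (i + 1) := by ring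
    rw [h1]
    exact hd _
  refine ⟨G', ⟨?_, ?_⟩, hE, hwE, hI⟩
  · refine Finset.mem_image.2 ⟨(1, 0), Finset.mem_product.2 ⟨hG.one, Finset.mem_range.2 ?_⟩, ?_⟩
    · omega
    · simp
  · intro s hs
    rw [hI]
    intro i
    refine hG.max _ fun z hz => ?_
    have h1 := hs (z * w ^ i) ((D.E G').mul_mem (hE z hz) ((D.E G').pow_mem hwE i))
    have h2 : z * (s * w ^ i) = z * w ^ i * s := by ring
    rwa [h2]

end Pool.Agent.NIPFields.LG
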