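import Mathlib
import Pool.Agent.NIPFields.LZ.Good

set_option autoImplicit false

/-!
# Claim A
-/

namespace Pool.Agent.NIPFields.LG

open Pool.Agent.NIPFields.FI

variable {K k : Type*} [Field K] [Field k] [Algebra K k] {ℓ : ℕ} {D : LD K k ℓ} {G : Finset k}

/-- `s` is a nonzerodivisor modulo `I G`. -/
def NZD (D : LD K k ℓ) (G : Finset k) (s : k) : Prop :=
  ∀ t ∈ D.E G, s * t ∈ D.I G → t ∈ D.I G

theorem Fam.claimA [Infinite K] (hG : Fam D G) (hℓ : (ℓ : K) ≠ 0) {n : ℕ} (hn : 2 ≤ n)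
    (hIn : InC (k := k) K ℓ n) {s : k} (hs : s ∈ D.E G) (hnz : NZD D G s)
    (hnu : s⁻¹ ∉ D.E G) :
    ∃ G', Fam D G' ∧ (∀ z ∈ D.E G, z ∈ D.E G') ∧ (∀ z ∈ D.E G', s * z ∈ D.E G) ∧
      (∀ r ∈ D.I G, s * r ∈ D.I G') ∧ ∃ j ∈ D.I G, j ∉ D.I G' := by
  classical
  have smulI : ∀ (G₀ : Finset k) (a : K) {t : k}, t ∈ D.I G₀ → algebraMap K k a * t ∈ D.I G₀ := by
    intro G₀ a t ht
    rw [← Algebra.smul_def]
    exact (D.I G₀).smul_mem a ht
  have one_notI : (1 : k) ∉ D.I G := hG.one_notMem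
  have sI : s ∉ D.I G := by
    intro h
    exact one_notI (hnz 1 (D.E G).one_mem (by rwa [mul_one]))
  have hs0 : s ≠ 0 := by
    rintro rfl
    exact sI (D.I G).zero_mem
  -- a witness
  obtain ⟨j, hj, hsj⟩ : ∃ j ∈ D.I G, s⁻¹ * j ∉ D.I G := by
    rw [D.mem_E] at hnu
    push Not at hnu
    exact hnu
  have hj0 : j ≠ 0 := by
    rintro rfl
    rw [mul_zero] at hsj
    exact hsj (D.I G).zero_mem
  have hjE : j ∈ D.E G := D.I_le_E hG.one hj
  have hy : ∀ a : K, s / j ≠ algebraMap K k a := by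
    intro a ha
    rw [div_eq_iff hj0] at ha
    apply sI
    rw [ha]
    exact smulI G a hj
  obtain ⟨x, hx, hw⟩ := hG.exists_good' hn hIn hy {0}
  obtain ⟨G', hG', hEE, hwE, hI⟩ := hG.step hn hw
  set w : k := (s / j + algebraMap K k x)⁻¹ with hwdef
  set d : k := s + algebraMap K k x * j with hddef
  have hd0 : d ≠ 0 := by
    intro h0
    apply hy (-x)
    rw [map_neg, div_eq_iff hj0]
    linear_combination h0
  have hwd : w * d = j := by
    have h1 : s / j + algebraMap K k x = d / j := by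
      rw [hddef, add_div, mul_div_cancel_right₀ _ hj0]
    rw [hwdef, h1, inv_div, div_mul_cancel₀ _ hd0]
  have hdE : d ∈ D.E G := (D.E G).add_mem hs (D.I_le_E hG.one (smulI G x hj))
  have hle : ∀ {t : k}, t ∈ D.I G' → t ∈ D.I G := fun ht => hG.I_anti hG' hEE ht
  -- (a)
  have ha : ∀ r ∈ D.I G, d ^ (n - 2) * r ∈ D.I G' := by
    intro r hr
    rw [hI]
    refine hw _ ?_
    intro i hi
    have h1 : d ^ (n - 2) * r * w ^ i = d ^ (n - 2 - i) * j ^ i * r := by
      have h2 : d ^ (n - 2) = d ^ (n - 2 - i) * d ^ i := by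
        rw [← pow_add]
        congr 1
        omega
      rw [h2, ← hwd, mul_pow]
      ring
    rw [h1]
    exact (D.E G).mul_mem ((D.E G).pow_mem hdE _) ((D.E G).pow_mem hjE _) _ hr
  -- (b)
  have hb : ∀ r ∈ D.I G, d * r ∈ D.I G' := by
    intro r hr
    refine hG'.rad hℓ (1 ⊔ (n - 2)) ?_
    intro i hi z hz
    have hi1 : 1 ≤ i := (le_max_left _ _).trans hi
    have hi2 : n - 2 ≤ i := (le_max_right _ _).trans hi
    have h1 : z * (d * r) ^ i = z * (d ^ (n - 2) * ((d ^ (i - (n - 2)) * r ^ (i - 1)) * r)) := by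
      have h2 : d ^ i = d ^ (n - 2) * d ^ (i - (n - 2)) := by
        rw [← pow_add]
        congr 1
        omega
      have h3 : r ^ i = r ^ (i - 1) * r := by
        rw [← pow_succ]
        congr 1
        omega
      rw [mul_pow, h2, h3]
      ring
    rw [h1]
    refine D.I_le_J hG'.one (hz _ (ha _ ?_))
    exact (D.E G).mul_mem ((D.E G).pow_mem hdE _)
      ((D.E G).pow_mem (D.I_le_E hG.one hr) _) _ hr
  -- (c)
  have hc : ∀ r ∈ D.I G, j * r ∈ D.I G' := by
    intro r hr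
    rw [← hwd, mul_assoc]
    exact hwE _ (hb r hr)
  have hc' : ∀ r ∈ D.I G, s * r ∈ D.I G' := by
    intro r hr
    have h1 : s * r = d * r - algebraMap K k x * (j * r) := by
      rw [hddef]
      ring
    rw [h1]
    exact (D.I G').sub_mem (hb r hr) (smulI G' x (hc r hr))
  refine ⟨G', hG', hEE, ?_, hc', ?_⟩
  · intro z hz r hr
    have h1 : s * z * r = z * (s * r) := by ring
    rw [h1]
    exact hle (hz _ (hc' r hr))
  · by_contra hcon
    push Not at hcon
    have hwE' : w ∈ D.E G := fun t ht => hle (hwE _ (hcon t ht))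
    have h1 : s * w = j - algebraMap K k x * (w * j) := by
      have h0 := hwd
      rw [hddef] at h0
      linear_combination h0
    have h2 : s * w ∈ D.I G := by
      rw [h1]
      exact (D.I G).sub_mem hj (smulI G x (hwE' _ hj))
    have h3 : w ∈ D.I G := hnz w hwE' h2
    obtain ⟨h4, h5⟩ := hG.inv_one_add (smulI G (-x) h3)
    have h6 : s⁻¹ * j = (1 + algebraMap K k (-x) * w)⁻¹ * w := by
      rw [inv_mul_eq_iff_eq_mul₀ hs0, eq_comm, ← mul_assoc, mul_comm s, mul_assoc,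
        inv_mul_eq_iff_eq_mul₀ h4, h1, map_neg]
      ring
    apply hsj
    rw [h6]
    exact h5 _ h3

end Pool.Agent.NIPFields.LG
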