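import Mathlib
import Pool.Agent.NIPFields.LZ.Fam

set_option autoImplicit false

/-!
# Antichains of primes
-/

namespace Pool.Agent.NIPFields.LG

open Pool.Agent.NIPFields.FI

variable {K k : Type*} [Field K] [Field k] [Algebra K k] {ℓ : ℕ} {D : LD K k ℓ} {G : Finset k}

theorem Fam.no_antichain (hG : Fam D G) {n : ℕ} (hn : 2 ≤ n) (hIn : InC (k := k) K ℓ n)
    (P : Fin n → Ideal (D.E G)) (hP : ∀ i, (P i).IsPrime) (hinc : ∀ i j, i ≠ j → ¬ P i ≤ P j) :
    False := by
  classical
  -- elements of exactly one of the ideals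
  have hex : ∀ i, ∃ r : D.E G, r ∈ P i ∧ ∀ j, j ≠ i → r ∉ P j := by
    intro i
    by_contra hcon
    push Not at hcon
    have h1 : ((P i : Ideal (D.E G)) : Set (D.E G)) ⊆
        ⋃ j ∈ (((Finset.univ.erase i : Finset (Fin n))) : Set (Fin n)), (P j : Set (D.E G)) := by
      intro r hr
      obtain ⟨j, hj, hrj⟩ := hcon r hr
      exact Set.mem_iUnion₂.2 ⟨j, by simpa using hj, hrj⟩
    obtain ⟨j, hj, hle⟩ := (Ideal.subset_union_prime i i fun j _ _ _ => hP j).1 h1
    exact hinc i j (Finset.ne_of_mem_erase hj).symm hle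
  choose r hr1 hr2 using hex
  have hr0 : ∀ i, (r i : k) ≠ 0 := by
    intro i h
    have h2 : r i = 0 := Subtype.ext h
    obtain ⟨j, hj⟩ : ∃ j : Fin n, j ≠ i := by
      have : Nontrivial (Fin n) := Fin.nontrivial_iff_two_le.2 hn
      exact exists_ne i
    exact hr2 i j hj (by rw [h2]; exact (P j).zero_mem)
  let Q : Fin n → D.E G := fun i => ∏ j ∈ Finset.univ.erase i, r j
  have hQ : ∀ i, Q i ∉ P i := by
    intro i h
    obtain ⟨j, hj, hjM⟩ := (hP i).prod_mem_iff.1 h
    exact hr2 j i (Finset.ne_of_mem_erase hj).symm hjM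
  have hQE : ∀ i, (Q i : k) / r i ∉ D.E G := by
    intro i h
    apply hQ i
    have h1 : Q i = ⟨_, h⟩ * r i := by
      apply Subtype.ext
      push_cast
      rw [div_mul_cancel₀ _ (hr0 i)]
    rw [h1]
    exact (P i).mul_mem_left _ (hr1 i)
  have hw : ∀ i, ∃ t : k, t ∈ D.I G ∧ (Q i : k) / r i * t ∉ D.I G := by
    intro i
    by_contra hcon
    push Not at hcon
    exact hQE i (D.mem_E.2 hcon)
  choose t ht htg using hw
  obtain ⟨i, hi⟩ := hG.inC hIn (fun i => (r i : k)) hr0
  apply htg i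
  have h1 := hi (t i * Q i) (by
    intro j hj
    have h2 : (Q i : k) / r j ∈ D.E G := by
      have h3 : Q i = r j * ∏ x ∈ (Finset.univ.erase i).erase j, r x :=
        (Finset.mul_prod_erase _ _ (Finset.mem_erase.2 ⟨hj, Finset.mem_univ j⟩)).symm
      have h4 : (Q i : k) / r j = ((∏ x ∈ (Finset.univ.erase i).erase j, r x : D.E G) : k) := by
        rw [h3, Subring.coe_mul, mul_div_cancel_left₀ _ (hr0 j)]
      rw [h4]
      exact Subtype.mem _
    have h5 := D.mem_E.1 h2 _ (ht i)
    have h6 : t i * (Q i : k) / r j = (Q i : k) / r j * t i := by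
      rw [mul_div_assoc, mul_comm]
    rw [h6]
    exact h5)
  have h7 : (Q i : k) / r i * t i = t i * (Q i : k) / r i := by
    rw [mul_div_assoc, mul_comm]
  rw [h7]
  exact h1

theorem Fam.finite_minimalPrimes (hG : Fam D G) {n : ℕ} (hn : 2 ≤ n)
    (hIn : InC (k := k) K ℓ n) :
    hG.ideal.minimalPrimes.Finite ∧ hG.ideal.minimalPrimes.ncard < n := by
  classical
  by_contra hcon
  have h1 : (n : ℕ∞) ≤ hG.ideal.minimalPrimes.encard := by
    by_cases hf : hG.ideal.minimalPrimes.Finite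
    · rw [← hf.cast_ncard_eq]
      have : ¬ hG.ideal.minimalPrimes.ncard < n := fun h => hcon ⟨hf, h⟩
      exact_mod_cast not_lt.1 this
    · rw [Set.Infinite.encard_eq hf]
      exact le_top
  obtain ⟨T, hT, hTn⟩ := Set.exists_subset_encard_eq h1
  have hTf : T.Finite := Set.finite_of_encard_eq_coe hTn
  have hTc : hTf.toFinset.card = n := by
    have h2 := Set.encard_coe_eq_coe_finsetCard hTf.toFinset
    rw [hTf.coe_toFinset, hTn] at h2
    exact_mod_cast h2.symm
  let e : Fin n ≃ hTf.toFinset := (Fintype.equivFinOfCardEq (by rw [Fintype.card_coe, hTc])).symm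
  have hmem : ∀ i, (e i : Ideal (D.E G)) ∈ hG.ideal.minimalPrimes := fun i =>
    hT (hTf.mem_toFinset.1 (e i).2)
  refine hG.no_antichain hn hIn (fun i => (e i : Ideal (D.E G))) (fun i => (hmem i).1.1) ?_
  intro i j hij hle
  apply hij
  apply e.injective
  apply Subtype.ext
  exact le_antisymm hle ((hmem j).2 (hmem i).1 hle)

end Pool.Agent.NIPFields.LG
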