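import Mathlib
import Pool.Agent.NIPFields.LZ.ClaimA
import Pool.Agent.NIPFields.LZ.Width

set_option autoImplicit false

/-!
# The number of minimal primes
-/

namespace Pool.Agent.NIPFields.LG

open Pool.Agent.NIPFields.FI

variable {K k : Type*} [Field K] [Field k] [Algebra K k] {ℓ : ℕ} {D : LD K k ℓ} {G G' : Finset k}

/-- Nonzerodivisors modulo the radical ideal `I G` lie in no minimal prime over it. -/
theorem Fam.notMem_of_nzd (hG : Fam D G) (hℓ : (ℓ : K) ≠ 0) {s : k} (hs : s ∈ D.E G)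
    (hnz : NZD D G s) {P : Ideal (D.E G)} (hP : P ∈ hG.ideal.minimalPrimes) :
    (⟨s, hs⟩ : D.E G) ∉ P := by
  intro h
  have h1 : (⟨s, hs⟩ : D.E G) ∈ ⋃ p ∈ hG.ideal.minimalPrimes, (p : Set (D.E G)) :=
    Set.mem_iUnion₂.2 ⟨P, hP, h⟩
  rw [Ideal.iUnion_minimalPrimes, (hG.ideal_isRadical hℓ).radical] at h1
  obtain ⟨y, hy, hsy⟩ := h1
  exact hy (hnz y y.2 hsy)

/-- The prime of `E G'` over a prime `P` of `E G` with `s ∉ P`. -/
def Fam.up (D : LD K k ℓ) (G G' : Finset k) {s : k} (hs : s ∈ D.E G)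
    (h1 : ∀ z ∈ D.E G', s * z ∈ D.E G) (P : Ideal (D.E G)) (hP : P.IsPrime)
    (hsP : (⟨s, hs⟩ : D.E G) ∉ P) : Ideal (D.E G') where
  carrier := {t | (⟨s * t, h1 t t.2⟩ : D.E G) ∈ P}
  add_mem' := by
    intro a b ha hb
    have h2 := P.add_mem ha hb
    have h3 : (⟨s * (a + b : D.E G'), h1 _ (a + b).2⟩ : D.E G) =
        ⟨s * a, h1 a a.2⟩ + ⟨s * b, h1 b b.2⟩ := by
      apply Subtype.ext
      push_cast
      ring
    show (⟨s * (a + b : D.E G'), h1 _ (a + b).2⟩ : D.E G) ∈ P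
    rw [h3]
    exact h2
  zero_mem' := by
    have h3 : (⟨s * (0 : D.E G'), h1 _ (0 : D.E G').2⟩ : D.E G) = 0 := by
      apply Subtype.ext
      push_cast
      ring
    show (⟨s * (0 : D.E G'), h1 _ (0 : D.E G').2⟩ : D.E G) ∈ P
    rw [h3]
    exact P.zero_mem
  smul_mem' := by
    intro c t ht
    show (⟨s * (c * t : D.E G'), h1 _ (c * t).2⟩ : D.E G) ∈ P
    refine (hP.mem_or_mem (x := (⟨s, hs⟩ : D.E G)) ?_).resolve_left hsP
    have h3 : (⟨s, hs⟩ : D.E G) * ⟨s * (c * t : D.E G'), h1 _ (c * t).2⟩ =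
        ⟨s * c, h1 c c.2⟩ * ⟨s * t, h1 t t.2⟩ := by
      apply Subtype.ext
      push_cast
      ring
    rw [h3]
    exact P.mul_mem_left _ ht

theorem Fam.mem_up {s : k} {hs : s ∈ D.E G} {h1 : ∀ z ∈ D.E G', s * z ∈ D.E G}
    {P : Ideal (D.E G)} {hP : P.IsPrime} {hsP : (⟨s, hs⟩ : D.E G) ∉ P} {t : D.E G'} :
    t ∈ Fam.up D G G' hs h1 P hP hsP ↔ (⟨s * t, h1 t t.2⟩ : D.E G) ∈ P := Iff.rfl

/-- `P' ∩ E G = P`. -/
theorem Fam.mem_up_iff (hle : ∀ z ∈ D.E G, z ∈ D.E G') {s : k} {hs : s ∈ D.E G}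
    {h1 : ∀ z ∈ D.E G', s * z ∈ D.E G}
    {P : Ideal (D.E G)} {hP : P.IsPrime} {hsP : (⟨s, hs⟩ : D.E G) ∉ P} (t : D.E G) :
    (⟨t, hle t t.2⟩ : D.E G') ∈ Fam.up D G G' hs h1 P hP hsP ↔ t ∈ P := by
  rw [Fam.mem_up]
  have h2 : (⟨s * ((⟨t, hle t t.2⟩ : D.E G') : k), h1 _ (hle t t.2)⟩ : D.E G) =
      ⟨s, hs⟩ * t := Subtype.ext rfl
  rw [h2]
  exact ⟨fun h => (hP.mem_or_mem h).resolve_left hsP, fun h => P.mul_mem_left _ h⟩

theorem Fam.up_isPrime {s : k} {hs : s ∈ D.E G} {h1 : ∀ z ∈ D.E G', s * z ∈ D.E G}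
    {P : Ideal (D.E G)} {hP : P.IsPrime} {hsP : (⟨s, hs⟩ : D.E G) ∉ P} :
    (Fam.up D G G' hs h1 P hP hsP).IsPrime := by
  constructor
  · rw [Ideal.ne_top_iff_one, Fam.mem_up]
    have h2 : (⟨s * ((1 : D.E G') : k), h1 _ (1 : D.E G').2⟩ : D.E G) = ⟨s, hs⟩ := by
      apply Subtype.ext
      push_cast
      ring
    rw [h2]
    exact hsP
  · intro x y hxy
    rw [Fam.mem_up] at hxy
    simp only [Fam.mem_up]
    apply hP.mem_or_mem
    have h2 : (⟨s * x, h1 x x.2⟩ : D.E G) * ⟨s * y, h1 y y.2⟩ =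
        ⟨s, hs⟩ * ⟨s * (x * y : D.E G'), h1 _ (x * y).2⟩ := by
      apply Subtype.ext
      push_cast
      ring
    rw [h2]
    exact P.mul_mem_left _ hxy

/-- `P'` is a minimal prime over `I G'`. -/
theorem Fam.up_mem_minimalPrimes (hG : Fam D G) (hG' : Fam D G')
    (hle : ∀ z ∈ D.E G, z ∈ D.E G') {s : k} {hs : s ∈ D.E G}
    {h1 : ∀ z ∈ D.E G', s * z ∈ D.E G} (h2 : ∀ r ∈ D.I G, s * r ∈ D.I G')
    {P : Ideal (D.E G)} {hP : P.IsPrime} {hsP : (⟨s, hs⟩ : D.E G) ∉ P}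
    (hPm : P ∈ hG.ideal.minimalPrimes) :
    Fam.up D G G' hs h1 P hP hsP ∈ hG'.ideal.minimalPrimes := by
  refine ⟨⟨Fam.up_isPrime, ?_⟩, ?_⟩
  · intro t ht
    rw [hG'.mem_ideal] at ht
    rw [Fam.mem_up]
    apply hPm.1.2
    rw [hG.mem_ideal]
    exact hs _ (hG.I_anti hG' hle ht)
  · rintro Q ⟨hQ, hQI⟩ hQP t ht
    have hsQ : (⟨s, hle s hs⟩ : D.E G') ∉ Q := by
      intro h
      exact hsP ((Fam.mem_up_iff hle (⟨s, hs⟩ : D.E G)).1 (hQP h))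
    -- the contraction of `Q`
    let f : D.E G →+* D.E G' := Subring.inclusion hle
    have hQc : (Q.comap f).IsPrime := Ideal.comap_isPrime f Q
    have hIc : hG.ideal ≤ Q.comap f := by
      intro r hr
      rw [hG.mem_ideal] at hr
      rw [Ideal.mem_comap]
      have h3 : (⟨s, hle s hs⟩ : D.E G') * f r ∈ Q := by
        apply hQI
        rw [hG'.mem_ideal]
        exact h2 _ hr
      exact (hQ.mem_or_mem h3).resolve_left hsQ
    have hcP : Q.comap f ≤ P := by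
      intro r hr
      exact (Fam.mem_up_iff hle r).1 (hQP hr)
    have hPc : P ≤ Q.comap f := hPm.2 ⟨hQc, hIc⟩ hcP
    rw [Fam.mem_up] at ht
    have h4 := hPc ht
    rw [Ideal.mem_comap] at h4
    have h5 : f ⟨s * t, h1 t t.2⟩ = ⟨s, hle s hs⟩ * t := Subtype.ext rfl
    rw [h5] at h4
    exact (hQ.mem_or_mem h4).resolve_left hsQ

/-- The number of minimal primes grows in the situation of Claim A. -/
theorem Fam.count (hG : Fam D G) (hG' : Fam D G') (hℓ : (ℓ : K) ≠ 0)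
    (hle : ∀ z ∈ D.E G, z ∈ D.E G') {s : k} (hs : s ∈ D.E G) (hnz : NZD D G s)
    (h1 : ∀ z ∈ D.E G', s * z ∈ D.E G) (h2 : ∀ r ∈ D.I G, s * r ∈ D.I G')
    (h3 : ∃ j ∈ D.I G, j ∉ D.I G') (hfin : hG.ideal.minimalPrimes.Finite)
    (hfin' : hG'.ideal.minimalPrimes.Finite) :
    hG.ideal.minimalPrimes.ncard < hG'.ideal.minimalPrimes.ncard := by
  classical
  have _ := hfin
  have hsP : ∀ P ∈ hG.ideal.minimalPrimes, (⟨s, hs⟩ : D.E G) ∉ P :=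
    fun P hP => hG.notMem_of_nzd hℓ hs hnz hP
  let F : Ideal (D.E G) → Ideal (D.E G') := fun P =>
    if hP : P ∈ hG.ideal.minimalPrimes then Fam.up D G G' hs h1 P hP.1.1 (hsP P hP) else ⊤
  have hF : ∀ P (hP : P ∈ hG.ideal.minimalPrimes),
      F P = Fam.up D G G' hs h1 P hP.1.1 (hsP P hP) := fun P hP => dif_pos hP
  have hinj : Set.InjOn F hG.ideal.minimalPrimes := by
    intro P hP Q hQ hPQ
    rw [hF P hP, hF Q hQ] at hPQ
    ext t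
    rw [← Fam.mem_up_iff (h1 := h1) (hP := hP.1.1) (hsP := hsP P hP) hle t,
      ← Fam.mem_up_iff (h1 := h1) (hP := hQ.1.1) (hsP := hsP Q hQ) hle t, hPQ]
  rw [← Set.ncard_image_of_injOn hinj]
  refine Set.ncard_lt_ncard ?_ hfin'
  rw [Set.ssubset_iff_of_subset]
  · obtain ⟨j, hj, hj'⟩ := h3
    have hjE : j ∈ D.E G := D.I_le_E hG.one hj
    have hjI : (⟨j, hle j hjE⟩ : D.E G') ∉ hG'.ideal := hj'
    rw [← (hG'.ideal_isRadical hℓ).radical, ← Ideal.sInf_minimalPrimes, Submodule.mem_sInf]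
      at hjI
    push Not at hjI
    obtain ⟨Q, hQ, hjQ⟩ := hjI
    refine ⟨Q, hQ, ?_⟩
    rintro ⟨P, hP, hPQ⟩
    apply hjQ
    rw [← hPQ, hF P hP]
    exact (Fam.mem_up_iff hle (⟨j, hjE⟩ : D.E G)).2 (hP.1.2 hj)
  · rintro Q ⟨P, hP, rfl⟩
    rw [hF P hP]
    exact hG.up_mem_minimalPrimes hG' hle h2 hP

/-- All nonzerodivisors modulo `I G` are units of `E G`. -/
def AllUnits (D : LD K k ℓ) (G : Finset k) : Prop := ∀ s ∈ D.E G, NZD D G s → s⁻¹ ∈ D.E G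

theorem Fam.exists_top_aux [Infinite K] (hℓ : (ℓ : K) ≠ 0) {n : ℕ} (hn : 2 ≤ n)
    (hIn : InC (k := k) K ℓ n) (m : ℕ) : ∀ (G : Finset k) (hG : Fam D G),
    n - hG.ideal.minimalPrimes.ncard = m →
    ∃ G', Fam D G' ∧ (∀ z ∈ D.E G, z ∈ D.E G') ∧ AllUnits D G' ∧
      (¬ AllUnits D G → ∃ j ∈ D.I G, j ∉ D.I G') := by
  induction m using Nat.strong_induction_on with
  | _ m ih =>
    intro G hG hm
    by_cases hU : AllUnits D G
    · exact ⟨G, hG, fun z hz => hz, hU, fun h => absurd hU h⟩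
    · have hU' := hU
      unfold AllUnits at hU'
      push Not at hU'
      obtain ⟨s, hs, hnz, hnu⟩ := hU'
      obtain ⟨G₁, hG₁, hle, h1, h2, j, hj, hj'⟩ := hG.claimA hℓ hn hIn hs hnz hnu
      obtain ⟨hfin, hlt⟩ := hG.finite_minimalPrimes hn hIn
      obtain ⟨hfin₁, hlt₁⟩ := hG₁.finite_minimalPrimes hn hIn
      have hc := hG.count hG₁ hℓ hle hs hnz h1 h2 ⟨j, hj, hj'⟩ hfin hfin₁
      obtain ⟨G₂, hG₂, hle₂, hU₂, -⟩ :=
        ih (n - hG₁.ideal.minimalPrimes.ncard) (by omega) G₁ hG₁ rfl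
      exact ⟨G₂, hG₂, fun z hz => hle₂ z (hle z hz), hU₂,
        fun _ => ⟨j, hj, fun h => hj' (hG₁.I_anti hG₂ hle₂ h)⟩⟩

theorem Fam.exists_top [Infinite K] (hG : Fam D G) (hℓ : (ℓ : K) ≠ 0) {n : ℕ} (hn : 2 ≤ n)
    (hIn : InC (k := k) K ℓ n) :
    ∃ G', Fam D G' ∧ (∀ z ∈ D.E G, z ∈ D.E G') ∧ AllUnits D G' ∧
      (¬ AllUnits D G → ∃ j ∈ D.I G, j ∉ D.I G') :=
  Fam.exists_top_aux hℓ hn hIn _ G hG rfl

end Pool.Agent.NIPFields.LG
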