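import Mathlib
import Pool.Agent.NIPFields.LZ.Count

set_option autoImplicit false

/-!
# The rings in which all nonzerodivisors are units
-/

namespace Pool.Agent.NIPFields.LG

open Pool.Agent.NIPFields.FI

/-- Chinese remainder theorem for all maximal ideals. -/
theorem exists_crt_max {R : Type*} [CommRing R] [Finite (MaximalSpectrum R)]
    (f : MaximalSpectrum R → R) : ∃ r : R, ∀ M : MaximalSpectrum R, r - f M ∈ M.asIdeal := by
  classical
  have _ := Fintype.ofFinite (MaximalSpectrum R)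
  have hco : Pairwise fun x x' : MaximalSpectrum R => IsCoprime x.asIdeal x'.asIdeal := by
    intro x x' hxx'
    have h2 : x.asIdeal ≠ x'.asIdeal := fun h => hxx' (MaximalSpectrum.ext h)
    exact Ideal.isCoprime_iff_sup_eq.2 (x.isMaximal.coprime_of_ne x'.isMaximal h2)
  exact Ideal.exists_forall_sub_mem_ideal (I := fun M : MaximalSpectrum R => M.asIdeal) hco f

theorem isUnit_of_forall_max {R : Type*} [CommRing R] {x : R}
    (h : ∀ M : MaximalSpectrum R, x ∉ M.asIdeal) : IsUnit x := by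
  by_contra hnu
  obtain ⟨M, hM, hxM⟩ := exists_max_ideal_of_mem_nonunits hnu
  exact h ⟨M, hM⟩ hxM

variable {K k : Type*} [Field K] [Field k] [Algebra K k] {ℓ : ℕ} {D : LD K k ℓ} {G : Finset k}

/-- the ideal of the ring is the intersection of its minimal primes -/
private theorem Fam.mem_ideal_iff_min (hG : Fam D G) (hℓ : (ℓ : K) ≠ 0) {x : D.E G} :
    x ∈ hG.ideal ↔ ∀ P ∈ hG.ideal.minimalPrimes, x ∈ P := by
  conv_lhs => rw [← (hG.ideal_isRadical hℓ).radical, ← Ideal.sInf_minimalPrimes, Ideal.mem_sInf]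

/-- a nonunit lies in a minimal prime -/
private theorem Fam.exists_min_of_nonunit (hG : Fam D G) (hℓ : (ℓ : K) ≠ 0)
    (hU : AllUnits D G) {s : D.E G} (hs : ¬ IsUnit s) :
    ∃ P ∈ hG.ideal.minimalPrimes, s ∈ P := by
  have h1 : ¬ NZD D G (s : k) := by
    intro hnz
    apply hs
    have h2 := hU s s.2 hnz
    have h0 : (s : k) ≠ 0 := by
      intro h0
      apply hG.one_notMem
      apply hnz 1 (D.E G).one_mem
      rw [h0, zero_mul]
      exact (D.I G).zero_mem
    refine IsUnit.of_mul_eq_one ⟨(s : k)⁻¹, h2⟩ ?_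
    apply Subtype.ext
    push_cast
    exact mul_inv_cancel₀ h0
  unfold NZD at h1
  push Not at h1
  obtain ⟨t, ht, hst, htI⟩ := h1
  have h3 : (⟨t, ht⟩ : D.E G) ∉ hG.ideal := htI
  rw [hG.mem_ideal_iff_min hℓ] at h3
  push Not at h3
  obtain ⟨P, hP, htP⟩ := h3
  refine ⟨P, hP, ?_⟩
  have h4 : s * ⟨t, ht⟩ ∈ P := hP.1.2 (show (s * ⟨t, ht⟩ : D.E G) ∈ hG.ideal from hst)
  exact (hP.1.1.mem_or_mem h4).resolve_right htP

theorem Fam.isMaximal_iff (hG : Fam D G) (hℓ : (ℓ : K) ≠ 0) {n : ℕ} (hn : 2 ≤ n)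
    (hIn : InC (k := k) K ℓ n) (hU : AllUnits D G) (M : Ideal (D.E G)) :
    M.IsMaximal ↔ M ∈ hG.ideal.minimalPrimes := by
  classical
  have hfin := (hG.finite_minimalPrimes hn hIn).1
  have key : ∀ M : Ideal (D.E G), M.IsMaximal → M ∈ hG.ideal.minimalPrimes := by
    intro M hM
    have h1 : (M : Set (D.E G)) ⊆ ⋃ P ∈ ((hfin.toFinset : Finset (Ideal (D.E G))) :
        Set (Ideal (D.E G))), (P : Set (D.E G)) := by
      intro s hs
      have hnu : ¬ IsUnit s := fun h => hM.ne_top (Ideal.eq_top_of_isUnit_mem _ hs h)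
      obtain ⟨P, hP, hsP⟩ := hG.exists_min_of_nonunit hℓ hU hnu
      exact Set.mem_biUnion (by simpa using hP) hsP
    have h2 := (Ideal.subset_union_prime (s := hfin.toFinset) (f := fun P => P) ⊤ ⊤
      (fun P hP _ _ => ((Set.Finite.mem_toFinset hfin).1 hP).1.1)).1 h1
    obtain ⟨P, hP, hMP⟩ := h2
    rw [Set.Finite.mem_toFinset] at hP
    rw [hM.eq_of_le hP.1.1.ne_top hMP]
    exact hP
  refine ⟨key M, fun hP => ?_⟩
  obtain ⟨M', hM', hle⟩ := Ideal.exists_le_maximal M hP.1.1.ne_top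
  have h1 := key M' hM'
  have h2 : M = M' := le_antisymm hle (h1.2 hP.1 hle)
  rw [h2]
  exact hM'

theorem Fam.finite_max (hG : Fam D G) (hℓ : (ℓ : K) ≠ 0) {n : ℕ} (hn : 2 ≤ n)
    (hIn : InC (k := k) K ℓ n) (hU : AllUnits D G) : Finite (MaximalSpectrum (D.E G)) := by
  have hfin := (hG.finite_minimalPrimes hn hIn).1
  have _ : Finite hG.ideal.minimalPrimes := hfin.to_subtype
  refine Finite.of_injective (fun M : MaximalSpectrum (D.E G) =>
    (⟨M.asIdeal, (hG.isMaximal_iff hℓ hn hIn hU M.asIdeal).1 M.isMaximal⟩ :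
      hG.ideal.minimalPrimes)) ?_
  intro M M' h
  exact MaximalSpectrum.ext (congrArg Subtype.val h)

theorem Fam.mem_ideal_iff (hG : Fam D G) (hℓ : (ℓ : K) ≠ 0) {n : ℕ} (hn : 2 ≤ n)
    (hIn : InC (k := k) K ℓ n) (hU : AllUnits D G) {x : D.E G} :
    (x : k) ∈ D.I G ↔ ∀ M : MaximalSpectrum (D.E G), x ∈ M.asIdeal := by
  rw [← hG.mem_ideal, hG.mem_ideal_iff_min hℓ]
  constructor
  · intro h M
    exact h _ ((hG.isMaximal_iff hℓ hn hIn hU M.asIdeal).1 M.isMaximal)
  · intro h P hP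
    exact h ⟨P, (hG.isMaximal_iff hℓ hn hIn hU P).2 hP⟩

end Pool.Agent.NIPFields.LG
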