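import Mathlib
import Pool.Agent.NIPFields.LZ.Semi
import Pool.Agent.NIPFields.LZ.LocRing
import Pool.Agent.NIPFields.LG.Tower
import Pool.Agent.NIPFields.Definable

set_option autoImplicit false

/-!
# Lemma J: a residue field violates `TL`
-/

namespace Pool.Agent.NIPFields.LG

open FirstOrder FirstOrder.Language FirstOrder.Ring Set IsLocalRing
open Pool.Agent.NIPFields.FI

universe u v

section

variable {K k : Type*} [Field K] [Field k] [Algebra K k] {ℓ : ℕ}

/-- A maximal ideal `P` of `E G` which does not contain all infinitesimals, and an element `e`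
with residue `1` at `P` which multiplies `P` into `I G`. -/
structure JData (D : LD K k ℓ) (G : Finset k) (P : Ideal (D.E G)) (F' : Finset K) (e : D.E G) :
    Prop where
  fam : Fam D G
  good : UGood K k ℓ F'
  one : (1 : K) ∈ F'
  max : P.IsMaximal
  e1 : e - 1 ∈ P
  iff : ∀ x : D.E G, x ∈ P ↔ ((x * e : D.E G) : k) ∈ D.I G
  notle : ∃ j ∈ Inf K (Pw k ℓ), ∀ h : j ∈ D.E G, (⟨j, h⟩ : D.E G) ∉ P

variable (K ℓ) in
/-- The definable set `{d : d / g ∈ U for g ∈ G}`. -/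
def DDs (G : Finset k) (F' : Finset K) : Set k := {d | ∀ g ∈ G, d * g⁻¹ ∈ US K ℓ k F'}

variable (K ℓ) in
/-- The definable set of all `z` with `z e DDs ⊆ DDs`. -/
def ZZs (G : Finset k) (F' : Finset K) (e : k) : Set k :=
  {z | ∀ d ∈ DDs K ℓ G F', z * e * d ∈ DDs K ℓ G F'}

variable {D : LD K k ℓ} {G : Finset k} {P : Ideal (D.E G)} {F' : Finset K} {e : D.E G}

theorem JData.e_notMem (J : JData D G P F' e) : e ∉ P := by
  intro h
  apply J.max.ne_top
  rw [Ideal.eq_top_iff_one]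
  have := P.sub_mem h J.e1
  rwa [sub_sub_cancel] at this

theorem JData.I_mem (J : JData D G P F' e) {x : D.E G} (hx : (x : k) ∈ D.I G) : x ∈ P := by
  rw [J.iff, Subring.coe_mul, mul_comm]
  exact e.2 _ hx

theorem mem_DDs_of_I {d : k} (hd : d ∈ D.I G) : d ∈ DDs K ℓ G F' := fun g hg => by
  rw [← div_eq_mul_inv]
  exact Inf_subset_US F' (hd g hg)

theorem JData.DD_mul (J : JData D G P F' e) {d : k} (hd : d ∈ DDs K ℓ G F') {j : k}
    (hj : j ∈ Inf K (Pw k ℓ)) : d * j ∈ D.I G := by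
  intro g hg
  have h2 := D.mem_O.1 (J.good.mem_O D (hd g hg)) j hj
  have h3 : d * j / g = d * g⁻¹ * j := by ring
  rw [h3]
  exact h2

theorem JData.DD_E (J : JData D G P F' e) {d : k} (hd : d ∈ DDs K ℓ G F') : d ∈ D.E G :=
  fun _ hx => J.DD_mul hd (D.I_le_J J.fam.one hx)

theorem JData.DD_P (J : JData D G P F' e) {d : k} (hd : d ∈ DDs K ℓ G F') :
    (⟨d, J.DD_E hd⟩ : D.E G) ∈ P := by
  obtain ⟨j, hj, hjP⟩ := J.notle
  have hjE : j ∈ D.E G := D.O_le_E (D.inf_mem_O hj)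
  have h1 : (⟨d, J.DD_E hd⟩ : D.E G) * ⟨j, hjE⟩ ∈ P := J.I_mem (J.DD_mul hd hj)
  exact (J.max.isPrime.mem_or_mem h1).resolve_right (hjP hjE)

theorem JData.mem_ZZ (J : JData D G P F' e) {z : k} (hz : z ∈ D.E G) :
    z ∈ ZZs K ℓ G F' (e : k) := by
  intro d hd
  apply mem_DDs_of_I (D := D)
  have h1 := (J.iff _).1 (J.DD_P hd)
  have h2 := hz _ h1
  convert h2 using 1
  push_cast
  ring

theorem JData.ZZ_E (J : JData D G P F' e) {z : k} (hz : z ∈ ZZs K ℓ G F' (e : k)) :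
    z * e ∈ D.E G := by
  intro d hd
  apply J.fam.max
  intro y hy a
  have h1 : algebraMap K k a * (y * d) ∈ D.I G := by
    have := (D.I G).smul_mem a (hy d hd)
    rwa [Algebra.smul_def] at this
  have h2 := hz _ (mem_DDs_of_I h1) 1 J.fam.one 1 J.one
  rw [map_one, one_mul, inv_one, mul_one] at h2
  convert h2 using 2
  ring

theorem JData.mem_iff_DD (J : JData D G P F' e) {b : k} (hb : b ∈ ZZs K ℓ G F' (e : k)) :
    (⟨b * e, J.ZZ_E hb⟩ : D.E G) ∈ P ↔ b * e * e ∈ DDs K ℓ G F' := by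
  constructor
  · intro h
    apply mem_DDs_of_I (D := D)
    exact (J.iff _).1 h
  · intro h
    have h1 : (⟨b * e, J.ZZ_E hb⟩ : D.E G) * e ∈ P := J.DD_P h
    exact (J.max.isPrime.mem_or_mem h1).resolve_right J.e_notMem

/-- For elements of `E G`. -/
theorem JData.mem_iff_DD' (J : JData D G P F' e) {b : D.E G} :
    b ∈ P ↔ (b : k) * e * e ∈ DDs K ℓ G F' := by
  rw [← J.mem_iff_DD (J.mem_ZZ b.2)]
  have h1 : (⟨(b : k) * e, J.ZZ_E (J.mem_ZZ b.2)⟩ : D.E G) = b * e := rfl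
  rw [h1]
  constructor
  · intro h
    exact P.mul_mem_right _ h
  · intro h
    exact (J.max.isPrime.mem_or_mem h).resolve_right J.e_notMem

theorem JData.mem_loc_iff (J : JData D G P F' e) [P.IsPrime] {x : k} :
    x ∈ locS (D.E G) P ↔ ∃ a b : k, (a ∈ ZZs K ℓ G F' (e : k) ∧ b ∈ ZZs K ℓ G F' (e : k)) ∧
      (b * e * e ∉ DDs K ℓ G F' ∧ x * b = a) := by
  rw [mem_locS]
  constructor
  · rintro ⟨a, b, hb, h⟩
    exact ⟨a, b, ⟨J.mem_ZZ a.2, J.mem_ZZ b.2⟩, fun h' => hb (J.mem_iff_DD'.2 h'), h⟩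
  · rintro ⟨a, b, ⟨ha, hb⟩, hb', h⟩
    refine ⟨⟨a * e, J.ZZ_E ha⟩, ⟨b * e, J.ZZ_E hb⟩, fun h' => hb' ((J.mem_iff_DD hb).1 h'), ?_⟩
    dsimp only
    rw [← h]
    ring

theorem JData.mem_max_iff (J : JData D G P F' e) [P.IsPrime] {x : k} :
    (∃ h : x ∈ locS (D.E G) P, residue (locS (D.E G) P) ⟨x, h⟩ = 0) ↔
      ∃ a b : k, ((a ∈ ZZs K ℓ G F' (e : k) ∧ b ∈ ZZs K ℓ G F' (e : k)) ∧
        a * e * e ∈ DDs K ℓ G F') ∧ (b * e * e ∉ DDs K ℓ G F' ∧ x * b = a) := by
  constructor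
  · rintro ⟨h, h0⟩
    rw [residue_eq_zero_iff, locS_mem_max] at h0
    obtain ⟨a, b, ha, hb, h1⟩ := h0
    exact ⟨a, b, ⟨⟨J.mem_ZZ a.2, J.mem_ZZ b.2⟩, J.mem_iff_DD'.1 ha⟩,
      fun h' => hb (J.mem_iff_DD'.2 h'), h1⟩
  · rintro ⟨a, b, ⟨⟨ha, hb⟩, ha'⟩, hb', h⟩
    refine ⟨J.mem_loc_iff.2 ⟨a, b, ⟨ha, hb⟩, hb', h⟩, ?_⟩
    rw [residue_eq_zero_iff, locS_mem_max]
    refine ⟨⟨a * e, J.ZZ_E ha⟩, ⟨b * e, J.ZZ_E hb⟩, (J.mem_iff_DD ha).2 ha',
      fun h' => hb' ((J.mem_iff_DD hb).1 h'), ?_⟩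
    dsimp only
    rw [← h]
    ring

/-- Elements `y e ∈ P` are in `I G`. -/
theorem JData.I_of_mul (J : JData D G P F' e) {y : D.E G} (h : y * e ∈ P) :
    ((y * e : D.E G) : k) ∈ D.I G :=
  (J.iff y).1 ((J.max.isPrime.mem_or_mem h).resolve_right J.e_notMem)

end

section

variable {K : Type*} {k : Type u} [Field K] [Field k] [Algebra K k] {ℓ : ℕ} [CompatibleRing k]

theorem def_DDs (G : Finset k) (F' : Finset K) :
    (univ : Set k).Definable₁ Language.ring (DDs K ℓ G F') := by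
  unfold Definable₁
  have h2 : {x : Fin 1 → k | x 0 ∈ DDs K ℓ G F'} =
      ⋂ g ∈ G, {x : Fin 1 → k | x 0 * g⁻¹ ∈ US K ℓ k F'} := by
    ext x
    simp only [mem_iInter, mem_ofPred_eq, DDs]
  rw [h2]
  refine definable_biInter_finset (fun g => ?_) G
  exact def_mem (def_US ℓ F') (dfun_mul (dfun_var 0) (dfun_const (mem_univ _)))

theorem def_ZZs (G : Finset k) (F' : Finset K) (e : k) :
    (univ : Set k).Definable₁ Language.ring (ZZs K ℓ G F' e) := by
  have h1 := def_mem (def_stab (def_DDs (K := K) (ℓ := ℓ) G F'))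
    (dfun_mul (dfun_var (0 : Fin 1)) (dfun_const (mem_univ e)))
  exact h1

variable {D : LD K k ℓ} {G : Finset k} {P : Ideal (D.E G)} {F' : Finset K} {e : D.E G}

theorem JData.def_loc (J : JData D G P F' e) [P.IsPrime] :
    (univ : Set k).Definable₁ Language.ring {x | x ∈ locS (D.E G) P} := by
  have hZ := def_ZZs (ℓ := ℓ) G F' (e : k)
  have hD := def_DDs (K := K) (ℓ := ℓ) G F'
  have e1 : (univ : Set k).Definable Language.ring {a : Fin 1 ⊕ Fin 2 → k |
      a (Sum.inr 0) ∈ ZZs K ℓ G F' (e : k)} := def_mem hZ (dfun_var _)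
  have e2 : (univ : Set k).Definable Language.ring {a : Fin 1 ⊕ Fin 2 → k |
      a (Sum.inr 1) ∈ ZZs K ℓ G F' (e : k)} := def_mem hZ (dfun_var _)
  have e3 : (univ : Set k).Definable Language.ring {a : Fin 1 ⊕ Fin 2 → k |
      a (Sum.inr 1) * e * e ∈ DDs K ℓ G F'} :=
    def_mem hD (dfun_mul (dfun_mul (dfun_var _) (dfun_const (mem_univ _)))
      (dfun_const (mem_univ _)))
  have e4 : (univ : Set k).Definable Language.ring {a : Fin 1 ⊕ Fin 2 → k |
      a (Sum.inl 0) * a (Sum.inr 1) = a (Sum.inr 0)} :=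
    Set.DefinableFun.ofPred_eq (dfun_mul (dfun_var _) (dfun_var _)) (dfun_var _)
  have h := ((e1.inter e2).inter (e3.compl.inter e4)).exists_of_finite
  unfold Definable₁
  convert h using 1
  ext x
  simp only [mem_ofPred_eq, J.mem_loc_iff]
  constructor
  · rintro ⟨a, b, h1, h2, h3⟩
    exact ⟨![a, b], h1, h2, h3⟩
  · rintro ⟨w, h1, h2, h3⟩
    exact ⟨w 0, w 1, h1, h2, h3⟩

theorem JData.def_max (J : JData D G P F' e) [P.IsPrime] :
    (univ : Set k).Definable₁ Language.ring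
      {x | ∃ h : x ∈ locS (D.E G) P, residue (locS (D.E G) P) ⟨x, h⟩ = 0} := by
  have hZ := def_ZZs (ℓ := ℓ) G F' (e : k)
  have hD := def_DDs (K := K) (ℓ := ℓ) G F'
  have e1 : (univ : Set k).Definable Language.ring {a : Fin 1 ⊕ Fin 2 → k |
      a (Sum.inr 0) ∈ ZZs K ℓ G F' (e : k)} := def_mem hZ (dfun_var _)
  have e2 : (univ : Set k).Definable Language.ring {a : Fin 1 ⊕ Fin 2 → k |
      a (Sum.inr 1) ∈ ZZs K ℓ G F' (e : k)} := def_mem hZ (dfun_var _)
  have e3 : (univ : Set k).Definable Language.ring {a : Fin 1 ⊕ Fin 2 → k |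
      a (Sum.inr 1) * e * e ∈ DDs K ℓ G F'} :=
    def_mem hD (dfun_mul (dfun_mul (dfun_var _) (dfun_const (mem_univ _)))
      (dfun_const (mem_univ _)))
  have e5 : (univ : Set k).Definable Language.ring {a : Fin 1 ⊕ Fin 2 → k |
      a (Sum.inr 0) * e * e ∈ DDs K ℓ G F'} :=
    def_mem hD (dfun_mul (dfun_mul (dfun_var _) (dfun_const (mem_univ _)))
      (dfun_const (mem_univ _)))
  have e4 : (univ : Set k).Definable Language.ring {a : Fin 1 ⊕ Fin 2 → k |
      a (Sum.inl 0) * a (Sum.inr 1) = a (Sum.inr 0)} :=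
    Set.DefinableFun.ofPred_eq (dfun_mul (dfun_var _) (dfun_var _)) (dfun_var _)
  have h := (((e1.inter e2).inter e5).inter (e3.compl.inter e4)).exists_of_finite
  unfold Definable₁
  convert h using 1
  ext x
  simp only [mem_ofPred_eq, J.mem_max_iff]
  constructor
  · rintro ⟨a, b, h1, h2, h3⟩
    exact ⟨![a, b], h1, h2, h3⟩
  · rintro ⟨w, h1, h2, h3⟩
    exact ⟨w 0, w 1, h1, h2, h3⟩

/-- The residue field is NIP. -/
theorem JData.nip (J : JData D G P F' e) [P.IsPrime] (hk : NIP k)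
    [CompatibleRing (ResidueField (locS (D.E G) P))] :
    NIP (ResidueField (locS (D.E G) P)) :=
  NIP.quotient hk (locS (D.E G) P) J.def_loc (residue _) residue_surjective J.def_max

end

section

variable {K k : Type*} [Field K] [Field k] [Algebra K k] {ℓ : ℕ} {D : LD K k ℓ} {G : Finset k}
  {P : Ideal (D.E G)} {F' : Finset K} {e : D.E G}

/-- The residue field violates `TL`. -/
theorem JData.not_TL (J : JData D G P F' e) [P.IsPrime] :
    ¬ TL (ResidueField (locS (D.E G) P)) ℓ := by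
  classical
  intro hTL
  let r : K × k → ResidueField (locS (D.E G) P) := fun x =>
    if h : algebraMap K k x.1 * x.2⁻¹ ∈ D.E G then residue _ (toLocS ⟨_, h⟩) else 0
  obtain ⟨δ, hδ, hδA⟩ := hTL ((F' ×ˢ G).image r)
  obtain ⟨d, rfl⟩ := locS_residue_surjective J.max δ
  have hdP : d ∉ P := fun h => hδ (residue_toLocS.2 h)
  apply hdP
  -- the residue of `e`
  have he1 : residue (locS (D.E G) P) (toLocS e) = 1 := by
    rw [← sub_eq_zero, ← map_one (residue (locS (D.E G) P)), ← map_sub,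
      ← map_one (toLocS (E := D.E G) (P := P)), ← map_sub]
    exact residue_toLocS.2 J.e1
  have hDD : ((d * e : D.E G) : k) ∈ DDs K ℓ G F' := by
    intro g hg f hf
    have h2 : algebraMap K k f * g⁻¹ ∈ D.E G :=
      (D.E G).mul_mem (D.algebraMap_mem G f) (J.fam.inv_mem hg)
    obtain ⟨β, hβ, hβe⟩ := hδA (r (f, g)) (Finset.mem_image_of_mem _
      (Finset.mem_product.2 ⟨hf, hg⟩))
    obtain ⟨b₀, rfl⟩ := locS_residue_surjective J.max β
    have h3 : r (f, g) = residue _ (toLocS ⟨_, h2⟩) := dif_pos h2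
    have hb₀ : b₀ ∉ P := fun h => hβ (residue_toLocS.2 h)
    obtain ⟨c, i, hi, hci⟩ := J.max.exists_inv hb₀
    -- `c b₀ + i = 1`
    set b : D.E G := 1 + (b₀ - 1) * e with hb
    set c' : D.E G := 1 + (c - 1) * e with hc'
    have hrb : residue (locS (D.E G) P) (toLocS b) = residue _ (toLocS b₀) := by
      rw [hb]
      simp only [map_add, map_mul, map_sub, map_one, he1]
      ring
    have hrc : residue (locS (D.E G) P) (toLocS c * toLocS b₀) = 1 := by
      have h4 := congrArg (fun x => residue (locS (D.E G) P) (toLocS x)) hci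
      simp only [map_add, map_mul, map_one] at h4
      rw [residue_toLocS.2 hi, add_zero] at h4
      rw [map_mul]
      exact h4
    -- `b c' - 1 ∈ I G`
    have h5 : ((b * c' - 1 : D.E G) : k) ∈ D.I G := by
      have h6 : b * c' - 1 = ((b₀ - 1) + (c - 1) + (b₀ - 1) * (c - 1) * e) * e := by
        rw [hb, hc']; ring
      rw [h6]
      apply J.I_of_mul
      rw [← residue_toLocS, ← h6, hb, hc']
      rw [map_mul] at hrc
      simp only [map_add, map_mul, map_sub, map_one, he1]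
      linear_combination hrc
    obtain ⟨h7, h8⟩ := J.fam.inv_one_add h5
    have hbc : (1 : k) + ((b * c' - 1 : D.E G) : k) = b * c' := by push_cast; ring
    rw [hbc] at h7 h8
    have hb0 : (b : k) ≠ 0 := left_ne_zero_of_mul h7
    have hbinv : (b : k)⁻¹ ∈ D.E G := by
      have h9 : (b : k)⁻¹ = c' * (b * c' : k)⁻¹ := by
        have := right_ne_zero_of_mul h7
        field_simp
      rw [h9]
      exact (D.E G).mul_mem c'.2 h8
    -- the congruence
    let q : D.E G := ⟨_, h2⟩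
    have h10 : ((1 + q * (d * e) - b ^ ℓ : D.E G) : k) ∈ D.I G := by
      obtain ⟨y, hy⟩ : ∃ y : D.E G, b ^ ℓ - 1 = y * e := by
        have h11 : b - 1 ∣ b ^ ℓ - 1 := sub_one_dvd_pow_sub_one b ℓ
        obtain ⟨y, hy⟩ := h11
        refine ⟨(b₀ - 1) * y, ?_⟩
        rw [hy, hb]
        ring
      have h12 : 1 + q * (d * e) - b ^ ℓ = (q * d - y) * e := by
        linear_combination -hy
      rw [h12]
      apply J.I_of_mul
      rw [← residue_toLocS, ← h12]
      rw [h3] at hβe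
      simp only [map_add, map_mul, map_sub, map_one, map_pow, he1, hrb]
      rw [← hβe]
      ring
    have h13 := D.I_le_J J.fam.one (((D.E G).pow_mem hbinv ℓ : (b : k)⁻¹ ^ ℓ ∈ D.E G) _ h10)
    have h14 := one_add_mem h13
    have h15 : 1 + algebraMap K k f * (((d * e : D.E G) : k) * g⁻¹) = (b : k) ^ ℓ *
        (1 + (b : k)⁻¹ ^ ℓ * ((1 + q * (d * e) - b ^ ℓ : D.E G) : k)) := by
      have h16 : (b : k) ^ ℓ * (b : k)⁻¹ ^ ℓ = 1 := by
        rw [← mul_pow, mul_inv_cancel₀ hb0, one_pow]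
      have h17 : (q : k) = algebraMap K k f * g⁻¹ := rfl
      push_cast
      rw [h17]
      linear_combination (-(1 + algebraMap K k f * g⁻¹ * ((d : k) * e) - (b : k) ^ ℓ)) * h16
    rw [h15]
    exact Pw_mul ⟨b, hb0, rfl⟩ h14
  have := J.DD_P hDD
  exact (J.max.isPrime.mem_or_mem this).resolve_right J.e_notMem

end

section

variable {K k : Type*} [Field K] [Field k] [Algebra K k] {ℓ : ℕ} {D : LD K k ℓ} {G : Finset k}

/-- Existence of the data. -/
theorem Fam.exists_JData (hG : Fam D G) (hℓ : (ℓ : K) ≠ 0) {n : ℕ} (hn : 2 ≤ n)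
    (hIn : InC (k := k) K ℓ n) (hU : AllUnits D G) (hJ : ∃ j ∈ Inf K (Pw k ℓ), j ∉ D.I G) :
    ∃ (P : Ideal (D.E G)) (F' : Finset K) (e : D.E G), JData D G P F' e := by
  classical
  have _ := hG.finite_max hℓ hn hIn hU
  obtain ⟨j, hj, hjI⟩ := hJ
  have hjE : j ∈ D.E G := D.O_le_E (D.inf_mem_O hj)
  have h1 : ∃ M : MaximalSpectrum (D.E G), (⟨j, hjE⟩ : D.E G) ∉ M.asIdeal := by
    by_contra hcon
    push Not at hcon
    exact hjI ((hG.mem_ideal_iff hℓ hn hIn hU (x := ⟨j, hjE⟩)).2 hcon)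
  obtain ⟨M, hM⟩ := h1
  obtain ⟨e, he⟩ := exists_crt_max fun M' : MaximalSpectrum (D.E G) =>
    if M' = M then (1 : D.E G) else 0
  have he1 : e - 1 ∈ M.asIdeal := by
    have := he M
    rwa [if_pos rfl] at this
  have he0 : ∀ M' : MaximalSpectrum (D.E G), M' ≠ M → e ∈ M'.asIdeal := by
    intro M' hM'
    have := he M'
    rwa [if_neg hM', sub_zero] at this
  have heM : e ∉ M.asIdeal := by
    intro h
    apply M.isMaximal.ne_top
    rw [Ideal.eq_top_iff_one]
    have := M.asIdeal.sub_mem h he1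
    rwa [sub_sub_cancel] at this
  obtain ⟨F, hF⟩ := D.exists_UGood
  refine ⟨M.asIdeal, insert 1 F, e, hG, fun u hu v hv => hF u (fun f hf => hu f
    (Finset.mem_insert_of_mem hf)) v (fun f hf => hv f (Finset.mem_insert_of_mem hf)),
    Finset.mem_insert_self _ _, M.isMaximal, he1, fun x => ?_, j, hj, fun _ => hM⟩
  rw [hG.mem_ideal_iff hℓ hn hIn hU]
  constructor
  · intro hx M'
    by_cases h : M' = M
    · rw [h]
      exact Ideal.mul_mem_right _ _ hx
    · exact Ideal.mul_mem_left _ _ (he0 M' h)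
  · intro hx
    exact (M.isMaximal.isPrime.mem_or_mem (hx M)).resolve_right heM

end

theorem Fam.exists_not_TL {K : Type v} {k : Type u} [Field K] [Infinite K] [Field k]
    [Algebra K k] [CompatibleRing k] (hk : NIP k) {ℓ : ℕ} (hℓ : (ℓ : K) ≠ 0) {D : LD K k ℓ}
    {G : Finset k} (hG : Fam D G) {n : ℕ} (hn : 2 ≤ n) (hIn : InC (k := k) K ℓ n)
    (hU : AllUnits D G) (hJ : ∃ j ∈ Inf K (Pw k ℓ), j ∉ D.I G) :
    ∃ (F : Type u) (_ : Field F) (_ : CompatibleRing F) (_ : K →+* F), NIP F ∧ ¬ TL F ℓ := by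
  obtain ⟨P, F', e, J⟩ := hG.exists_JData hℓ hn hIn hU hJ
  have : P.IsPrime := J.max.isPrime
  let comp : CompatibleRing (ResidueField (locS (D.E G) P)) := compatibleRingOfRing _
  exact ⟨ResidueField (locS (D.E G) P), inferInstance, comp,
    ((residue (locS (D.E G) P)).comp toLocS).comp
      ((algebraMap K k).codRestrict (D.E G) (D.algebraMap_mem G)), J.nip hk, J.not_TL⟩

end Pool.Agent.NIPFields.LG
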