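import Mathlib
import Pool.Agent.NIPFields.LZ.LemmaJ

set_option autoImplicit false

/-!
# The ring of bounded elements is a finite intersection of valuation rings
-/

namespace Pool.Agent.NIPFields.LG

open FirstOrder FirstOrder.Language FirstOrder.Ring Set IsLocalRing
open Pool.Agent.NIPFields.FI

universe u v w

/-- The ring of bounded elements is the intersection of the valuation rings `V i`. -/
structure Semi {K : Type v} {k : Type u} [Field K] [Field k] [Algebra K k] {ℓ : ℕ}
    (D : LD K k ℓ) {ι : Type w} (V : ι → ValuationSubring k) : Prop where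
  fin : Finite ι
  non : Nonempty ι
  ne : ∀ i, V i ≠ ⊤
  alg : ∀ i (a : K), algebraMap K k a ∈ V i
  ring : ∀ x, x ∈ D.E {1} ↔ ∀ i, x ∈ V i
  inf : ∀ x, x ∈ Inf K (Pw k ℓ) ↔ ∀ i, (V i).valuation x < 1
  crt : ∀ f : ι → k, (∀ i, f i ∈ D.E {1}) → ∃ y ∈ D.E {1}, ∀ i, (V i).valuation (y - f i) < 1
  small : ∀ a : ι → k, (∀ i, a i ≠ 0) →
    ∃ b : k, b ≠ 0 ∧ ∀ i, (V i).valuation b < (V i).valuation (a i)

section

variable {K : Type v} {k : Type u} [Field K] [Infinite K] [Field k] [Algebra K k]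
  [CompatibleRing k] {ℓ : ℕ}

/-- There is no maximal ideal as in Lemma J. -/
def NoJ (D : LD K k ℓ) : Prop :=
  ∀ (G : Finset k) (P : Ideal (D.E G)) (F' : Finset K) (e : D.E G), ¬ JData D G P F' e

omit [Infinite K] in
theorem noJ_of_TL (hk : NIP k) (D : LD K k ℓ)
    (hTL : ∀ (F : Type u) [Field F] [CompatibleRing F] (_ : K →+* F), NIP F → TL F ℓ) :
    NoJ D := by
  intro G P F' e J
  have : P.IsPrime := J.max.isPrime
  let comp : CompatibleRing (ResidueField (locS (D.E G) P)) := compatibleRingOfRing _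
  exact J.not_TL (hTL (ResidueField (locS (D.E G) P))
    (((residue (locS (D.E G) P)).comp toLocS).comp
      ((algebraMap K k).codRestrict (D.E G) (D.algebraMap_mem G))) (J.nip hk))

omit [Infinite K] [CompatibleRing k] in
/-- All rings with `AllUnits` have `I G = J`. -/
theorem Fam.inf_le (hℓ : (ℓ : K) ≠ 0) {D : LD K k ℓ} {n : ℕ} (hn : 2 ≤ n)
    (hIn : InC (k := k) K ℓ n) (hNJ : NoJ D)
    {G : Finset k} (hG : Fam D G) (hU : AllUnits D G) {j : k} (hj : j ∈ Inf K (Pw k ℓ)) :
    j ∈ D.I G := by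
  by_contra hcon
  obtain ⟨P, F', e, J⟩ := hG.exists_JData hℓ hn hIn hU ⟨j, hj, hcon⟩
  exact hNJ G P F' e J

omit [CompatibleRing k] in
theorem LD.allUnits_one (hℓ : (ℓ : K) ≠ 0) (D : LD K k ℓ) {n : ℕ} (hn : 2 ≤ n)
    (hIn : InC (k := k) K ℓ n) (hNJ : NoJ D) :
    AllUnits D {1} := by
  by_contra hcon
  obtain ⟨G, hG, _, hU, h⟩ := (Fam.singleton D).exists_top hℓ hn hIn
  obtain ⟨j, hj, hj'⟩ := h hcon
  exact hj' (hG.inf_le hℓ hn hIn hNJ hU (D.mem_I_one.1 hj))

omit [CompatibleRing k] in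
theorem LD.exists_inv_mem (hℓ : (ℓ : K) ≠ 0) (D : LD K k ℓ) {n : ℕ} (hn : 2 ≤ n)
    (hIn : InC (k := k) K ℓ n) (hNJ : NoJ D) {y : k}
    (hy : ∀ a : K, y ≠ algebraMap K k a) : ∃ x : K, (y + algebraMap K k x)⁻¹ ∈ D.E {1} := by
  obtain ⟨x, _, hx⟩ := (Fam.singleton D).exists_good' hn hIn hy ∅
  obtain ⟨G', hG', _, hw, _⟩ := (Fam.singleton D).step hn hx
  obtain ⟨G'', hG'', hle, hU, _⟩ := hG'.exists_top hℓ hn hIn
  refine ⟨x, D.mem_O.2 fun j hj => D.I_le_J hG''.one ?_⟩
  exact hle _ hw j (hG''.inf_le hℓ hn hIn hNJ hU hj)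

end

section

variable {k : Type*} [Field k] (E : Subring k) (P : Ideal E) [hP : P.IsPrime]

/-- The local ring of `E` at `P` as a valuation ring. -/
def valS (h : ∀ x : k, x ∈ locS E P ∨ x⁻¹ ∈ locS E P) : ValuationSubring k where
  __ := locS E P
  mem_or_inv_mem' := h

variable {E P}

theorem mem_valS (h : ∀ x : k, x ∈ locS E P ∨ x⁻¹ ∈ locS E P) {x : k} :
    x ∈ valS E P h ↔ ∃ a b : E, b ∉ P ∧ x * b = a := Iff.rfl

theorem valS_lt_one (h : ∀ x : k, x ∈ locS E P ∨ x⁻¹ ∈ locS E P) {x : k} :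
    (valS E P h).valuation x < 1 ↔ ∃ a b : E, a ∈ P ∧ b ∉ P ∧ x * b = a := by
  by_cases hx : x = 0
  · subst hx
    simp only [map_zero, zero_lt_one, true_iff]
    exact ⟨0, 1, P.zero_mem, fun h => hP.ne_top ((Ideal.eq_top_iff_one _).2 h), by simp⟩
  have h1 : (valS E P h).valuation x < 1 ↔ x⁻¹ ∉ valS E P h := by
    rw [← ValuationSubring.valuation_le_one_iff, not_le, map_inv₀,
      one_lt_inv₀ (by simpa [zero_lt_iff] using hx)]
  rw [h1]
  constructor
  · intro h2
    obtain ⟨a, b, hb, hab⟩ := (h x).resolve_right h2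
    refine ⟨a, b, ?_, hb, hab⟩
    by_contra ha
    apply h2
    refine ⟨b, a, ha, ?_⟩
    rw [← hab]
    field_simp
  · rintro ⟨a, b, ha, hb, hab⟩ ⟨a', b', hb', hab'⟩
    have h2 : b * b' = a * a' := by
      apply Subtype.ext
      push_cast
      rw [← hab, ← hab']
      field_simp
    have h3 : b * b' ∈ P := by rw [h2]; exact P.mul_mem_right _ ha
    exact (hP.mem_or_mem h3).elim hb hb'

theorem valS_lt_one' (h : ∀ x : k, x ∈ locS E P ∨ x⁻¹ ∈ locS E P) {x : E} :
    (valS E P h).valuation x < 1 ↔ x ∈ P := by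
  rw [valS_lt_one]
  constructor
  · rintro ⟨a, b, ha, hb, hab⟩
    have h1 : x * b = a := Subtype.ext hab
    have h2 : x * b ∈ P := by rw [h1]; exact ha
    exact (hP.mem_or_mem h2).resolve_right hb
  · intro hx
    exact ⟨x, 1, hx, fun h => hP.ne_top ((Ideal.eq_top_iff_one _).2 h), by simp⟩

end

/-- A ring is the intersection of its localizations at the maximal ideals. -/
theorem mem_of_forall_locS {k : Type*} [Field k] {E : Subring k} {x : k}
    (h : ∀ M : MaximalSpectrum E, ∃ a b : E, b ∉ M.asIdeal ∧ x * b = a) : x ∈ E := by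
  let Q : Ideal E :=
    { carrier := {b | x * b ∈ E}
      add_mem' := by
        intro a b ha hb
        simp only [mem_ofPred_eq] at ha hb ⊢
        push_cast
        rw [mul_add]
        exact E.add_mem ha hb
      zero_mem' := by
        simp only [mem_ofPred_eq]
        push_cast
        rw [mul_zero]
        exact E.zero_mem
      smul_mem' := by
        intro c b hb
        simp only [mem_ofPred_eq, smul_eq_mul] at hb ⊢
        push_cast
        rw [mul_left_comm]
        exact E.mul_mem c.2 hb }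
  have hQ : Q = ⊤ := by
    by_contra hne
    obtain ⟨M, hM, hQM⟩ := Ideal.exists_le_maximal Q hne
    obtain ⟨a, b, hb, hab⟩ := h ⟨M, hM⟩
    apply hb
    apply hQM
    change x * b ∈ E
    rw [hab]
    exact a.2
  have h1 : (1 : E) ∈ Q := by rw [hQ]; trivial
  have h2 : x * ((1 : E) : k) ∈ E := h1
  rwa [Subring.coe_one, mul_one] at h2

variable {K : Type v} {k : Type u} [Field K] [Infinite K] [Field k] [Algebra K k]
  [CompatibleRing k] {ℓ : ℕ}

theorem LD.exists_semi_of_noJ (hk : NIP k) (hℓ : (ℓ : K) ≠ 0) (D : LD K k ℓ) (hNJ : NoJ D) :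
    ∃ (ι : Type u) (V : ι → ValuationSubring k), Semi D V := by
  classical
  obtain ⟨n, hn, hIn⟩ := D.exists_InC hk
  have hG := Fam.singleton D
  have hU := D.allUnits_one hℓ hn hIn hNJ
  have hfin := hG.finite_max hℓ hn hIn hU
  have hnt : Nontrivial (D.E {1}) := inferInstance
  have hprime : ∀ M : MaximalSpectrum (D.E {1}), M.asIdeal.IsPrime := fun M => M.isMaximal.isPrime
  have hval : ∀ (M : MaximalSpectrum (D.E {1})) (x : k),
      x ∈ @locS k _ (D.E {1}) M.asIdeal (hprime M) ∨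
      x⁻¹ ∈ @locS k _ (D.E {1}) M.asIdeal (hprime M) := by
    intro M y
    have := hprime M
    by_cases hy : ∃ a : K, y = algebraMap K k a
    · obtain ⟨a, rfl⟩ := hy
      exact Or.inl (le_locS (D.algebraMap_mem_O a))
    · push Not at hy
      obtain ⟨x, hx⟩ := D.exists_inv_mem hℓ hn hIn hNJ hy
      have hyx : y + algebraMap K k x ≠ 0 := by
        intro h
        apply hy (-x)
        rw [map_neg]
        exact eq_neg_of_add_eq_zero_left h
      have hy0 : y ≠ 0 := by
        have := hy 0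
        rwa [map_zero] at this
      set w : D.E {1} := ⟨_, hx⟩ with hw
      have hwk : (w : k) * (y + algebraMap K k x) = 1 := inv_mul_cancel₀ hyx
      let x' : D.E {1} := ⟨_, D.algebraMap_mem_O x⟩
      have hx' : (x' : k) = algebraMap K k x := rfl
      by_cases hwM : w ∈ M.asIdeal
      · right
        refine ⟨w, 1 - x' * w, ?_, ?_⟩
        · intro h
          apply (hprime M).ne_top
          rw [Ideal.eq_top_iff_one]
          have h2 := M.asIdeal.add_mem h (M.asIdeal.mul_mem_left x' hwM)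
          rwa [sub_add_cancel] at h2
        · push_cast
          rw [hx', inv_mul_eq_iff_eq_mul₀ hy0]
          linear_combination -hwk
      · left
        refine ⟨1 - x' * w, w, hwM, ?_⟩
        push_cast
        rw [hx']
        linear_combination hwk
  let V : MaximalSpectrum (D.E {1}) → ValuationSubring k := fun M =>
    @valS k _ (D.E {1}) M.asIdeal (hprime M) (hval M)
  have hJM : ∀ x ∈ Inf K (Pw k ℓ), ∀ M, (V M).valuation x < 1 := by
    intro x hx M
    have := hprime M
    have hxE : x ∈ D.E {1} := D.inf_mem_O hx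
    refine (valS_lt_one' (hval M) (x := ⟨x, hxE⟩)).2 ?_
    exact (hG.mem_ideal_iff hℓ hn hIn hU (x := ⟨x, hxE⟩)).1 (D.mem_I_one.2 hx) M
  have hring : ∀ x, x ∈ D.E {1} ↔ ∀ M, x ∈ V M := by
    intro x
    constructor
    · intro hx M
      have := hprime M
      exact le_locS (P := M.asIdeal) hx
    · intro hx
      exact mem_of_forall_locS fun M => hx M
  refine ⟨MaximalSpectrum (D.E {1}), V, hfin, inferInstance, ?_, ?_, hring, ?_, ?_, ?_⟩
  · intro M hM
    obtain ⟨ε, hε, h⟩ := D.small {1}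
    have h1 := h 1 (Finset.mem_singleton_self 1)
    rw [one_mul] at h1
    have h2 := hJM ε h1 M
    have h3 : (V M).valuation ε⁻¹ ≤ 1 := by
      rw [ValuationSubring.valuation_le_one_iff, hM]
      trivial
    have h4 : (V M).valuation (ε * ε⁻¹) < 1 := by
      rw [map_mul]
      exact mul_lt_one_of_lt_of_le h2 h3
    rw [mul_inv_cancel₀ hε, map_one] at h4
    exact lt_irrefl _ h4
  · intro M a
    exact (hring _).1 (D.algebraMap_mem_O a) M
  · intro x
    refine ⟨fun hx => hJM x hx, fun hx => ?_⟩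
    have hxE : x ∈ D.E {1} := (hring x).2 fun M =>
      ((V M).valuation_le_one_iff x).1 (hx M).le
    rw [← D.mem_I_one]
    refine (hG.mem_ideal_iff hℓ hn hIn hU (x := ⟨x, hxE⟩)).2 fun M => ?_
    have := hprime M
    exact (valS_lt_one' (hval M) (x := ⟨x, hxE⟩)).1 (hx M)
  · intro f hf
    obtain ⟨r, hr⟩ := exists_crt_max fun M : MaximalSpectrum (D.E {1}) =>
      (⟨f M, hf M⟩ : D.E {1})
    refine ⟨r, r.2, fun M => ?_⟩
    have := hprime M
    exact (valS_lt_one' (hval M) (x := r - ⟨f M, hf M⟩)).2 (hr M)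
  · intro a ha
    have : Fintype (MaximalSpectrum (D.E {1})) := Fintype.ofFinite _
    obtain ⟨ε, hε, h⟩ := D.small (Finset.univ.image fun M => (a M)⁻¹)
    refine ⟨ε, hε, fun M => ?_⟩
    have h1 := hJM _ (h _ (Finset.mem_image_of_mem _ (Finset.mem_univ M))) M
    have h2 : (0 : (V M).ValueGroup) < (V M).valuation (a M) := by
      simpa [zero_lt_iff] using ha M
    rw [map_mul, map_inv₀, inv_mul_lt_iff₀ h2, mul_one] at h1
    exact h1

theorem LD.exists_semi (hk : NIP k) (hℓ : (ℓ : K) ≠ 0) (D : LD K k ℓ)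
    (hTL : ∀ (F : Type u) [Field F] [CompatibleRing F] (_ : K →+* F), NIP F → TL F ℓ) :
    ∃ (ι : Type u) (V : ι → ValuationSubring k), Semi D V :=
  D.exists_semi_of_noJ hk hℓ (noJ_of_TL hk D hTL)

end Pool.Agent.NIPFields.LG
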