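import Mathlib
import Pool.Agent.NIPFields.LZ.Semi2
import Pool.Agent.NIPFields.LG.Germ
import Pool.Agent.NIPFields.LG.Chain
import Pool.Agent.NIPFields.LC.NoIncomp

set_option autoImplicit false

/-!
# The valuation rings `V i` are not all contained in one proper valuation ring
-/

namespace Pool.Agent.NIPFields.LG

open FirstOrder FirstOrder.Language FirstOrder.Ring Set Filter
open Pool.Agent.NIPFields.FI

universe u v w

attribute [local instance] germAlg

/-- `y ^ ℓ - 1` is the product of the `y - z`, `z` a root of unity of `K`. -/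
theorem pow_sub_one_eq_prod {K : Type u} {E : Type v} [Field K] [Field E] [Algebra K E] {ℓ : ℕ}
    (hℓ : ℓ.Prime) {ζ : K} (hζ : IsPrimitiveRoot ζ ℓ) (y : E) :
    y ^ ℓ - 1 = ∏ z ∈ Polynomial.nthRootsFinset ℓ (1 : K), (y - algebraMap K E z) := by
  have h := congrArg (Polynomial.aeval y) (Polynomial.X_pow_sub_one_eq_prod hℓ.pos hζ)
  rw [map_sub, map_pow, Polynomial.aeval_X, map_one, map_prod] at h
  rw [h]
  refine Finset.prod_congr rfl fun z _ => ?_
  rw [map_sub, Polynomial.aeval_X, Polynomial.aeval_C]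

theorem Semi.const_eq_zero {K : Type v} {k : Type u} [Field K] [Field k] [Algebra K k] {ℓ : ℕ}
    {D : LD K k ℓ} {ι : Type w} {V : ι → ValuationSubring k} (hV : Semi D V) {i : ι} {a : K}
    (h : (V i).valuation (algebraMap K k a) < 1) : a = 0 := by
  by_contra ha
  have h1 : algebraMap K k a ≠ 0 := (map_ne_zero _).2 ha
  have h2 := hV.alg i a⁻¹
  rw [map_inv₀] at h2
  exact val_inv_gt h1 h h2

theorem Semi.not_all_le {K : Type u} [Field K] [Infinite K] {ℓ : ℕ} (hℓ : ℓ.Prime)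
    (hℓK : (ℓ : K) ≠ 0) {ζ : K} (hζ : IsPrimitiveRoot ζ ℓ)
    {D : LD K (Germ (UF K : Filter (Finset K)) K) ℓ} {ι : Type w}
    {V : ι → ValuationSubring (Germ (UF K : Filter (Finset K)) K)} (hV : Semi D V)
    (W : ValuationSubring (Germ (UF K : Filter (Finset K)) K)) (hW : W ≠ ⊤)
    (hVW : ∀ i, V i ≤ W) {i j : ι} (hij : i ≠ j) : False := by
  classical
  let E := Germ (UF K : Filter (Finset K)) K
  let R : Finset K := Polynomial.nthRootsFinset ℓ (1 : K)
  have hR1 : ∀ z, z ∈ R ↔ z ^ ℓ = 1 := fun z => Polynomial.mem_nthRootsFinset hℓ.pos 1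
  have hζ1 : ζ ≠ 1 := hζ.ne_one hℓ.one_lt
  -- the element `y`
  obtain ⟨y, hy, hyf⟩ := hV.crt (fun m => if m = i then algebraMap K E ζ else 1) (by
    intro m
    split_ifs
    · exact D.algebraMap_mem_O ζ
    · exact (D.E {1}).one_mem)
  have hyi : (V i).valuation (y - algebraMap K E ζ) < 1 := by
    have := hyf i
    rwa [if_pos rfl] at this
  have hym : ∀ m, m ≠ i → (V m).valuation (y - algebraMap K E 1) < 1 := by
    intro m hm
    have := hyf m
    rwa [if_neg hm, ← map_one (algebraMap K E)] at this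
  -- the differences `y - z` are not infinitesimal
  have hdiff : ∀ (m : ι) (a b : K), (V m).valuation (y - algebraMap K E a) < 1 →
      (V m).valuation (y - algebraMap K E b) < 1 → a = b := by
    intro m a b ha hb
    have h1 : (V m).valuation (algebraMap K E (a - b)) < 1 := by
      have h2 : algebraMap K E (a - b) = (y - algebraMap K E b) - (y - algebraMap K E a) := by
        rw [map_sub]; ring
      rw [h2]
      exact lt_of_le_of_lt (Valuation.map_sub _ _ _) (max_lt hb ha)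
    exact sub_eq_zero.1 (hV.const_eq_zero h1)
  have hnot : ∀ z : K, y - algebraMap K E z ∉ Inf K (Pw E ℓ) := by
    intro z hz
    rw [hV.inf] at hz
    have h1 := hdiff i _ _ hyi (hz i)
    have h2 := hdiff j _ _ (hym j (Ne.symm hij)) (hz j)
    exact hζ1 (h1.trans h2.symm)
  -- scaling
  obtain ⟨F, hF⟩ := D.exists_UGood
  obtain ⟨c, hc, hcR⟩ := hF.exists_scale D (R.image fun z => y - algebraMap K E z)
  have hnot' : ∀ z ∈ R, (y - algebraMap K E z) / algebraMap K E c ∉ US K ℓ E F := by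
    intro z hz h
    exact hnot z ((hcR _ (Finset.mem_image_of_mem _ hz)).2 h)
  have hinf : y ^ ℓ - 1 ∈ Inf K (Pw E ℓ) := by
    rw [hV.inf]
    intro m
    obtain ⟨z, hz, hzy⟩ : ∃ z ∈ R, (V m).valuation (y - algebraMap K E z) < 1 := by
      by_cases hm : m = i
      · subst hm
        exact ⟨ζ, (hR1 ζ).2 hζ.pow_eq_one, hyi⟩
      · exact ⟨1, (hR1 1).2 (one_pow _), hym m hm⟩
    rw [pow_sub_one_eq_prod hℓ hζ y, ← Finset.mul_prod_erase _ _ hz, map_mul]
    have h1 : (V m).valuation (∏ x ∈ R.erase z, (y - algebraMap K E x)) ≤ 1 := by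
      rw [ValuationSubring.valuation_le_one_iff]
      exact prod_mem fun x _ => sub_mem ((hV.ring y).1 hy m) (hV.alg m x)
    exact mul_lt_one_of_lt_of_le hzy h1
  -- the statement that is transferred
  have hΦ : ∀ t : K, t ≠ 0 → ∃ x : K, (x ^ ℓ - 1) / t ∈ US K ℓ K F ∧
      ∀ z ∈ R, (x - z) / c ∉ US K ℓ K F := by
    intro t ht
    have h1 := smul_mem t⁻¹ hinf
    rw [map_inv₀, inv_mul_eq_div] at h1
    have h2 := Inf_subset_US F h1
    clear hcR hnot hdiff hyi hym hyf hy
    clear h1 hinf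
    induction y using Germ.inductionOn with | _ g
    have h3 : ∀ᶠ s in (UF K : Filter (Finset K)), (g s ^ ℓ - 1) / t ∈ US K ℓ K F :=
      (mem_US_germ F (fun s => (g s ^ ℓ - 1) / t)).1 h2
    have h4 : ∀ᶠ s in (UF K : Filter (Finset K)), ∀ z ∈ R, (g s - z) / c ∉ US K ℓ K F := by
      rw [Filter.eventually_all_finset]
      intro z hz
      rw [Ultrafilter.eventually_not]
      intro h
      exact hnot' z hz ((mem_US_germ F (fun s => (g s - z) / c)).2 h)
    obtain ⟨s, e1, e2⟩ := (h3.and h4).exists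
    exact ⟨g s, e1, e2⟩
  choose! η hη1 hη2 using hΦ
  -- the transferred statement
  have hΨ : ∀ t : E, t ≠ 0 → ∃ x : E, (x ^ ℓ - 1) / t ∈ US K ℓ E F ∧
      ∀ z ∈ R, (x - algebraMap K E z) / algebraMap K E c ∉ US K ℓ E F := by
    intro t ht
    induction t using Germ.inductionOn with | _ τ
    have h0 : ∀ᶠ s in (UF K : Filter (Finset K)), ¬ τ s = 0 := by
      rw [Ultrafilter.eventually_not]
      intro h
      apply ht
      rw [← Germ.coe_zero, Germ.coe_eq]
      exact h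
    refine ⟨(↑(fun s => η (τ s)) : Germ (UF K : Filter (Finset K)) K), ?_, ?_⟩
    · refine (mem_US_germ F (fun s => (η (τ s) ^ ℓ - 1) / τ s)).2 ?_
      filter_upwards [h0] with s hs
      exact hη1 _ hs
    · intro z hz h
      have h1 : ∀ᶠ s in (UF K : Filter (Finset K)), (η (τ s) - z) / c ∈ US K ℓ K F :=
        (mem_US_germ F (fun s => (η (τ s) - z) / c)).1 h
      obtain ⟨s, e1, e2⟩ := (h1.and h0).exists
      exact hη2 _ e2 z hz e1
  -- an element of the maximal ideal of `W`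
  obtain ⟨x, hx⟩ : ∃ x, x ∉ W := by
    by_contra hcon
    push Not at hcon
    exact hW (eq_top_iff.2 fun x _ => hcon x)
  have hx0 : x ≠ 0 := by
    rintro rfl
    exact hx W.zero_mem
  have ht1 : W.valuation x⁻¹ < 1 := val_lt_one_of_inv_notMem (by rwa [inv_inv])
  obtain ⟨y', hy1, hy2⟩ := hΨ x⁻¹ (inv_ne_zero hx0)
  have h1 : (y' ^ ℓ - 1) / x⁻¹ ∈ D.E {1} := hF.mem_O D hy1
  have h2 : W.valuation ((y' ^ ℓ - 1) / x⁻¹) ≤ 1 := by
    rw [ValuationSubring.valuation_le_one_iff]
    exact hVW i ((hV.ring _).1 h1 i)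
  have h3 : W.valuation (y' ^ ℓ - 1) < 1 := by
    have h4 : y' ^ ℓ - 1 = x⁻¹ * ((y' ^ ℓ - 1) / x⁻¹) := by
      field_simp
    rw [h4, map_mul]
    exact mul_lt_one_of_lt_of_le ht1 h2
  obtain ⟨z, hz, hzW⟩ : ∃ z ∈ R, W.valuation (y' - algebraMap K E z) < 1 := by
    by_contra hcon
    push Not at hcon
    rw [pow_sub_one_eq_prod hℓ hζ y', map_prod] at h3
    exact absurd h3 (not_lt.2 (Finset.one_le_prod' hcon))
  apply hy2 z hz
  have h5 : y' - algebraMap K E z ∈ Inf K (Pw E ℓ) := by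
    rw [hV.inf]
    intro m
    exact val_lt_of_le (hVW m) hzW
  have h6 := smul_mem c⁻¹ h5
  rw [map_inv₀, inv_mul_eq_div] at h6
  exact Inf_subset_US F h6

/-- If the `V i` are not all contained in one proper valuation ring, there is a partition. -/
theorem exists_partition {k : Type u} [Field k] {ι : Type w} [Finite ι] [Nonempty ι]
    (V : ι → ValuationSubring k) (hne : ∀ i, V i ≠ ⊤)
    (h : ∀ W : ValuationSubring k, W ≠ ⊤ → ¬ ∀ i, V i ≤ W) :
    ∃ S : Set ι, S.Nonempty ∧ Sᶜ.Nonempty ∧ ∀ i ∈ S, ∀ j ∉ S, V i ⊔ V j = ⊤ := by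
  classical
  have hchain : ∀ A X Y : ValuationSubring k, A ≤ X → A ≤ Y → X ≤ Y ∨ Y ≤ X := by
    intro A X Y hX hY
    exact (ValuationSubring.le_total_ideal A).1 ⟨X, hX⟩ ⟨Y, hY⟩
  let i₀ : ι := Classical.arbitrary ι
  let S : Set ι := {i | V i₀ ⊔ V i ≠ ⊤}
  have h0 : i₀ ∈ S := by
    change V i₀ ⊔ V i₀ ≠ ⊤
    rw [sup_idem]
    exact hne i₀
  obtain ⟨m, hm, hmax⟩ := Set.Finite.exists_maximalFor (fun i => V i₀ ⊔ V i) S (Set.toFinite S)
    ⟨i₀, h0⟩
  refine ⟨S, ⟨i₀, h0⟩, ?_, ?_⟩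
  · by_contra hcon
    rw [Set.not_nonempty_iff_eq_empty, Set.compl_empty_iff] at hcon
    apply h (V i₀ ⊔ V m) hm
    intro i
    have hi : i ∈ S := by rw [hcon]; trivial
    have h1 : V i₀ ⊔ V i ≤ V i₀ ⊔ V m := by
      rcases hchain (V i₀) (V i₀ ⊔ V i) (V i₀ ⊔ V m) le_sup_left le_sup_left with h2 | h2
      · exact h2
      · exact hmax hi h2
    exact le_sup_right.trans h1
  · intro i hi j hj
    by_contra hcon
    have hj' : V i₀ ⊔ V j = ⊤ := by
      by_contra h1
      exact hj h1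
    rcases hchain (V i) (V i₀ ⊔ V i) (V i ⊔ V j) le_sup_right le_sup_left with h2 | h2
    · apply hcon
      rw [eq_top_iff, ← hj']
      exact sup_le (le_sup_left.trans h2) le_sup_right
    · apply hi
      rw [eq_top_iff, ← hj']
      exact sup_le le_sup_left (le_sup_right.trans h2)

end Pool.Agent.NIPFields.LG
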