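import Mathlib
import Pool.Agent.NIPFields.LC.LCThm
import Pool.Agent.NIPFields.LZ.IdemN

set_option autoImplicit false

/-!
# The local character theorem for a finite family of valuation rings
-/

namespace Pool.Agent.NIPFields.LZ

open Set Filter Polynomial Pool.Agent.NIPFields.FI Pool.Agent.NIPFields.LC

universe u v w

/-- The set `B` for a family. -/
def BSetN {ι : Type w} {K : Type u} [Field K] (O : ι → ValuationSubring K) (β : ι → K) : Set K :=
  {x | ∀ i, (O i).valuation x < (O i).valuation (β i)}

section base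

variable {ι : Type w} {K : Type u} [Field K] {O : ι → ValuationSubring K} {β : ι → K}

private theorem BSetN_lt_one (hβ1 : ∀ i, (O i).valuation (β i) ≤ 1) {x : K} (hx : x ∈ BSetN O β)
    (i : ι) : (O i).valuation x < 1 := (hx i).trans_le (hβ1 i)

private theorem BSetN_val (hβ1 : ∀ i, (O i).valuation (β i) ≤ 1) {x : K} (hx : x ∈ BSetN O β)
    (i : ι) : (O i).valuation (1 + x) = 1 :=
  Valuation.map_one_add_of_lt _ (BSetN_lt_one hβ1 hx i)

private theorem BSetN_div (hβ1 : ∀ i, (O i).valuation (β i) ≤ 1) {x y : K} (hx : x ∈ BSetN O β)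
    (hy : y ∈ BSetN O β) : y / (1 + x) ∈ BSetN O β := by
  intro i
  rw [map_div₀, BSetN_val hβ1 hx i, div_one]
  exact hy i

private theorem BD_BSetN [Finite ι] [Nonempty ι]
    (hsmall : ∀ a : ι → K, (∀ i, a i ≠ 0) →
      ∃ b : K, b ≠ 0 ∧ ∀ i, (O i).valuation b < (O i).valuation (a i)) (hβ0 : ∀ i, β i ≠ 0)
    (hβ1 : ∀ i, (O i).valuation (β i) ≤ 1) : BD (BSetN O β) where
  zero := by
    intro i
    rw [map_zero]
    exact zero_lt_iff.2 (((O i).valuation).ne_zero_iff.2 (hβ0 i))
  add := by
    intro x hx y hy i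
    exact Valuation.map_add_lt _ (hx i) (hy i)
  neg := by
    intro x hx i
    rw [Valuation.map_neg]
    exact hx i
  mul := by
    intro x hx y hy i
    rw [map_mul]
    calc (O i).valuation x * (O i).valuation y ≤ (O i).valuation x * 1 := by
          gcongr
          exact (BSetN_lt_one hβ1 hy i).le
      _ = (O i).valuation x := mul_one _
      _ < _ := hx i
  ne := by
    intro x hx h0
    have := BSetN_val hβ1 hx (Classical.arbitrary ι)
    rw [h0, map_zero] at this
    exact zero_ne_one this
  div := fun x hx => BSetN_div hβ1 hx hx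
  inf := by
    intro A
    classical
    have h1 : ∀ i, ∃ c : K, c ≠ 0 ∧ (O i).valuation c ≤ 1 ∧
        ∀ a ∈ A, (O i).valuation (c * a) ≤ (O i).valuation (β i) := by
      intro i
      induction A using Finset.induction_on with
      | empty => exact ⟨1, one_ne_zero, by simp, by simp⟩
      | insert a A _ ih =>
        obtain ⟨c, hc0, hc1, hc⟩ := ih
        by_cases h : (O i).valuation (c * a) ≤ (O i).valuation (β i)
        · refine ⟨c, hc0, hc1, fun b hb => ?_⟩
          rw [Finset.mem_insert] at hb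
          rcases hb with rfl | hb
          · exact h
          · exact hc b hb
        · rw [not_le] at h
          have ha : a ≠ 0 := by
            rintro rfl
            rw [mul_zero, map_zero] at h
            exact absurd h not_lt_zero
          have h2 : (O i).valuation (β i / a) < (O i).valuation c := by
            rw [map_div₀, div_lt_iff₀ (zero_lt_iff.2 (((O i).valuation).ne_zero_iff.2 ha)),
              ← map_mul]
            exact h
          refine ⟨β i / a, div_ne_zero (hβ0 i) ha, h2.le.trans hc1, fun b hb => ?_⟩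
          rw [Finset.mem_insert] at hb
          rcases hb with rfl | hb
          · rw [div_mul_cancel₀ _ ha]
          · refine le_trans ?_ (hc b hb)
            rw [map_mul, map_mul]
            exact mul_le_mul_left h2.le _
    choose c hc0 hc1 hc using h1
    obtain ⟨t, ht0, ht⟩ := hsmall c hc0
    have ht1 : ∀ i, (O i).valuation t < 1 := fun i => (ht i).trans_le (hc1 i)
    have htA : ∀ a ∈ A, t * a ∈ BSetN O β := by
      intro a ha i
      by_cases ha0 : a = 0
      · rw [ha0, mul_zero, map_zero]
        exact zero_lt_iff.2 (((O i).valuation).ne_zero_iff.2 (hβ0 i))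
      · refine lt_of_lt_of_le ?_ (hc i a ha)
        rw [map_mul, map_mul]
        exact mul_lt_mul_of_pos_right (ht i)
          (zero_lt_iff.2 (((O i).valuation).ne_zero_iff.2 ha0))
    have hinj : Function.Injective (fun n : ℕ => t ^ (n + 1)) := by
      intro n m hnm
      let i₀ : ι := Classical.arbitrary ι
      have h2 : (O i₀).valuation t ^ (n + 1) = (O i₀).valuation t ^ (m + 1) := by
        rw [← map_pow, ← map_pow]
        exact congrArg _ hnm
      have h3 := (pow_right_strictAnti₀ (zero_lt_iff.2 (((O i₀).valuation).ne_zero_iff.2 ht0))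
        (ht1 i₀)).injective h2
      omega
    refine (Set.infinite_range_of_injective hinj).mono ?_
    rintro _ ⟨n, rfl⟩ a ha i
    have h2 : t ^ (n + 1) * a = t ^ n * (t * a) := by ring
    show (O i).valuation (t ^ (n + 1) * a) < _
    rw [h2, map_mul]
    calc (O i).valuation (t ^ n) * (O i).valuation (t * a)
        ≤ 1 * (O i).valuation (t * a) := by
          gcongr
          rw [map_pow]
          exact pow_le_one₀ zero_le (ht1 i).le
      _ = (O i).valuation (t * a) := one_mul _
      _ < _ := htA a ha i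

end base

section main

attribute [local instance] germAlg

variable {ι : Type w} {K : Type u} [Field K] {O : ι → ValuationSubring K} {β : ι → K}

/-- The kernel of the character, in the ultrapower. -/
private def TLN {Q : Type v} [Group Q] (O : ι → ValuationSubring K) (β : ι → K) (c : K → Q) :
    Set (Germ (UF K : Filter (Finset K)) K) :=
  {x | x.LiftPred (fun z => z - 1 ∈ BSetN O β ∧ c z = 1)}

private theorem mem_TLN {Q : Type v} [Group Q] {c : K → Q} {f : Finset K → K} :
    (↑f : Germ (UF K : Filter (Finset K)) K) ∈ TLN O β c ↔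
      ∀ᶠ t in (UF K : Filter (Finset K)), f t - 1 ∈ BSetN O β ∧ c (f t) = 1 := Iff.rfl

private theorem mem_TLN_lin {Q : Type v} [Group Q] {c : K → Q} {a : K} {f : Finset K → K} :
    1 + algebraMap K (Germ (UF K : Filter (Finset K)) K) a *
      (↑f : Germ (UF K : Filter (Finset K)) K) ∈ TLN O β c ↔
    ∀ᶠ t in (UF K : Filter (Finset K)), a * f t ∈ BSetN O β ∧ c (1 + a * f t) = 1 := by
  rw [alg_apply, ← Germ.coe_mul, ← Germ.coe_one, ← Germ.coe_add, mem_TLN]
  refine eventually_congr (Eventually.of_forall fun t => ?_)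
  have : (1 + (fun _ : Finset K => a) * f) t = 1 + a * f t := rfl
  rw [this, add_sub_cancel_left]

/-- The ultrapower valuation rings. -/
private noncomputable def AkN (O : ι → ValuationSubring K) (i : ι) :
    ValuationSubring (Germ (UF K : Filter (Finset K)) K) := UV (UF K) (O i)

private theorem ldatN [Finite ι] (hO : ∀ i, O i ≠ ⊤) {S : Set ι} (hS : S.Nonempty)
    (hS' : Sᶜ.Nonempty) (hind : ∀ i ∈ S, ∀ j ∉ S, O i ⊔ O j = ⊤)
    (hsmall : ∀ a : ι → K, (∀ i, a i ≠ 0) →
      ∃ b : K, b ≠ 0 ∧ ∀ i, (O i).valuation b < (O i).valuation (a i)) (hβ0 : ∀ i, β i ≠ 0)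
    (hβ1 : ∀ i, (O i).valuation (β i) ≤ 1) {Q : Type v} [Group Q] [Finite Q] {c : K → Q}
    (hc : ∀ x ∈ BSetN O β, ∀ y ∈ BSetN O β, c ((1 + x) * (1 + y)) = c (1 + x) * c (1 + y))
    (hVC : ∀ q : Q, ∃ d : ℕ, ∀ f : Fin d → K, ∃ J : Finset (Fin d), ∀ x : K,
      (∀ i, f i * x ∈ BSetN O β) → ∃ i, ¬ (c (1 + f i * x) = q ↔ i ∈ J)) :
    LDatN S K (Germ (UF K : Filter (Finset K)) K) (AkN O) β (TLN O β c) := by
  have _ : Nonempty ι := ⟨hS.some⟩
  have hB := BD_BSetN hsmall hβ0 hβ1
  have hc1 : c 1 = 1 := by
    have := hc 0 hB.zero 0 hB.zero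
    rw [add_zero, one_mul] at this
    exact (mul_eq_left.1 this.symm)
  have hlt : ∀ (f : Finset K → K) (i : ι) (a : K),
      (AkN O i).valuation (↑f : Germ (UF K : Filter (Finset K)) K) <
        (AkN O i).valuation (algebraMap K (Germ (UF K : Filter (Finset K)) K) a) ↔
      ∀ᶠ t in (UF K : Filter (Finset K)), (O i).valuation (f t) < (O i).valuation a := by
    intro f i a
    rw [alg_apply]
    exact UV_lt
  refine ⟨hS, hS', ?_, hβ0, ?_, ?_, ?_, ?_, ?_, ?_, ?_, ?_, ?_, ?_⟩
  · -- infinite
    have := hB.inf ∅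
    simp only [Finset.notMem_empty, false_implies, implies_true, ofPred_true] at this
    exact Set.infinite_univ_iff.1 this
  · intro i
    rw [ValuationSubring.valuation_le_one_iff, alg_apply]
    exact Eventually.of_forall fun t => ((O i).valuation_le_one_iff _).1 (hβ1 i)
  · rw [← Germ.coe_one, mem_TLN]
    refine Eventually.of_forall fun t => ?_
    rw [Pi.one_apply, sub_self]
    exact ⟨hB.zero, hc1⟩
  · intro x hx y hy
    induction x using Germ.inductionOn with | _ f
    induction y using Germ.inductionOn with | _ g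
    rw [mem_TLN] at hx hy
    rw [← Germ.coe_mul, mem_TLN]
    filter_upwards [hx, hy] with t h1 h2
    rw [Pi.mul_apply]
    have e : f t * g t - 1 = (f t - 1) + (g t - 1) + (f t - 1) * (g t - 1) := by ring
    refine ⟨?_, ?_⟩
    · rw [e]
      exact hB.add _ (hB.add _ h1.1 _ h2.1) _ (hB.mul _ h1.1 _ h2.1)
    · have := hc _ h1.1 _ h2.1
      rw [add_sub_cancel, add_sub_cancel, h1.2, h2.2, one_mul] at this
      exact this
  · intro x hx
    induction x using Germ.inductionOn with | _ f
    rw [mem_TLN] at hx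
    rw [← Germ.coe_inv, mem_TLN]
    filter_upwards [hx] with t h1
    rw [Pi.inv_apply]
    have hne : f t ≠ 0 := by
      have := hB.ne _ h1.1
      rwa [add_sub_cancel] at this
    have e : (f t)⁻¹ - 1 = -((f t - 1) / (1 + (f t - 1))) := by
      rw [add_sub_cancel]
      field_simp
      ring
    have h2 : (f t)⁻¹ - 1 ∈ BSetN O β := by
      rw [e]
      exact hB.neg _ (hB.div _ h1.1)
    refine ⟨h2, ?_⟩
    have := hc _ h1.1 _ h2
    rw [add_sub_cancel, add_sub_cancel, mul_inv_cancel₀ hne, hc1, h1.2, one_mul] at this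
    exact this.symm
  · intro x hx i
    induction x using Germ.inductionOn with | _ f
    rw [mem_TLN] at hx
    rw [← Germ.coe_one, ← Germ.coe_sub, hlt]
    filter_upwards [hx] with t h1
    exact h1.1 i
  · choose ε hε0 hε using fun F : Finset K => exists_mem_NbB hB hc F
    refine ⟨(↑ε : Germ (UF K : Filter (Finset K)) K), ?_, fun a => ?_⟩
    · intro h0
      rw [← Germ.coe_zero, Germ.coe_eq] at h0
      obtain ⟨t, ht⟩ := h0.exists
      exact hε0 t ht
    · rw [mem_TLN_lin]
      filter_upwards [eventually_mem a] with F hF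
      exact hε F a hF
  · obtain ⟨F, hF⟩ := exists_addB hB hc hVC
    refine ⟨F, fun α hα β' hβ' => ?_⟩
    induction α using Germ.inductionOn with | _ f
    induction β' using Germ.inductionOn with | _ g
    have h1 : ∀ᶠ t in (UF K : Filter (Finset K)), ∀ a ∈ F,
        a * f t ∈ BSetN O β ∧ c (1 + a * f t) = 1 := by
      rw [Filter.eventually_all_finset]
      exact fun a ha => mem_TLN_lin.1 (hα a ha)
    have h2 : ∀ᶠ t in (UF K : Filter (Finset K)), ∀ a ∈ F,
        a * g t ∈ BSetN O β ∧ c (1 + a * g t) = 1 := by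
      rw [Filter.eventually_all_finset]
      exact fun a ha => mem_TLN_lin.1 (hβ' a ha)
    rw [← Germ.coe_one, ← Germ.coe_add, ← Germ.coe_add, mem_TLN]
    filter_upwards [h1, h2] with t e1 e2
    have h3 := hF _ e1 _ e2
    refine ⟨?_, h3.2⟩
    have e : (1 + f + g) t - 1 = f t + g t := by
      show 1 + f t + g t - 1 = _
      ring
    rw [e]
    exact h3.1
  · obtain ⟨X, F, h⟩ := exists_goodB hB hc hVC
    refine ⟨X, F, fun w hw => ?_⟩
    induction w using Germ.inductionOn with | _ g
    have hwX : ∀ᶠ t in (UF K : Filter (Finset K)), ∀ x ∈ X, g t * x ∈ BSetN O β := by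
      rw [Filter.eventually_all_finset]
      intro x hx
      have h1 : ∀ i, ∀ᶠ t in (UF K : Filter (Finset K)),
          (O i).valuation (g t * x) < (O i).valuation (β i) := by
        intro i
        have := hw x hx i
        rw [alg_apply, ← Germ.coe_mul, hlt] at this
        exact this
      exact Filter.eventually_all.2 h1
    have h2 : ∀ᶠ t in (UF K : Filter (Finset K)), ∃ x ∈ (X : Set K), ∀ δ ∈ NbB (BSetN O β) c F,
        g t * δ ∈ BSetN O β → c (1 + g t * (x + δ)) = c (1 + g t * x) := by
      filter_upwards [hwX] with t ht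
      exact h (g t) ht
    rw [Ultrafilter.eventually_exists_mem_iff (Finset.finite_toSet X)] at h2
    obtain ⟨x, hx, h3⟩ := h2
    refine ⟨x, hx, fun δ hδ hδw => ?_⟩
    induction δ using Germ.inductionOn with | _ d
    have h4 : ∀ᶠ t in (UF K : Filter (Finset K)), ∀ a ∈ F,
        a * d t ∈ BSetN O β ∧ c (1 + a * d t) = 1 := by
      rw [Filter.eventually_all_finset]
      exact fun a ha => mem_TLN_lin.1 (hδ a ha)
    have h5 : ∀ i, ∀ᶠ t in (UF K : Filter (Finset K)),
        (O i).valuation (g t * d t) < (O i).valuation (β i) := by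
      intro i
      have := hδw i
      rw [← Germ.coe_mul, hlt] at this
      exact this
    rw [alg_apply, ← Germ.coe_add, ← Germ.coe_mul, ← Germ.coe_mul, ← Germ.coe_one,
      ← Germ.coe_add, ← Germ.coe_add, ← Germ.coe_div, mem_TLN]
    filter_upwards [h3, h4, hwX, Filter.eventually_all.2 h5] with t e1 e2 e3 e4
    have e6 : g t * d t ∈ BSetN O β := e4
    have e7 := e1 (d t) e2 e6
    have e8 := e3 x hx
    have hne : 1 + g t * x ≠ 0 := hB.ne _ e8
    show (1 + g t * (x + d t)) / (1 + g t * x) - 1 ∈ _ ∧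
      c ((1 + g t * (x + d t)) / (1 + g t * x)) = 1
    have e9 : (1 + g t * (x + d t)) / (1 + g t * x) - 1 = g t * d t / (1 + g t * x) := by
      field_simp
      ring
    have e10 : (1 + g t * (x + d t)) / (1 + g t * x) - 1 ∈ BSetN O β := by
      rw [e9]
      exact BSetN_div hβ1 e8 e6
    refine ⟨e10, ?_⟩
    have e11 := hc _ e10 _ e8
    rw [add_sub_cancel, div_mul_cancel₀ _ hne, e7] at e11
    exact mul_eq_right.1 e11.symm
  · intro a ha
    obtain ⟨b, hb0, hb⟩ := hsmall a ha
    refine ⟨b, hb0, fun i => ?_⟩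
    have := (hlt (fun _ => b) i (a i)).2 (Eventually.of_forall fun t => hb i)
    exact this
  · intro i hi j hj x
    induction x using Germ.inductionOn with | _ f
    choose y hy z hz hxy using fun t => exists_factor (O := fun b => cond b (O i) (O j))
      (by
        intro b
        cases b
        · exact hO j
        · exact hO i) (hind i hi j hj) (f t)
    refine ⟨(↑y : Germ (UF K : Filter (Finset K)) K), Eventually.of_forall hy,
      (↑z : Germ (UF K : Filter (Finset K)) K), Eventually.of_forall hz, ?_⟩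
    rw [← Germ.coe_mul]
    congr 1
    funext t
    exact hxy t

end main

attribute [local instance] germAlg

/-- The local character theorem for a finite family of valuation rings, partitioned into two
parts `S` and `Sᶜ` such that members of different parts are independent. -/
theorem local_characterN {ι : Type w} [Finite ι] {K : Type u} [Field K]
    {O : ι → ValuationSubring K} (hO : ∀ i, O i ≠ ⊤) (S : Set ι) (hS : S.Nonempty)
    (hS' : Sᶜ.Nonempty) (hind : ∀ i ∈ S, ∀ j ∉ S, O i ⊔ O j = ⊤)
    (hsmall : ∀ a : ι → K, (∀ i, a i ≠ 0) →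
      ∃ b : K, b ≠ 0 ∧ ∀ i, (O i).valuation b < (O i).valuation (a i))
    {β : ι → K} (hβ0 : ∀ i, β i ≠ 0) (hβ1 : ∀ i, (O i).valuation (β i) ≤ 1)
    {Q : Type v} [Group Q] [Finite Q] {c : K → Q}
    (hc : ∀ x ∈ BSetN O β, ∀ y ∈ BSetN O β, c ((1 + x) * (1 + y)) = c (1 + x) * c (1 + y))
    (hVC : ∀ q : Q, ∃ d : ℕ, ∀ f : Fin d → K, ∃ J : Finset (Fin d), ∀ x : K,
      (∀ i, f i * x ∈ BSetN O β) → ∃ i, ¬ (c (1 + f i * x) = q ↔ i ∈ J))
    {b : K} (hb : b ≠ 0) (g : K[X]) :
    ∃ e : K, (∀ i ∈ S, (O i).valuation (e - 1) < (O i).valuation b) ∧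
      (∀ i ∉ S, (O i).valuation e < (O i).valuation b) ∧
      e * (1 - e) * g.eval e ∈ BSetN O β ∧ c (1 + e * (1 - e) * g.eval e) = 1 := by
  obtain ⟨e, h1, h2, h3⟩ := (ldatN hO hS hS' hind hsmall hβ0 hβ1 hc hVC).exists_idem g
  induction e using Germ.inductionOn with | _ f
  have k1 : ∀ i ∈ S, ∀ᶠ t in (UF K : Filter (Finset K)),
      (O i).valuation (f t - 1) < (O i).valuation b := by
    intro i hi
    have k := h1 i hi b hb
    rw [alg_apply, ← Germ.coe_one, ← Germ.coe_sub] at k
    exact UV_lt.1 k
  have k2 : ∀ i ∉ S, ∀ᶠ t in (UF K : Filter (Finset K)),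
      (O i).valuation (f t) < (O i).valuation b := by
    intro i hi
    have k := h2 i hi b hb
    rw [alg_apply] at k
    exact UV_lt.1 k
  have k1' : ∀ᶠ t in (UF K : Filter (Finset K)), ∀ i ∈ S,
      (O i).valuation (f t - 1) < (O i).valuation b :=
    Filter.eventually_all.2 fun i => Filter.eventually_imp_distrib_left.2 (k1 i)
  have k2' : ∀ᶠ t in (UF K : Filter (Finset K)), ∀ i ∉ S,
      (O i).valuation (f t) < (O i).valuation b :=
    Filter.eventually_all.2 fun i => Filter.eventually_imp_distrib_left.2 (k2 i)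
  rw [aeval_germ, ← Germ.coe_one, ← Germ.coe_sub, ← Germ.coe_mul, ← Germ.coe_mul,
    ← Germ.coe_add, mem_TLN] at h3
  obtain ⟨t, e1, e2, e3⟩ := (k1'.and (k2'.and h3)).exists
  refine ⟨f t, e1, e2, ?_, ?_⟩
  · have := e3.1
    have e4 : (1 + f * (1 - f) * fun t => g.eval (f t)) t - 1 = f t * (1 - f t) * g.eval (f t) := by
      show 1 + f t * (1 - f t) * g.eval (f t) - 1 = _
      ring
    rw [e4] at this
    exact this
  · exact e3.2

end Pool.Agent.NIPFields.LZ
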