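import Mathlib
import Pool.Agent.NIPFields.LZ.Semi2
import Pool.Agent.NIPFields.LZ.LCN

set_option autoImplicit false

/-!
# No partition into independent parts
-/

namespace Pool.Agent.NIPFields.LG

open FirstOrder FirstOrder.Language FirstOrder.Ring Set Filter
open Pool.Agent.NIPFields.FI

universe u v w

section root

variable {K : Type v} {k : Type u} [Field K] [Field k] [Algebra K k] {ℓ : ℕ}

/-- The `a`-th power of the root of unity. -/
def zz (k : Type u) [Field k] [Algebra K k] (ζ : K) (a : ZMod ℓ) : k := algebraMap K k ζ ^ a.val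

variable {ζ : K}

theorem zz_zero : zz k ζ (0 : ZMod ℓ) = 1 := by
  unfold zz
  rw [ZMod.val_zero, pow_zero]

theorem zz_add [NeZero ℓ] (hζ : ζ ^ ℓ = 1) (a b : ZMod ℓ) :
    zz k ζ (a + b) = zz k ζ a * zz k ζ b := by
  unfold zz
  have h1 : algebraMap K k ζ ^ ℓ = 1 := by rw [← map_pow, hζ, map_one]
  rw [ZMod.val_add, ← pow_add, ← pow_eq_pow_mod _ h1]

theorem zz_pow (hζ : ζ ^ ℓ = 1) (a : ZMod ℓ) : zz k ζ a ^ ℓ = 1 := by
  unfold zz
  rw [← pow_mul, mul_comm, pow_mul, ← map_pow, hζ, map_one, one_pow]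

theorem zz_eq_map (a : ZMod ℓ) : zz k ζ a = algebraMap K k (ζ ^ a.val) := by
  unfold zz
  rw [map_pow]

theorem val_map_eq_one {W : ValuationSubring k} (hW : ∀ a : K, algebraMap K k a ∈ W) {a : K}
    (ha : a ≠ 0) : W.valuation (algebraMap K k a) = 1 := by
  have h1 := (W.valuation_le_one_iff _).2 (hW a)
  have h2 := (W.valuation_le_one_iff _).2 (hW a⁻¹)
  have h3 : W.valuation (algebraMap K k a) ≠ 0 := by
    rw [_root_.map_ne_zero, _root_.map_ne_zero]
    exact ha
  rw [map_inv₀, map_inv₀] at h2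
  refine le_antisymm h1 ?_
  by_contra hlt
  push Not at hlt
  have h4 : 1 < (W.valuation (algebraMap K k a))⁻¹ := (one_lt_inv₀ (zero_lt_iff.2 h3)).2 hlt
  exact absurd h2 (not_le.2 h4)

theorem val_zz [NeZero ℓ] (hζ : IsPrimitiveRoot ζ ℓ) {W : ValuationSubring k}
    (hW : ∀ a : K, algebraMap K k a ∈ W) (a : ZMod ℓ) : W.valuation (zz k ζ a) = 1 := by
  rw [zz_eq_map]
  exact val_map_eq_one hW (pow_ne_zero _ (hζ.ne_zero (NeZero.ne ℓ)))

theorem zz_sub [NeZero ℓ] (hζ : IsPrimitiveRoot ζ ℓ) {W : ValuationSubring k}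
    (hW : ∀ a : K, algebraMap K k a ∈ W) {a b : ZMod ℓ} (hab : a ≠ b) :
    W.valuation (zz k ζ a - zz k ζ b) = 1 := by
  rw [zz_eq_map, zz_eq_map, ← map_sub]
  refine val_map_eq_one hW (sub_ne_zero.2 fun h => hab ?_)
  exact ZMod.val_injective _ (hζ.pow_inj (ZMod.val_lt a) (ZMod.val_lt b) h)

theorem exists_zz_mul [NeZero ℓ] (hζ : IsPrimitiveRoot ζ ℓ) {y y' : k} (hy : y ≠ 0)
    (h : y' ^ ℓ = y ^ ℓ) : ∃ a : ZMod ℓ, y' = zz k ζ a * y := by
  have hζk : IsPrimitiveRoot (algebraMap K k ζ) ℓ := hζ.map_of_injective (algebraMap K k).injective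
  have h1 : (y' / y) ^ ℓ = 1 := by
    rw [div_pow, h, div_self (pow_ne_zero _ hy)]
  obtain ⟨i, hi, h2⟩ := hζk.eq_pow_of_pow_eq_one h1
  refine ⟨(i : ZMod ℓ), ?_⟩
  unfold zz
  rw [ZMod.val_natCast, Nat.mod_eq_of_lt hi, h2, div_mul_cancel₀ _ hy]

theorem exists_res [NeZero ℓ] (hζ : IsPrimitiveRoot ζ ℓ) {W : ValuationSubring k} {y : k}
    (h : W.valuation (y ^ ℓ - 1) < 1) : ∃ a : ZMod ℓ, W.valuation (y - zz k ζ a) < 1 := by
  classical
  have hζk : IsPrimitiveRoot (algebraMap K k ζ) ℓ := hζ.map_of_injective (algebraMap K k).injective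
  have h1 := Polynomial.X_pow_sub_one_eq_prod (Nat.pos_of_ne_zero (NeZero.ne ℓ)) hζk
  have h2 := congrArg (Polynomial.eval y) h1
  rw [Polynomial.eval_prod] at h2
  simp only [Polynomial.eval_sub, Polynomial.eval_pow, Polynomial.eval_X, Polynomial.eval_one,
    Polynomial.eval_C] at h2
  by_contra hcon
  push Not at hcon
  rw [h2, map_prod] at h
  refine absurd h (not_lt.2 ?_)
  refine Finset.prod_induction _ (fun x => 1 ≤ x) (fun a b ha hb => one_le_mul ha hb) le_rfl ?_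
  intro ξ hξ
  have h3 : ξ ^ ℓ = 1 := by
    rwa [Polynomial.mem_nthRootsFinset (Nat.pos_of_ne_zero (NeZero.ne ℓ))] at hξ
  obtain ⟨i, hi, h4⟩ := hζk.eq_pow_of_pow_eq_one h3
  have h5 := hcon (i : ZMod ℓ)
  unfold zz at h5
  rwa [ZMod.val_natCast, Nat.mod_eq_of_lt hi, h4] at h5

end root

section res

variable {K : Type v} {k : Type u} [Field K] [Field k] [Algebra K k] {ℓ : ℕ} {ζ : K}
  {ι : Type w} {V : ι → ValuationSubring k}

/-- `y` is congruent to the root of unity `ζ ^ (q i)` modulo the maximal ideal of `V i`. -/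
def Rt (V : ι → ValuationSubring k) (ζ : K) (y : k) (q : ι → ZMod ℓ) : Prop :=
  ∀ i, (V i).valuation (y - zz k ζ (q i)) < 1

theorem Rt.val [NeZero ℓ] (hζ : IsPrimitiveRoot ζ ℓ) (hV : ∀ i (a : K), algebraMap K k a ∈ V i)
    {y : k} {q : ι → ZMod ℓ} (h : Rt V ζ y q) (i : ι) : (V i).valuation y = 1 := by
  have h1 := h i
  have h2 := val_zz hζ (hV i) (q i)
  have h3 : (V i).valuation (y - zz k ζ (q i)) < (V i).valuation (zz k ζ (q i)) := by
    rwa [h2]
  have h4 := Valuation.map_add_eq_of_lt_left _ h3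
  rwa [add_sub_cancel, h2] at h4

theorem Rt.mul [NeZero ℓ] (hζ : IsPrimitiveRoot ζ ℓ) (hV : ∀ i (a : K), algebraMap K k a ∈ V i)
    {y y' : k} {q q' : ι → ZMod ℓ} (h : Rt V ζ y q) (h' : Rt V ζ y' q') :
    Rt V ζ (y * y') (q + q') := by
  intro i
  have h1 : y * y' - zz k ζ ((q + q') i) = y * (y' - zz k ζ (q' i)) +
      zz k ζ (q' i) * (y - zz k ζ (q i)) := by
    rw [Pi.add_apply, zz_add hζ.pow_eq_one]
    ring
  rw [h1]
  refine Valuation.map_add_lt _ ?_ ?_
  · rw [map_mul, h.val hζ hV, one_mul]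
    exact h' i
  · rw [map_mul, val_zz hζ (hV i), one_mul]
    exact h i

theorem Rt.const [NeZero ℓ] (a : ZMod ℓ) : Rt V ζ (zz k ζ a) (fun _ => a) := by
  intro i
  rw [sub_self, map_zero]
  exact zero_lt_one

theorem Rt.unique [NeZero ℓ] (hζ : IsPrimitiveRoot ζ ℓ)
    (hV : ∀ i (a : K), algebraMap K k a ∈ V i) {y : k} {q q' : ι → ZMod ℓ} (h : Rt V ζ y q)
    (h' : Rt V ζ y q') : q = q' := by
  funext i
  by_contra hne
  have h1 := zz_sub hζ (hV i) hne
  have h2 : zz k ζ (q i) - zz k ζ (q' i) = (y - zz k ζ (q' i)) - (y - zz k ζ (q i)) := by ring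
  have h3 : (V i).valuation (zz k ζ (q i) - zz k ζ (q' i)) < 1 := by
    rw [h2]
    exact (Valuation.map_sub _ _ _).trans_lt (max_lt (h' i) (h i))
  exact absurd h1 h3.ne

theorem Rt.exists [NeZero ℓ] (hζ : IsPrimitiveRoot ζ ℓ) {y : k}
    (h : ∀ i, (V i).valuation (y ^ ℓ - 1) < 1) : ∃ q : ι → ZMod ℓ, Rt V ζ y q := by
  choose q hq using fun i => exists_res hζ (h i)
  exact ⟨q, hq⟩

/-- The normalised residues of the roots of `u`. -/
def Nq (V : ι → ValuationSubring k) (ζ : K) (i₀ : ι) (u : k) (q : ι → ZMod ℓ) : Prop :=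
  q i₀ = 0 ∧ ∃ y, y ^ ℓ = u ∧ Rt V ζ y q

theorem Nq.unique [NeZero ℓ] (hζ : IsPrimitiveRoot ζ ℓ)
    (hV : ∀ i (a : K), algebraMap K k a ∈ V i) {i₀ : ι} {u : k} (hu : u ≠ 0)
    {q q' : ι → ZMod ℓ} (h : Nq V ζ i₀ u q) (h' : Nq V ζ i₀ u q') : q = q' := by
  obtain ⟨h0, y, hy, hq⟩ := h
  obtain ⟨h0', y', hy', hq'⟩ := h'
  have hy0 : y ≠ 0 := by
    rintro rfl
    rw [zero_pow (NeZero.ne ℓ)] at hy
    exact hu hy.symm
  obtain ⟨a, rfl⟩ := exists_zz_mul hζ hy0 (hy'.trans hy.symm)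
  have h1 := (Rt.const (V := V) (ζ := ζ) a).mul hζ hV hq
  have h2 := h1.unique hζ hV hq'
  have h3 : a = 0 := by
    have := congrFun h2 i₀
    rw [Pi.add_apply, h0, h0', add_zero] at this
    exact this
  rw [← h2, h3]
  funext i
  rw [Pi.add_apply, zero_add]

end res

theorem Semi.no_partition {K : Type v} {k : Type u} [Field K] [Infinite K] [Field k] [Algebra K k]
    [CompatibleRing k] (hk : NIP k) {ℓ : ℕ} (hℓ : ℓ.Prime) (hℓK : (ℓ : K) ≠ 0) {ζ : K}
    (hζ : IsPrimitiveRoot ζ ℓ) {D : LD K k ℓ} {ι : Type w} {V : ι → ValuationSubring k}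
    (hV : Semi D V) (S : Set ι) (hS : S.Nonempty) (hS' : Sᶜ.Nonempty)
    (hind : ∀ i ∈ S, ∀ j ∉ S, V i ⊔ V j = ⊤) : False := by
  classical
  have hfin := hV.fin
  have : NeZero ℓ := ⟨hℓ.ne_zero⟩
  have hfact : Fact ℓ.Prime := ⟨hℓ⟩
  obtain ⟨i₀⟩ := hV.non
  have hB : ∀ x, x ∈ LZ.BSetN V (fun _ => (1 : k)) ↔ x ∈ Inf K (Pw k ℓ) := by
    intro x
    rw [hV.inf]
    unfold LZ.BSetN
    simp only [mem_ofPred_eq, map_one]
  -- the character
  let c : k → (ι → Multiplicative (ZMod ℓ)) := fun u =>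
    if h : ∃ q : ι → ZMod ℓ, Nq V ζ i₀ u q then fun i => Multiplicative.ofAdd (h.choose i) else 1
  have hex : ∀ x ∈ Inf K (Pw k ℓ), ∃ q : ι → ZMod ℓ, Nq V ζ i₀ (1 + x) q := by
    intro x hx
    obtain ⟨y, hy0, hy⟩ := one_add_mem hx
    obtain ⟨q, hq⟩ := Rt.exists (V := V) hζ (y := y) (fun i => by
      rw [← hy, add_sub_cancel_left]
      exact (hV.inf x).1 hx i)
    refine ⟨(fun _ => - q i₀) + q, by simp, zz k ζ (- q i₀) * y, ?_, ?_⟩
    · rw [mul_pow, zz_pow hζ.pow_eq_one, one_mul, hy]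
    · exact (Rt.const _).mul hζ hV.alg hq
  have hcq : ∀ x ∈ Inf K (Pw k ℓ), ∀ q : ι → ZMod ℓ,
      c (1 + x) = (fun i => Multiplicative.ofAdd (q i)) ↔ Nq V ζ i₀ (1 + x) q := by
    intro x hx q
    have h := hex x hx
    have h1 : c (1 + x) = fun i => Multiplicative.ofAdd (h.choose i) := dif_pos h
    rw [h1]
    constructor
    · intro h2
      have h3 : h.choose = q := by
        funext i
        exact Multiplicative.ofAdd.injective (congrFun h2 i)
      rw [← h3]
      exact h.choose_spec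
    · intro h2
      rw [h.choose_spec.unique hζ hV.alg (one_add_ne hx) h2]
  have hc : ∀ x ∈ LZ.BSetN V (fun _ => (1 : k)), ∀ y ∈ LZ.BSetN V (fun _ => (1 : k)),
      c ((1 + x) * (1 + y)) = c (1 + x) * c (1 + y) := by
    intro x hx y hy
    rw [hB] at hx hy
    obtain ⟨q, hq⟩ := hex x hx
    obtain ⟨q', hq'⟩ := hex y hy
    have h1 : (1 + x) * (1 + y) = 1 + (x + y + x * y) := by ring
    have h2 : x + y + x * y ∈ Inf K (Pw k ℓ) := D.add_mem (D.add_mem hx hy) (D.mul_mem hx hy)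
    have h3 : c (1 + (x + y + x * y)) = fun i => Multiplicative.ofAdd ((q + q') i) := by
      rw [hcq _ h2]
      obtain ⟨h0, z, hz, hzq⟩ := hq
      obtain ⟨h0', z', hz', hzq'⟩ := hq'
      refine ⟨by rw [Pi.add_apply, h0, h0', add_zero], z * z', ?_, hzq.mul hζ hV.alg hzq'⟩
      rw [mul_pow, hz, hz', h1]
    rw [h1, h3, (hcq x hx q).2 hq, (hcq y hy q').2 hq']
    funext i
    rfl
  -- the VC condition
  obtain ⟨F, hF⟩ := D.exists_UGood
  have hVC : ∀ q : ι → Multiplicative (ZMod ℓ), ∃ d : ℕ, ∀ f : Fin d → k,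
      ∃ J : Finset (Fin d), ∀ x : k, (∀ i, f i * x ∈ LZ.BSetN V (fun _ => (1 : k))) →
        ∃ i, ¬ (c (1 + f i * x) = q ↔ i ∈ J) := by
    intro q
    obtain ⟨q, rfl⟩ : ∃ q' : ι → ZMod ℓ, q = fun i => Multiplicative.ofAdd (q' i) :=
      ⟨fun i => Multiplicative.toAdd (q i), rfl⟩
    by_cases hq0 : q i₀ = 0
    · -- the element with the residues `q`
      obtain ⟨η, -, hη⟩ := hV.crt (fun i => zz k ζ (q i)) (fun i => by
        simp only [zz_eq_map]
        exact D.algebraMap_mem_O _)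
      have hηJ : ∀ y : k, Rt V ζ y q ↔ y - η ∈ Inf K (Pw k ℓ) := by
        intro y
        rw [hV.inf]
        refine forall_congr' fun i => ?_
        have h1 : y - zz k ζ (q i) = (y - η) + (η - zz k ζ (q i)) := by ring
        have h2 : y - η = (y - zz k ζ (q i)) - (η - zz k ζ (q i)) := by ring
        constructor
        · intro h
          rw [h2]
          exact (Valuation.map_sub _ _ _).trans_lt (max_lt h (hη i))
        · intro h
          rw [h1]
          exact Valuation.map_add_lt _ h (hη i)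
      have e1 : (univ : Set k).Definable Language.ring
          {v : (Fin 1 ⊕ Fin 2) ⊕ Fin 1 → k | v (Sum.inr 0) ^ ℓ =
            1 + v (Sum.inl (Sum.inl 0)) * v (Sum.inl (Sum.inr 0))} :=
        Set.DefinableFun.ofPred_eq (dfun_pow (dfun_var _) ℓ)
          (dfun_add dfun_one (dfun_mul (dfun_var _) (dfun_var _)))
      have e2 : (univ : Set k).Definable Language.ring
          {v : (Fin 1 ⊕ Fin 2) ⊕ Fin 1 → k |
            (v (Sum.inr 0) - η) * v (Sum.inl (Sum.inr 1)) ∈ US K ℓ k F} :=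
        def_mem (def_US ℓ F) (dfun_mul (dfun_sub (dfun_var _) (dfun_const (mem_univ _)))
          (dfun_var _))
      have hR := (e1.inter e2).exists_of_finite
      obtain ⟨A, hA, hAR⟩ := definable_iff_finitely_definable.1 hR
      obtain ⟨n, hn⟩ := hk.definable (A : Set k) A.finite_toSet _ hAR
      refine ⟨n, fun f => ?_⟩
      by_contra hcon
      push Not at hcon
      choose x hx1 hx2 using hcon
      have hxJ : ∀ J i, f i * x J ∈ Inf K (Pw k ℓ) := fun J i => (hB _).1 (hx1 J i)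
      choose r hr0 hr using fun J i => one_add_mem (hxJ J i)
      obtain ⟨a, ha, haZ⟩ := hF.exists_scale D
        ((Finset.univ : Finset (Finset (Fin n) × Fin n × ZMod ℓ)).image
          fun p => zz k ζ p.2.2 * r p.1 p.2.1 - η)
      obtain ⟨i, J, hiJ⟩ := hn (fun i _ => f i) (fun J => ![x J, (algebraMap K k a)⁻¹])
      apply hiJ
      rw [← hx2 J i, hcq _ (hxJ J i)]
      have key : ∀ y : k, y ^ ℓ = 1 + f i * x J →
          ((y - η) * (algebraMap K k a)⁻¹ ∈ US K ℓ k F ↔ Rt V ζ y q) := by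
        intro y hy
        rw [hηJ, ← div_eq_mul_inv]
        obtain ⟨b, rfl⟩ := exists_zz_mul hζ (hr0 J i) (hy.trans (hr J i))
        exact (haZ _ (Finset.mem_image.2 ⟨(J, i, b), Finset.mem_univ _, rfl⟩)).symm
      constructor
      · rintro ⟨y, hy1, hy2⟩
        simp only [mem_ofPred_eq, Sum.elim_inr, Sum.elim_inl, Matrix.cons_val_zero,
          Matrix.cons_val_one] at hy1 hy2
        exact ⟨hq0, y 0, hy1, (key _ hy1).1 hy2⟩
      · rintro ⟨-, y, hy1, hy2⟩
        refine ⟨fun _ => y, ?_, ?_⟩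
        · simp only [mem_ofPred_eq, Sum.elim_inr, Sum.elim_inl, Matrix.cons_val_zero]
          exact hy1
        · simp only [mem_ofPred_eq, Sum.elim_inr, Sum.elim_inl, Matrix.cons_val_one]
          exact (key _ hy1).2 hy2
    · refine ⟨1, fun f => ⟨{0}, fun x hx => ⟨0, fun h => ?_⟩⟩⟩
      have h1 := h.2 (Finset.mem_singleton_self _)
      rw [hcq _ ((hB _).1 (hx 0))] at h1
      exact hq0 h1.1
  -- the polynomial
  have hζ1 : (algebraMap K k ζ) ^ ℓ = 1 := by rw [← map_pow, hζ.pow_eq_one, map_one]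
  obtain ⟨g, hg⟩ : ∃ g : Polynomial k, (1 + (Polynomial.C (algebraMap K k ζ - 1)) *
      Polynomial.X) ^ ℓ = 1 + Polynomial.X * (1 - Polynomial.X) * g := by
    have hX : (Polynomial.X : Polynomial k) ∣
        (1 + (Polynomial.C (algebraMap K k ζ - 1)) * Polynomial.X) ^ ℓ - 1 := by
      rw [Polynomial.X_dvd_iff]
      simp [Polynomial.coeff_zero_eq_eval_zero]
    have hX1 : (Polynomial.X - Polynomial.C 1 : Polynomial k) ∣
        (1 + (Polynomial.C (algebraMap K k ζ - 1)) * Polynomial.X) ^ ℓ - 1 := by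
      rw [Polynomial.dvd_iff_isRoot]
      simp [Polynomial.IsRoot, hζ1]
    have hcop : IsCoprime (Polynomial.X : Polynomial k) (Polynomial.X - Polynomial.C 1) :=
      ⟨1, -1, by simp⟩
    obtain ⟨g, hg⟩ := hcop.mul_dvd hX hX1
    refine ⟨-g, ?_⟩
    rw [Polynomial.C_1] at hg
    linear_combination hg
  obtain ⟨e, he1, he2, he3, he4⟩ := LZ.local_characterN (Q := ι → Multiplicative (ZMod ℓ))
    hV.ne S hS hS' hind hV.small (β := fun _ => (1 : k)) (fun _ => one_ne_zero)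
    (fun i => by rw [map_one]) hc hVC (b := 1) one_ne_zero g
  have hge : (1 + (algebraMap K k ζ - 1) * e) ^ ℓ = 1 + e * (1 - e) * g.eval e := by
    have h2 := congrArg (Polynomial.eval e) hg
    simpa using h2
  have hx := (hB _).1 he3
  have h1 : c (1 + e * (1 - e) * g.eval e) =
      fun i => Multiplicative.ofAdd ((fun _ => (0 : ZMod ℓ)) i) := by
    rw [he4]
    funext i
    rfl
  rw [hcq _ hx] at h1
  obtain ⟨-, y, hy, hyq⟩ := h1
  -- the residues of the root
  let q : ι → ZMod ℓ := fun i => if i ∈ S then 1 else 0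
  have hval1 : ((1 : ZMod ℓ)).val = 1 := by
    have := hℓ.one_lt
    exact ZMod.val_one'' (by omega)
  have hq : Rt V ζ (1 + (algebraMap K k ζ - 1) * e) q := by
    intro i
    have hle : (V i).valuation (algebraMap K k ζ - 1) ≤ 1 := by
      rw [ValuationSubring.valuation_le_one_iff]
      exact sub_mem (hV.alg i ζ) (one_mem _)
    by_cases hi : i ∈ S
    · have h1 : 1 + (algebraMap K k ζ - 1) * e - zz k ζ (q i) =
          (algebraMap K k ζ - 1) * (e - 1) := by
        have : zz k ζ (q i) = algebraMap K k ζ := by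
          unfold zz
          simp only [q, if_pos hi, hval1, pow_one]
        rw [this]
        ring
      rw [h1, map_mul]
      have h2 := he1 i hi
      rw [map_one] at h2
      exact mul_lt_of_le_one_of_lt hle h2
    · have h1 : 1 + (algebraMap K k ζ - 1) * e - zz k ζ (q i) =
          (algebraMap K k ζ - 1) * e := by
        have : zz k ζ (q i) = (1 : k) := by
          simp only [q, if_neg hi]
          exact zz_zero
        rw [this]
        ring
      rw [h1, map_mul]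
      have h2 := he2 i hi
      rw [map_one] at h2
      exact mul_lt_of_le_one_of_lt hle h2
  have hy0 : y ≠ 0 := by
    rintro rfl
    rw [zero_pow hℓ.ne_zero] at hy
    exact one_add_ne hx hy.symm
  obtain ⟨a, ha⟩ := exists_zz_mul hζ hy0 (hge.trans hy.symm)
  have h2 := (Rt.const (V := V) (ζ := ζ) a).mul hζ hV.alg hyq
  rw [← ha] at h2
  have h3 := h2.unique hζ hV.alg hq
  obtain ⟨i, hi⟩ := hS
  obtain ⟨j, hj⟩ := hS'
  have h4 := congrFun h3 i
  have h5 := congrFun h3 j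
  simp only [Pi.add_apply, add_zero, q, if_pos hi] at h4
  simp only [Pi.add_apply, add_zero, q, if_neg hj] at h5
  rw [h5] at h4
  exact zero_ne_one h4

end Pool.Agent.NIPFields.LG
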