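import Mathlib
import Pool.Agent.NIPFields.LZ.Dep
import Pool.Agent.NIPFields.LZ.NoPart

set_option autoImplicit false

/-!
# The ring of bounded elements is a valuation ring
-/

namespace Pool.Agent.NIPFields.LG

open FirstOrder FirstOrder.Language FirstOrder.Ring Set Filter
open Pool.Agent.NIPFields.FI

universe u v w

attribute [local instance] germAlg

/-- The valuation ring of bounded elements, if Lemma J cannot be applied. -/
theorem exists_val_of_noJ {K : Type u} [Field K] [Infinite K] [CompatibleRing K] (hK : NIP K)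
    {ℓ : ℕ} (hℓ : ℓ.Prime) (hℓK : (ℓ : K) ≠ 0) {ζ : K} (hζ : IsPrimitiveRoot ζ ℓ)
    (D : LD K (Germ (UF K : Filter (Finset K)) K) ℓ) (hNJ : NoJ D) :
    ∃ V : ValuationSubring (Germ (UF K : Filter (Finset K)) K), V ≠ ⊤ ∧
      (∀ a : K, algebraMap K (Germ (UF K : Filter (Finset K)) K) a ∈ V) ∧
      ∀ x, V.valuation x < 1 ↔ x ∈ Inf K (Pw (Germ (UF K : Filter (Finset K)) K) ℓ) := by
  let E := Germ (UF K : Filter (Finset K)) K
  let _ : CompatibleRing E := germCompat (UF K) K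
  have hE : NIP E := NIP.germ hK
  obtain ⟨ι, V, hV⟩ := D.exists_semi_of_noJ hE hℓK hNJ
  have _ : Finite ι := hV.fin
  have _ : Nonempty ι := hV.non
  by_cases hsub : Subsingleton ι
  · obtain ⟨i⟩ := hV.non
    refine ⟨V i, hV.ne i, hV.alg i, fun x => ?_⟩
    rw [hV.inf x]
    exact ⟨fun h j => by rw [Subsingleton.elim j i]; exact h, fun h => h i⟩
  · exfalso
    rw [not_subsingleton_iff_nontrivial] at hsub
    obtain ⟨i, j, hij⟩ := hsub.exists_pair_ne
    obtain ⟨S, hS, hS', hind⟩ := exists_partition V hV.ne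
      (fun W hW hVW => hV.not_all_le hℓ hℓK hζ W hW hVW hij)
    exact hV.no_partition hE hℓ hℓK hζ S hS hS' hind

/-- The structure of infinitesimals. -/
theorem exists_LD {K : Type u} [Field K] [CompatibleRing K] (hK : NIP K)
    {ℓ : ℕ} (hℓ : ℓ.Prime) (hTL : TL K ℓ) (hnp : ∃ a : K, ∀ y, a ≠ y ^ ℓ) :
    LD K (Germ (UF K : Filter (Finset K)) K) ℓ :=
  ld_germ hK hℓ.ne_zero hTL (by
    obtain ⟨a, ha⟩ := hnp
    refine ⟨a, ?_, ?_⟩
    · rintro rfl
      exact ha 0 (zero_pow hℓ.ne_zero).symm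
    · rintro ⟨b, _, hb⟩
      exact ha b hb)

theorem exists_val_of_TL {K : Type u} [Field K] [Infinite K] [CompatibleRing K] (hK : NIP K)
    {ℓ : ℕ} (hℓ : ℓ.Prime) (hℓK : (ℓ : K) ≠ 0) {ζ : K} (hζ : IsPrimitiveRoot ζ ℓ)
    (hTL : ∀ (F : Type u) [Field F] [CompatibleRing F] (_ : K →+* F), NIP F → TL F ℓ)
    (hnp : ∃ a : K, ∀ y, a ≠ y ^ ℓ) :
    ∃ (_ : LD K (Germ (UF K : Filter (Finset K)) K) ℓ)
      (V : ValuationSubring (Germ (UF K : Filter (Finset K)) K)), V ≠ ⊤ ∧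
      (∀ a : K, algebraMap K (Germ (UF K : Filter (Finset K)) K) a ∈ V) ∧
      ∀ x, V.valuation x < 1 ↔ x ∈ Inf K (Pw (Germ (UF K : Filter (Finset K)) K) ℓ) := by
  let _ : CompatibleRing (Germ (UF K : Filter (Finset K)) K) := germCompat (UF K) K
  have hE : NIP (Germ (UF K : Filter (Finset K)) K) := NIP.germ hK
  have D := exists_LD hK hℓ (hTL K (RingHom.id K) hK) hnp
  obtain ⟨V, h⟩ := exists_val_of_noJ hK hℓ hℓK hζ D (noJ_of_TL hE D hTL)
  exact ⟨D, V, h⟩

end Pool.Agent.NIPFields.LG
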