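import Mathlib
import Pool.Agent.NIPFields.LI.LatInf

set_option autoImplicit false

/-!
# The lattice lemma for `ℓ`-th powers of infinite index
-/

namespace Pool.Agent.NIPFields.LZ

universe u

variable {F : Type u} [Field F] {ℓ : ℕ} {B : ValuationSubring F}

/-- Replacement of `LC.lattice` for the group of `ℓ`-th powers. -/
theorem lattice_pow (hℓ : ℓ.Prime) (hζ : (ℓ : F) ≠ 0 → ∃ ζ : F, IsPrimitiveRoot ζ ℓ) {d : F}
    (hd : d ≠ 0) (hdT : ∀ x ∈ B, ∃ y, 1 + d * x = y ^ ℓ)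
    (hnil : ∀ m, B.valuation m < 1 → ∀ u, u ≠ 0 → ∃ n : ℕ, B.valuation (m ^ n) ≤ B.valuation u)
    (hVC : ∃ n : ℕ, ∀ b : Fin n → F, ∃ J : Finset (Fin n), ∀ x : F,
      (∀ i, B.valuation (b i * x) < 1) → ∃ i, ¬ ((∃ y, 1 + b i * x = y ^ ℓ) ↔ i ∈ J)) :
    (∀ m, B.valuation m < 1 → ∃ y, 1 + m = y ^ ℓ) ∨
      ∃ π, B.valuation π < 1 ∧ ∀ m, B.valuation m < 1 → B.valuation m ≤ B.valuation π := by
  by_cases h0 : (ℓ : F) = 0
  · left
    have := Fact.mk hℓ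
    have hch : CharP F ℓ := by
      obtain ⟨q, hq⟩ := CharP.exists F
      have h2 : q ∣ ℓ := (CharP.cast_eq_zero_iff F q ℓ).1 h0
      rcases (Nat.dvd_prime hℓ).1 h2 with h | h
      · exact absurd h (CharP.char_ne_one F q)
      · exact h ▸ hq
    have hdx : ∀ x ∈ B, ∃ y, d * x = y ^ ℓ := by
      intro x hx
      obtain ⟨y, hy⟩ := hdT x hx
      exact ⟨y - 1, by rw [sub_pow_char, one_pow, ← hy]; ring⟩
    intro m hm
    obtain ⟨y, hy⟩ := hdx (1 + m) (B.add_mem _ _ B.one_mem ((B.valuation_le_one_iff m).1 hm.le))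
    obtain ⟨z, hz⟩ := hdx 1 B.one_mem
    refine ⟨y / z, ?_⟩
    rw [div_pow, ← hy, ← hz]
    field_simp
  · obtain ⟨ζ, hζ⟩ := hζ h0
    exact LI.lattice_inf hℓ hζ hd hdT hnil hVC

end Pool.Agent.NIPFields.LZ
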