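import Mathlib
import Pool.Agent.NIPFields.LZ.LatticePow
import Pool.Agent.NIPFields.LC.DV

set_option autoImplicit false

/-!
# Definable valuation rings from compatible valuation rings, for groups of `ℓ`-th powers
-/

namespace Pool.Agent.NIPFields.LZ

open FirstOrder FirstOrder.Language FirstOrder.Ring Set IsLocalRing
open Pool.Agent.NIPFields.LC

universe u

theorem def_pow {K : Type u} [Field K] [CompatibleRing K] (ℓ : ℕ) :
    (univ : Set K).Definable₁ Language.ring {x : K | ∃ y, x = y ^ ℓ} := by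
  have h1 : (univ : Set K).Definable Language.ring {w : Fin 1 ⊕ Fin 1 → K |
      w (Sum.inl 0) = w (Sum.inr 0) ^ ℓ} :=
    Set.DefinableFun.ofPred_eq (dfun_var _) (dfun_pow (dfun_var _) _)
  have h2 := h1.exists_of_finite
  have h3 : {x : Fin 1 → K | x 0 ∈ {x : K | ∃ y, x = y ^ ℓ}} = {x | ∃ u : Fin 1 → K,
      Sum.elim x u ∈ {w : Fin 1 ⊕ Fin 1 → K | w (Sum.inl 0) = w (Sum.inr 0) ^ ℓ}} := by
    ext x
    constructor
    · rintro ⟨y, hy⟩
      exact ⟨fun _ => y, hy⟩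
    · rintro ⟨u, hu⟩
      exact ⟨u 0, hu⟩
  change (univ : Set K).Definable Language.ring {x : Fin 1 → K | x 0 ∈ {x : K | ∃ y, x = y ^ ℓ}}
  rw [h3]
  exact h2

theorem exists_definable_of_compat_pow {K : Type u} [Field K] [CompatibleRing K] (hK : NIP K)
    {ℓ : ℕ} (hℓ : ℓ.Prime) (hζ : ∃ ζ : K, IsPrimitiveRoot ζ ℓ) (hi : ∃ i : K, i ^ 2 = -1)
    (hnp : ∃ a : K, ∀ y, a ≠ y ^ ℓ)
    (hcomp : ∃ O : ValuationSubring K, O ≠ ⊤ ∧ ∀ m, O.valuation m < 1 → ∃ y, 1 + m = y ^ ℓ) :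
    ∃ O' : ValuationSubring K, O' ≠ ⊤ ∧
      (univ : Set K).Definable₁ Language.ring {x | x ∈ O'} := by
  obtain ⟨T, hTeq⟩ : ∃ T : Set K, T = {x : K | ∃ y, x = y ^ ℓ} := ⟨_, rfl⟩
  have hTmem : ∀ x, x ∈ T ↔ ∃ y, x = y ^ ℓ := fun x => by rw [hTeq]; rfl
  have hT : PowGrp ℓ T := by
    refine ⟨fun y => (hTmem _).2 ⟨y, rfl⟩, ?_, ?_⟩
    · intro x hx y hy
      obtain ⟨z, rfl⟩ := (hTmem _).1 hx
      obtain ⟨w, rfl⟩ := (hTmem _).1 hy
      exact (hTmem _).2 ⟨z * w, (mul_pow _ _ _).symm⟩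
    · intro x hx
      obtain ⟨z, rfl⟩ := (hTmem _).1 hx
      exact (hTmem _).2 ⟨z⁻¹, (inv_pow _ _).symm⟩
  have hT0 : (0 : K) ∈ T := (hTmem _).2 ⟨0, (zero_pow hℓ.ne_zero).symm⟩
  have hTdef : (univ : Set K).Definable₁ Language.ring T := by rw [hTeq]; exact def_pow ℓ
  have hnp : ∃ a : K, a ∉ T := by
    obtain ⟨a, ha⟩ := hnp
    refine ⟨a, fun h => ?_⟩
    obtain ⟨y, hy⟩ := (hTmem _).1 h
    exact ha y hy
  have hcomp : ∃ O : ValuationSubring K, CompatT T O := by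
    obtain ⟨O, hO, hO'⟩ := hcomp
    exact ⟨O, hO, fun m hm => (hTmem _).2 (hO' m hm)⟩
  have hℓ2 : 2 ≤ ℓ := hℓ.two_le
  by_cases hX : ∃ O : ValuationSubring K, CompatT T O ∧ ∀ u, O.valuation u = 1 → u ∈ T
  · obtain ⟨O, hO, hu⟩ := hX
    obtain ⟨π, hπ⟩ := hnp
    have hπ0 : π ≠ 0 := by rintro rfl; exact hπ hT0
    obtain ⟨O', hO'1, hO'2, hO'3⟩ := caseXT hT hTdef hℓ2 hO hπ0 (by
      intro t ht hπt
      have hvπ : O.valuation π ≠ 0 := (map_ne_zero _).2 hπ0
      have ht0 : t ≠ 0 := by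
        rintro rfl
        rw [map_zero] at hπt
        exact hvπ hπt
      have h1 := hu (π / t) (by rw [map_div₀, hπt, div_self]; rwa [← hπt])
      apply hπ
      rw [← div_mul_cancel₀ π ht0]
      exact hT.mul _ h1 _ ht)
    exact ⟨O', hO'2, hO'3⟩
  push Not at hX
  obtain ⟨O₁, hO₁⟩ := hcomp
  rcases caseYT_gen hT hTdef hO₁ hnp hT0 hX with ⟨O', h1, h2⟩ |
    ⟨O₀, a, c', hcO, hle, ha1, ha2, hDO, hVE⟩
  · exact ⟨O', h1.1, h2⟩
  set E : Set (ResidueField O₀) :=
    {e | ∃ x : O₀, (x : K) ∈ DYT T (a : K) ∧ residue O₀ x = e} with hE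
  have hTr : PowGrp ℓ (resT T O₀) := powGrp_resT hT
  have hau : IsUnit a := (O₀.valuation_eq_one_iff _).2 ha1
  have hra : residue O₀ a ≠ 0 := by
    intro h
    rw [residue_eq_zero_iff, mem_maximalIdeal, mem_nonunits_iff] at h
    exact h hau
  have hraT : residue O₀ a ∉ resT T O₀ := fun h => ha2 (lift_T hT hcO a hra h)
  have h1E : ∀ z ∈ E, 1 + 1 * z ∈ resT T O₀ := by
    rintro _ ⟨x, hx, rfl⟩
    refine ⟨1 + x, by simpa using hx.1, ?_⟩
    rw [one_mul, map_add, map_one]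
  -- no compatible ring on the residue field
  have hno : ∀ B : ValuationSubring (ResidueField O₀), B ≠ ⊤ →
      ¬ ∀ m, B.valuation m < 1 → 1 + m ∈ resT T O₀ := by
    intro B hB hBT
    apply hB
    rw [eq_top_iff]
    intro e _
    obtain ⟨x, rfl⟩ := residue_surjective e
    have h7 : (x : K) ∈ compRing O₀ B := hle _ (compatT_compRing hT hcO hBT) x.2
    obtain ⟨_, h8⟩ := h7
    exact h8
  by_cases hZ : ∀ s : ResidueField O₀, s ≠ 0 → ∃ n : ℕ, ¬ LL E (n : ResidueField O₀) s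
  · exfalso
    obtain ⟨i, hi⟩ := hi
    have hiv : O₀.valuation i = 1 := by
      have h2 : O₀.valuation i ^ 2 = 1 := by
        rw [← map_pow, hi, Valuation.map_neg, map_one]
      exact (pow_eq_one_iff_of_nonneg zero_le two_ne_zero).1 h2
    have hiO : i ∈ O₀ := (O₀.valuation_le_one_iff _).1 hiv.le
    have hri : (residue O₀ ⟨i, hiO⟩) ^ 2 = -1 := by
      rw [← map_pow, ← map_one (residue O₀), ← map_neg]
      congr 1
      exact Subtype.ext hi
    exact hraT (hVE.mem_of_unbounded hri hZ hTr one_ne_zero h1E _ hra)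
  push Not at hZ
  by_cases hPB : ∀ x, PB E x
  · exfalso
    obtain ⟨B, hB1, hB2⟩ := hVE.case2T hTr one_ne_zero h1E hPB
    exact hno B hB1 hB2
  push Not at hPB
  obtain ⟨B, hB1, ⟨d₁, hd₁0, hd₁⟩, ⟨d₂, hd₂0, hd₂⟩, hrk⟩ := hVE.exists_rank_one hZ hPB
  -- the residue field
  have hmemF : ∀ z : ResidueField O₀, z ∈ resT T O₀ ↔ ∃ y, z = y ^ ℓ := by
    intro z
    constructor
    · rintro ⟨x, hxT, rfl⟩
      obtain ⟨y, hy⟩ := (hTmem _).1 hxT
      have hyv : O₀.valuation y ≤ 1 := by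
        have h1 : O₀.valuation y ^ ℓ ≤ 1 := by
          rw [← map_pow, ← hy]
          exact O₀.valuation_le_one x
        exact (pow_le_one_iff hℓ.ne_zero).1 h1
      refine ⟨residue O₀ ⟨y, (O₀.valuation_le_one_iff y).1 hyv⟩, ?_⟩
      rw [← map_pow]
      congr 1
      exact Subtype.ext hy
    · rintro ⟨y, rfl⟩
      obtain ⟨y, rfl⟩ := residue_surjective y
      exact ⟨y ^ ℓ, (hTmem _).2 ⟨(y : K), by push_cast; rfl⟩, by rw [map_pow]⟩
  have hζF : (ℓ : ResidueField O₀) ≠ 0 → ∃ ζ : ResidueField O₀, IsPrimitiveRoot ζ ℓ := by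
    intro hne
    obtain ⟨ζ, hζ⟩ := hζ
    have hζv : O₀.valuation ζ = 1 := by
      have h1 : O₀.valuation ζ ^ ℓ = 1 := by rw [← map_pow, hζ.pow_eq_one, map_one]
      exact (pow_eq_one_iff_of_nonneg zero_le hℓ.ne_zero).1 h1
    set ζ' : O₀ := ⟨ζ, (O₀.valuation_le_one_iff ζ).1 hζv.le⟩ with hζ'
    refine ⟨residue O₀ ζ', ?_⟩
    have := Fact.mk hℓ
    have h1 : residue O₀ ζ' ^ ℓ = 1 := by
      rw [← map_pow, ← map_one (residue O₀)]
      congr 1
      exact Subtype.ext hζ.pow_eq_one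
    have h2 : residue O₀ ζ' ≠ 1 := by
      intro h2
      apply hne
      have h3 : LI.θ ζ' ℓ = 0 := by
        apply Subtype.ext
        rw [LI.coe_θ]
        have h4 := LI.θ_mul ζ ℓ
        rw [hζ.pow_eq_one, sub_self] at h4
        exact (mul_eq_zero.1 h4).resolve_right (sub_ne_zero.2 (hζ.ne_one hℓ.one_lt))
      rw [← LI.residue_θ h2 ℓ, h3, map_zero]
    rw [← orderOf_eq_prime h1 h2]
    exact IsPrimitiveRoot.orderOf _
  rcases lattice_pow hℓ hζF hd₂0 (fun x hx => by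
      have := h1E _ (hd₂ x hx)
      rw [one_mul] at this
      exact (hmemF _).1 this) hrk (by
      obtain ⟨n, hn⟩ := exists_vc hK hT hTdef hcO B
      refine ⟨n, fun b => ?_⟩
      obtain ⟨J, hJ⟩ := hn b
      refine ⟨J, fun x hx => ?_⟩
      obtain ⟨i, hi⟩ := hJ x hx
      exact ⟨i, fun h => hi ((hmemF _).trans h)⟩) with h | ⟨π, hπ1, hπ⟩
  · exact absurd (fun m hm => (hmemF _).2 (h m hm)) (hno B hB1)
  -- the valuation ring `B` is discrete
  have hπ0 : π ≠ 0 := by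
    rintro rfl
    apply hB1
    rw [eq_top_iff]
    intro x _
    by_contra hx
    have hx0 : x ≠ 0 := by rintro rfl; exact hx B.zero_mem
    have h1 : B.valuation x⁻¹ < 1 := val_lt_one_of_inv_notMem (by rwa [inv_inv])
    have h2 := hπ _ h1
    rw [map_zero] at h2
    exact (map_ne_zero B.valuation).2 (inv_ne_zero hx0) (le_antisymm h2 zero_le)
  have hvπ : B.valuation π ≠ 0 := (map_ne_zero _).2 hπ0
  have hanti : ∀ {i j : ℕ}, i ≤ j → B.valuation (π ^ j) ≤ B.valuation (π ^ i) := by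
    intro i j hij
    rw [map_pow, map_pow]
    exact pow_le_pow_of_le_one zero_le hπ1.le hij
  obtain ⟨n₁, hn₁⟩ := hrk π hπ1 d₂ hd₂0
  obtain ⟨n₂, hn₂⟩ := hrk π hπ1 π hπ0
  obtain ⟨n₃, hn₃⟩ := hrk π hπ1 (d₂ / residue O₀ a) (div_ne_zero hd₂0 hra)
  obtain ⟨n₄, hn₄⟩ := hrk π hπ1 (π / residue O₀ a) (div_ne_zero hπ0 hra)
  set n := max (max n₁ n₂) (max n₃ n₄) with hn
  set w := π ^ n with hw
  have hw0 : w ≠ 0 := pow_ne_zero _ hπ0
  have w1 : B.valuation w ≤ B.valuation d₂ := (hanti (by omega)).trans hn₁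
  have w2 : B.valuation w ≤ B.valuation π := (hanti (by omega)).trans hn₂
  have w3 : B.valuation w ≤ B.valuation (d₂ / residue O₀ a) := (hanti (by omega)).trans hn₃
  have w4 : B.valuation w ≤ B.valuation (π / residue O₀ a) := (hanti (by omega)).trans hn₄
  have hvra : B.valuation (residue O₀ a) ≠ 0 := (map_ne_zero _).2 hra
  have w5 : B.valuation (residue O₀ a * w) ≤ B.valuation d₂ := by
    rw [map_mul]
    calc B.valuation (residue O₀ a) * B.valuation w
        ≤ B.valuation (residue O₀ a) * B.valuation (d₂ / residue O₀ a) := by gcongr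
      _ = B.valuation d₂ := by rw [← map_mul, mul_div_cancel₀ _ hra]
  have w6 : B.valuation (residue O₀ a * w) < 1 := by
    refine lt_of_le_of_lt ?_ hπ1
    rw [map_mul]
    calc B.valuation (residue O₀ a) * B.valuation w
        ≤ B.valuation (residue O₀ a) * B.valuation (π / residue O₀ a) := by gcongr
      _ = B.valuation π := by rw [← map_mul, mul_div_cancel₀ _ hra]
  have w7 : B.valuation w < 1 := lt_of_le_of_lt w2 hπ1
  obtain ⟨N', hN'⟩ := hrk π hπ1 (d₁ * w * π) (mul_ne_zero (mul_ne_zero hd₁0 hw0) hπ0)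
  obtain ⟨g, hg⟩ := residue_surjective (R := O₀) w
  have hgu : IsUnit g := isUnit_of_residue_ne (by rw [hg]; exact hw0)
  have hgv : O₀.valuation (g : K) = 1 := (O₀.valuation_eq_one_iff g).1 hgu
  -- elements of `d₂ B` with small residue
  have hin : ∀ y : O₀, B.valuation (residue O₀ y) ≤ B.valuation d₂ →
      B.valuation (residue O₀ y) < 1 → 1 + (y : K) ∈ T := by
    intro y hy1 hy2
    have h1 : residue O₀ (1 + y) ≠ 0 := by
      rw [map_add, map_one]
      intro h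
      have := Valuation.map_one_add_of_lt B.valuation hy2
      rw [h, map_zero] at this
      exact zero_ne_one this
    have h2 : residue O₀ y / d₂ ∈ B := by
      rw [← B.valuation_le_one_iff, map_div₀]
      exact div_le_one_of_le₀ hy1 zero_le
    have h3 := h1E _ (hd₂ _ h2)
    rw [one_mul, mul_div_cancel₀ _ hd₂0] at h3
    have h4 := lift_T hT hcO (1 + y) h1 (by rw [map_add, map_one]; exact h3)
    simpa using h4
  refine ⟨compRing O₀ B, compRing_ne_top hcO.1 B, ?_⟩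
  have hdef : (univ : Set K).Definable₁ Language.ring {x : K | x ^ (N' + 1) * g ∈ DYT T (a : K)} :=
    def_mem (def_DYT hTdef (a : K)) (dfun_mul (dfun_pow (dfun_var 0) _) (dfun_const (mem_univ _)))
  convert hdef using 1
  ext x
  constructor
  · intro hx
    obtain ⟨hxO, hxB⟩ := mem_compRing.1 hx
    have hvx : B.valuation (residue O₀ ⟨x, hxO⟩) ≤ 1 := (B.valuation_le_one_iff _).2 hxB
    have hvx' : B.valuation (residue O₀ ⟨x, hxO⟩) ^ (N' + 1) ≤ 1 := pow_le_one₀ zero_le hvx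
    have hy : B.valuation (residue O₀ ((⟨x, hxO⟩ : O₀) ^ (N' + 1) * g)) ≤ B.valuation w := by
      rw [map_mul, map_mul, map_pow, map_pow, hg]
      calc B.valuation (residue O₀ ⟨x, hxO⟩) ^ (N' + 1) * B.valuation w
          ≤ 1 * B.valuation w := by gcongr
        _ = B.valuation w := one_mul _
    refine ⟨?_, ?_⟩
    · have := hin ((⟨x, hxO⟩ : O₀) ^ (N' + 1) * g) (hy.trans w1) (lt_of_le_of_lt hy w7)
      simpa using this
    · have hy' : B.valuation (residue O₀ (a * ((⟨x, hxO⟩ : O₀) ^ (N' + 1) * g))) ≤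
          B.valuation (residue O₀ a * w) := by
        rw [map_mul (residue O₀) a, map_mul B.valuation (residue O₀ a), map_mul B.valuation]
        gcongr
      have := hin (a * ((⟨x, hxO⟩ : O₀) ^ (N' + 1) * g)) (hy'.trans w5) (lt_of_le_of_lt hy' w6)
      simpa using this
  · intro hx
    have hx : x ^ (N' + 1) * g ∈ DYT T (a : K) := hx
    have hxgO := hDO _ hx
    have hxO : x ∈ O₀ := by
      rw [← O₀.valuation_le_one_iff, map_mul, hgv, mul_one, map_pow] at hxgO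
      rw [← O₀.valuation_le_one_iff]
      exact (pow_le_one_iff (Nat.succ_ne_zero _)).1 hxgO
    refine mem_compRing.2 ⟨hxO, ?_⟩
    by_contra hxB
    set e := residue O₀ ⟨x, hxO⟩ with he
    have he0 : e ≠ 0 := by
      intro h
      rw [h] at hxB
      exact hxB B.zero_mem
    have h1 : B.valuation e⁻¹ ≤ B.valuation π :=
      hπ _ (val_lt_one_of_inv_notMem (by rwa [inv_inv]))
    have h2 : e ^ (N' + 1) * w ∈ E := by
      refine ⟨(⟨x, hxO⟩ : O₀) ^ (N' + 1) * g, by simpa using hx, ?_⟩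
      rw [map_mul, map_pow, hg]
    have h3 : B.valuation (d₁ * (e ^ (N' + 1) * w)) ≤ 1 := (B.valuation_le_one_iff _).2 (hd₁ _ h2)
    have hew : d₁ * w = d₁ * (e ^ (N' + 1) * w) * e⁻¹ ^ (N' + 1) := by
      have h8 : e ^ (N' + 1) * e⁻¹ ^ (N' + 1) = 1 := by
        rw [← mul_pow, mul_inv_cancel₀ he0, one_pow]
      calc d₁ * w = d₁ * w * (e ^ (N' + 1) * e⁻¹ ^ (N' + 1)) := by rw [h8, mul_one]
        _ = d₁ * (e ^ (N' + 1) * w) * e⁻¹ ^ (N' + 1) := by ring
    have h4 : B.valuation (d₁ * w) ≤ B.valuation (π ^ (N' + 1)) := by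
      calc B.valuation (d₁ * w) = B.valuation (d₁ * (e ^ (N' + 1) * w)) *
            B.valuation e⁻¹ ^ (N' + 1) := by
            rw [← map_pow B.valuation, ← map_mul B.valuation, ← hew]
        _ ≤ 1 * B.valuation π ^ (N' + 1) := by gcongr
        _ = B.valuation (π ^ (N' + 1)) := by rw [one_mul, map_pow]
    have h5 : B.valuation (d₁ * w) ≤ B.valuation (d₁ * w) * B.valuation π := by
      rw [← map_mul]
      exact h4.trans ((hanti (Nat.le_succ _)).trans hN')
    have h6 : B.valuation (d₁ * w) ≠ 0 := (map_ne_zero _).2 (mul_ne_zero hd₁0 hw0)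
    have h7 : B.valuation (d₁ * w) * B.valuation π < B.valuation (d₁ * w) * 1 :=
      mul_lt_mul_of_pos_left hπ1 (zero_lt_iff.2 h6)
    rw [mul_one] at h7
    exact absurd h5 (not_le.2 h7)

end Pool.Agent.NIPFields.LZ
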