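import Mathlib
import Pool.Agent.NIPFields.LC.NoIncomp
import Pool.Agent.NIPFields.LG.Interp
import Pool.Agent.NIPFields.FinIndex
import Pool.Agent.NIPFields.KSW

set_option autoImplicit false

/-!
# Incomparable definable valuation rings: positive residue characteristic of the join
-/

namespace Pool.Agent.NIPFields.LZ

open FirstOrder FirstOrder.Language FirstOrder.Ring Set IsLocalRing
open Pool.Agent.NIPFields.LC

universe u

section interp

variable {K : Type u} [Field K] [CompatibleRing K] {L : Type u} [Field L] [Algebra K L]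
  {d : ℕ} (e : Module.Basis (Fin d) K L) {E : Subring L}
  {F : Type u} [Field F] {α β : Type*}

/-- A relation on the quotient that is definable over the base field. -/
private def QDefL (π : E →+* F) (S : Set (α → F)) : Prop :=
  LDef e {v : α → L | (∀ i, v i ∈ E) ∧ (fun i => LG.prF π (v i)) ∈ S}

variable {e}

private theorem ldef_allmem [Finite α] (hE : LDef₁ e {x | x ∈ E}) :
    LDef e {v : α → L | ∀ i, v i ∈ E} := by
  have := LDef.iInter (fun i : α => LDef₁.mem (α := α) hE (LFun.var i))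
  convert this using 1
  ext v
  simp

private theorem lfun_term [CompatibleRing L] (t : Language.ring.Term α) :
    LFun e (fun v : α → L => t.realize v) := by
  induction t with
  | var i => exact LFun.var i
  | func f ts ih =>
    cases f with
    | add =>
      have := LFun.add (ih 0) (ih 1)
      simp only [Term.realize, CompatibleRing.funMap_add]
      exact this
    | mul =>
      have := LFun.mul (ih 0) (ih 1)
      simp only [Term.realize, CompatibleRing.funMap_mul]
      exact this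
    | neg =>
      have := LFun.neg (ih 0)
      simp only [Term.realize, CompatibleRing.funMap_neg]
      exact this
    | zero =>
      simp only [Term.realize, CompatibleRing.funMap_zero]
      exact LFun.const 0
    | one =>
      simp only [Term.realize, CompatibleRing.funMap_one]
      exact LFun.const 1

private theorem QDefL.preimage_comp [Finite β] (hE : LDef₁ e {x | x ∈ E})
    {π : E →+* F} {S : Set (α → F)} (hS : QDefL e π S) (f : α → β) :
    QDefL e π {v : β → F | v ∘ f ∈ S} := by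
  have h1 := (ldef_allmem (α := β) hE).inter (LDef.preimage_comp hS f)
  unfold QDefL
  convert h1 using 1
  ext v
  constructor
  · rintro ⟨h2, h3⟩
    exact ⟨h2, fun i => h2 (f i), h3⟩
  · rintro ⟨h2, h3, h4⟩
    exact ⟨h2, h4⟩

private theorem QDefL.imp [Finite α] (hE : LDef₁ e {x | x ∈ E})
    {π : E →+* F} {S T : Set (α → F)} (hS : QDefL e π S) (hT : QDefL e π T) :
    QDefL e π {v | v ∈ S → v ∈ T} := by
  have h1 := (ldef_allmem (α := α) hE).inter (hS.compl.union hT)
  unfold QDefL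
  convert h1 using 1
  ext v
  simp only [mem_ofPred_eq, mem_inter_iff, mem_union, mem_compl_iff]
  tauto

private theorem QDefL.forall [Finite α] (hE : LDef₁ e {x | x ∈ E})
    {π : E →+* F} (hπ : Function.Surjective π) {S : Set (α ⊕ Unit → F)} (hS : QDefL e π S) :
    QDefL e π {v : α → F | ∀ u : F, Sum.elim v (fun _ => u) ∈ S} := by
  have h0 : LDef e {v : α ⊕ Unit → L | v (Sum.inr ()) ∈ {x | x ∈ E}} :=
    LDef₁.mem hE (LFun.var _)
  have h1 := (ldef_allmem (α := α) hE).inter (h0.compl.union hS).forall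
  unfold QDefL
  convert h1 using 1
  ext v
  simp only [mem_ofPred_eq, mem_inter_iff, mem_union, mem_compl_iff, Sum.elim_inr]
  refine and_congr_right fun hv => ?_
  constructor
  · intro h u
    by_cases hu : u () ∈ E
    · right
      refine ⟨?_, ?_⟩
      · rintro (i | i)
        · exact hv i
        · exact hu
      · have := h (LG.prF π (u ()))
        convert this using 1
        funext i
        rcases i with i | i <;> rfl
    · left; exact hu
  · intro h u
    obtain ⟨x, hx⟩ := hπ u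
    rcases h (fun _ => (x : L)) with h | ⟨-, h⟩
    · exact absurd x.2 h
    · convert h using 1
      funext i
      rcases i with i | i
      · rfl
      · simp only [Sum.elim_inr]
        rw [LG.prF_of_mem π x.2, ← hx]

private theorem qdefL_boundedFormula [CompatibleRing L] [CompatibleRing F] [Finite α]
    (hE : LDef₁ e {x | x ∈ E}) {π : E →+* F}
    (hπ : Function.Surjective π)
    (hI : LDef₁ e {x | ∃ h : x ∈ E, π ⟨x, h⟩ = 0}) {n : ℕ}
    (φ : Language.ring.BoundedFormula α n) :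
    QDefL e π {v : α ⊕ Fin n → F | φ.Realize (v ∘ Sum.inl) (v ∘ Sum.inr)} := by
  induction φ with
  | falsum =>
    unfold QDefL LDef
    convert definable_empty using 1
    ext v
    simp [BoundedFormula.Realize]
  | @equal n t₁ t₂ =>
    have h1 := (ldef_allmem (α := α ⊕ Fin n) hE).inter
      (LDef₁.mem hI (LFun.sub (lfun_term t₁) (lfun_term t₂)))
    unfold QDefL
    convert h1 using 1
    ext v
    simp only [mem_ofPred_eq, mem_inter_iff, BoundedFormula.Realize]
    refine and_congr_right fun hv => ?_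
    obtain ⟨g1, e1⟩ := LG.term_mem π hv t₁
    obtain ⟨g2, e2⟩ := LG.term_mem π hv t₂
    have h : ∀ v : α ⊕ Fin n → F, Sum.elim (v ∘ Sum.inl) (v ∘ Sum.inr) = v :=
      fun v => Sum.elim_comp_inl_inr v
    rw [h, ← e1, ← e2]
    constructor
    · intro h3
      refine ⟨E.sub_mem g1 g2, ?_⟩
      have : (⟨t₁.realize v - t₂.realize v, E.sub_mem g1 g2⟩ : E) =
        ⟨t₁.realize v, g1⟩ - ⟨t₂.realize v, g2⟩ := rfl
      rw [this, map_sub, h3, sub_self]
    · rintro ⟨h3, h4⟩
      have : (⟨t₁.realize v - t₂.realize v, h3⟩ : E) =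
        ⟨t₁.realize v, g1⟩ - ⟨t₂.realize v, g2⟩ := rfl
      rw [this, map_sub, sub_eq_zero] at h4
      exact h4
  | rel R ts => exact (IsEmpty.false R).elim
  | imp φ ψ ih1 ih2 => exact QDefL.imp hE ih1 ih2
  | @all n φ ih =>
    have h1 := QDefL.preimage_comp (β := (α ⊕ Fin n) ⊕ Unit) hE ih
      (Sum.elim (fun i => Sum.inl (Sum.inl i))
        (fun j : Fin (n + 1) => Fin.lastCases (Sum.inr ()) (fun j => Sum.inl (Sum.inr j)) j))
    have h2 := QDefL.forall hE hπ h1
    unfold QDefL at h2 ⊢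
    convert h2 using 1
    ext v
    simp only [mem_ofPred_eq, BoundedFormula.Realize]
    refine and_congr_right fun hv => ?_
    have key : ∀ (v : α ⊕ Fin n → F) (u : F),
        ((Sum.elim v (fun _ : Unit => u)) ∘ (Sum.elim (fun i => Sum.inl (Sum.inl i))
        (fun j : Fin (n + 1) => (Fin.lastCases (Sum.inr ()) (fun j => Sum.inl (Sum.inr j)) j :
          (α ⊕ Fin n) ⊕ Unit)))) ∘ Sum.inr = Fin.snoc (v ∘ Sum.inr) u := by
      intro v u
      funext j
      refine Fin.lastCases ?_ (fun j => ?_) j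
      · simp
      · simp
    constructor
    · intro h u
      have := h u
      rw [← key _ u] at this
      exact this
    · intro h a
      have := h a
      rw [key _ a] at this
      exact this

private theorem qdefL_formula [CompatibleRing L] [CompatibleRing F] [Finite α]
    (hE : LDef₁ e {x | x ∈ E}) {π : E →+* F}
    (hπ : Function.Surjective π)
    (hI : LDef₁ e {x | ∃ h : x ∈ E, π ⟨x, h⟩ = 0})
    (φ : Language.ring.Formula α) : QDefL e π {v : α → F | φ.Realize v} := by
  have h1 := QDefL.preimage_comp (β := α) hE (qdefL_boundedFormula hE hπ hI φ)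
    (Sum.elim id (fun j : Fin 0 => j.elim0))
  convert h1 using 1
  ext v
  simp only [mem_ofPred_eq, Formula.Realize]
  have : (v ∘ Sum.elim id (fun j : Fin 0 => j.elim0)) ∘ Sum.inr = (default : Fin 0 → F) :=
    Subsingleton.elim _ _
  rw [this]
  rfl

/-- Quotients of definable subrings of finite extensions are NIP. -/
theorem nip_quotient_ldef (hK : NIP K) (hE : LDef₁ e {x | x ∈ E}) [CompatibleRing F]
    (π : E →+* F) (hπ : Function.Surjective π)
    (hI : LDef₁ e {x | ∃ h : x ∈ E, π ⟨x, h⟩ = 0}) : NIP F := by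
  classical
  letI : CompatibleRing L := compatibleRingOfRing L
  intro m r φ
  have hR := qdefL_formula hE hπ hI φ
  obtain ⟨n, hn⟩ := hK.ldef hR
  refine ⟨n, fun a b => ?_⟩
  choose a' ha' using fun i j => hπ (a i j)
  choose b' hb' using fun J j => hπ (b J j)
  obtain ⟨i, J, hiJ⟩ := hn (fun i j => (a' i j : L)) (fun J j => (b' J j : L))
  refine ⟨i, J, fun h => hiJ ?_⟩
  rw [← h]
  simp only [mem_ofPred_eq]
  have h1 : ∀ s : Fin m ⊕ Fin r, Sum.elim (fun j => (a' i j : L)) (fun j => (b' J j : L)) s ∈ E := by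
    rintro (j | j)
    · exact (a' i j).2
    · exact (b' J j).2
  have h2 : (fun s : Fin m ⊕ Fin r =>
      LG.prF π (Sum.elim (fun j => (a' i j : L)) (fun j => (b' J j : L)) s)) =
      Sum.elim (a i) (b J) := by
    funext s
    rcases s with j | j
    · simp only [Sum.elim_inl]
      rw [LG.prF_of_mem π (a' i j).2, ← ha']
    · simp only [Sum.elim_inr]
      rw [LG.prF_of_mem π (b' J j).2, ← hb']
  rw [h2]
  exact ⟨fun h3 => h3.2, fun h3 => ⟨h1, h3⟩⟩

end interp

/-- The residue field of a definable valuation ring of a finite extension is NIP. -/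
theorem nip_residue {K : Type u} [Field K] [CompatibleRing K] (hK : NIP K) {L : Type u}
    [Field L] [Algebra K L] [FiniteDimensional K L] (U : ValuationSubring L)
    (hd : LDef₁ (Module.finBasis K L) {x | x ∈ U}) [CompatibleRing (ResidueField U)] :
    NIP (ResidueField U) := by
  let π : U.toSubring →+* ResidueField U :=
    { toFun := fun x => residue U ⟨x.1, x.2⟩
      map_one' := map_one (residue U)
      map_mul' := fun x y => map_mul (residue U) ⟨x.1, x.2⟩ ⟨y.1, y.2⟩
      map_zero' := map_zero (residue U)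
      map_add' := fun x y => map_add (residue U) ⟨x.1, x.2⟩ ⟨y.1, y.2⟩ }
  have hπ : Function.Surjective π := by
    intro z
    obtain ⟨x, hx⟩ := residue_surjective z
    exact ⟨⟨x.1, x.2⟩, hx⟩
  refine nip_quotient_ldef (E := U.toSubring) hK hd π hπ ?_
  have h1 := ldef_max hd
  have h2 : {x : L | ∃ h : x ∈ U.toSubring, π ⟨x, h⟩ = 0} =
      {x | U.valuation x < 1} := by
    ext x
    constructor
    · rintro ⟨h, h0⟩
      have h3 := (residue_eq_zero_iff (⟨x, h⟩ : U)).1 h0
      exact (U.valuation_lt_one_iff _).1 h3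
    · intro h
      have h3 : x ∈ U := (U.valuation_le_one_iff _).1 (le_of_lt h)
      exact ⟨h3, (residue_eq_zero_iff (⟨x, h3⟩ : U)).2 ((U.valuation_lt_one_iff _).2 h)⟩
  rw [h2]
  exact h1

section charP

variable {κ : Type u} [Field κ] (p : ℕ) [hp : Fact p.Prime] [CharP κ p]

/-- the Artin-Schreier map -/
private def wp : κ →+ κ where
  toFun x := x ^ p - x
  map_zero' := by simp [hp.out.ne_zero]
  map_add' x y := by
    rw [add_pow_char]
    ring

private lemma wp_apply (x : κ) : wp p x = x ^ p - x := rfl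

/-- integral elements are in every valuation ring -/
private lemma mem_of_wp (A : ValuationSubring κ) {u : κ} (h : u ^ p - u ∈ A) : u ∈ A := by
  rcases A.mem_or_inv_mem u with hu | hu
  · exact hu
  · by_contra hcon
    have hu0 : u ≠ 0 := fun h0 => hcon (by rw [h0]; exact A.zero_mem)
    apply hcon
    -- `u = (u ^ p - u) * u⁻¹ ^ (p - 1) + u⁻¹ ^ (p - 2)`
    have hp2 := hp.out.two_le
    have e1 : u = (u ^ p - u) * u⁻¹ ^ (p - 1) + u⁻¹ ^ (p - 2) := by
      have h1 : u ^ p * u⁻¹ ^ (p - 1) = u := by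
        conv_lhs => rw [show p = (p - 1) + 1 by omega, pow_succ, Nat.add_sub_cancel]
        rw [mul_right_comm, ← mul_pow, mul_inv_cancel₀ hu0, one_pow, one_mul]
      have h2 : u * u⁻¹ ^ (p - 1) = u⁻¹ ^ (p - 2) := by
        conv_lhs => rw [show p - 1 = (p - 2) + 1 by omega, pow_succ']
        rw [← mul_assoc, mul_inv_cancel₀ hu0, one_mul]
      rw [sub_mul, h1, h2, sub_add_cancel]
    rw [e1]
    exact A.add_mem _ _ (A.mul_mem _ _ h (pow_mem hu _)) (pow_mem hu _)

/-- an infinite field inside all valuation rings -/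
private lemma infinite_alg (hAS : ∀ w : κ, ∃ u : κ, u ^ p - u = w) [Algebra (ZMod p) κ] :
    Infinite (algebraicClosure (ZMod p) κ) := by
  by_contra hfin
  rw [not_infinite_iff_finite] at hfin
  let f : algebraicClosure (ZMod p) κ → algebraicClosure (ZMod p) κ := fun x => x ^ p - x
  have hsurj : Function.Surjective f := by
    intro w
    obtain ⟨u, hu⟩ := hAS (w : κ)
    have hw : IsAlgebraic (ZMod p) (w : κ) := mem_algebraicClosure_iff.1 w.2
    have hual : IsAlgebraic (algebraicClosure (ZMod p) κ) u := by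
      refine ⟨Polynomial.X ^ p - (Polynomial.X + Polynomial.C w), ?_, ?_⟩
      · refine (Polynomial.monic_X_pow_sub ?_).ne_zero
        rw [Polynomial.degree_X_add_C]
        exact_mod_cast hp.out.one_lt
      · simp only [map_sub, map_add, map_pow, Polynomial.aeval_X, Polynomial.aeval_C]
        have : algebraMap (algebraicClosure (ZMod p) κ) κ w = (w : κ) := rfl
        rw [this, ← hu]
        ring
    have hu' : IsAlgebraic (ZMod p) u := by
      have h1 : Algebra.IsAlgebraic (ZMod p) (algebraicClosure (ZMod p) κ) := inferInstance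
      exact IsAlgebraic.restrictScalars (ZMod p) hual
    refine ⟨⟨u, mem_algebraicClosure_iff.2 hu'⟩, ?_⟩
    exact Subtype.ext hu
  have hinj : Function.Injective f := Finite.injective_iff_surjective.2 hsurj
  have h01 : f 0 = f 1 := by
    simp [f, hp.out.ne_zero]
  exact zero_ne_one (hinj h01)

private lemma alg_mem (A : ValuationSubring κ) [Algebra (ZMod p) κ]
    {c : κ} (hc : IsAlgebraic (ZMod p) c) : c ∈ A := by
  have hint : IsIntegral (ZMod p) c := hc.isIntegral
  obtain ⟨f, hf, hf0⟩ := hint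
  have hZ : ∀ a : ZMod p, algebraMap (ZMod p) κ a ∈ A := by
    intro a
    obtain ⟨n, rfl⟩ := ZMod.natCast_zmod_surjective a
    rw [map_natCast]
    exact natCast_mem A n
  let g : ZMod p →+* A := (algebraMap (ZMod p) κ).codRestrict A.toSubring hZ
  have h1 : IsIntegral A c := by
    refine ⟨f.map g, hf.map g, ?_⟩
    rw [Polynomial.eval₂_map]
    exact hf0
  obtain ⟨y, hy⟩ := IsIntegrallyClosed.isIntegral_iff.1 h1
  rw [← hy]
  exact y.2


private lemma wp_lt (A : ValuationSubring κ) {t : κ} (ht : A.valuation t < 1) :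
    A.valuation (t ^ p - t) < 1 := by
  refine lt_of_le_of_lt (A.valuation.map_sub _ _) (max_lt ?_ ht)
  rw [map_pow]
  exact pow_lt_one₀ zero_le ht hp.out.ne_zero

/-- the intersection of the maximal ideals -/
private def JJ (A₁ A₂ : ValuationSubring κ) [Algebra (ZMod p) κ] :
    Submodule (algebraicClosure (ZMod p) κ) κ where
  carrier := {x | A₁.valuation x < 1 ∧ A₂.valuation x < 1}
  zero_mem' := by
    constructor
    · rw [map_zero]; exact zero_lt_one
    · rw [map_zero]; exact zero_lt_one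
  add_mem' := by
    rintro x y ⟨h1, h2⟩ ⟨h3, h4⟩
    exact ⟨A₁.valuation.map_add_lt h1 h3, A₂.valuation.map_add_lt h2 h4⟩
  smul_mem' := by
    rintro c x ⟨h1, h2⟩
    have hc := mem_algebraicClosure_iff.1 c.2
    have hcx : c • x = (c : κ) * x := rfl
    rw [hcx]
    constructor
    · rw [map_mul]
      exact mul_lt_one_of_nonneg_of_lt_one_right
        ((A₁.valuation_le_one_iff _).2 (alg_mem p A₁ hc)) zero_le h1
    · rw [map_mul]
      exact mul_lt_one_of_nonneg_of_lt_one_right
        ((A₂.valuation_le_one_iff _).2 (alg_mem p A₂ hc)) zero_le h2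

private lemma mem_JJ {A₁ A₂ : ValuationSubring κ} [Algebra (ZMod p) κ] {x : κ} :
    x ∈ JJ p A₁ A₂ ↔ A₁.valuation x < 1 ∧ A₂.valuation x < 1 := Iff.rfl

private lemma finite_fix (F : Type*) [Field F] : {x : F | x ^ p = x}.Finite := by
  classical
  have hne : (Polynomial.X ^ p - Polynomial.X : Polynomial F) ≠ 0 := by
    have : (Polynomial.X ^ p - Polynomial.X : Polynomial F).Monic := by
      refine Polynomial.monic_X_pow_sub ?_
      rw [Polynomial.degree_X]
      exact_mod_cast hp.out.one_lt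
    exact this.ne_zero
  refine ((Polynomial.X ^ p - Polynomial.X : Polynomial F).roots.toFinset.finite_toSet).subset ?_
  intro x hx
  rw [Finset.mem_coe, Multiset.mem_toFinset, Polynomial.mem_roots hne, Polynomial.IsRoot,
    Polynomial.eval_sub, Polynomial.eval_pow, Polynomial.eval_X, sub_eq_zero]
  exact hx

/-- the subgroup of the Artin-Schreier images has finite index -/
private lemma exists_N (A₁ A₂ : ValuationSubring κ) [Algebra (ZMod p) κ]
    (hAS : ∀ w : κ, ∃ u : κ, u ^ p - u = w) :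
    ∃ N : AddSubgroup (JJ p A₁ A₂), N.FiniteIndex ∧
      ∀ x : JJ p A₁ A₂, x ∈ N ↔ ∃ u ∈ JJ p A₁ A₂, u ^ p - u = (x : κ) := by
  set J := JJ p A₁ A₂ with hJ
  let G : AddSubgroup κ := J.toAddSubgroup.comap (wp p)
  have hG : ∀ u : κ, u ∈ G ↔ u ^ p - u ∈ J := fun u => Iff.rfl
  let φ : G →+ J :=
    { toFun := fun u => ⟨wp p u.1, u.2⟩
      map_zero' := Subtype.ext (map_zero (wp p))
      map_add' := fun x y => Subtype.ext (map_add (wp p) x.1 y.1) }
  have hφ : Function.Surjective φ := by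
    intro x
    obtain ⟨u, hu⟩ := hAS (x : κ)
    refine ⟨⟨u, ?_⟩, Subtype.ext hu⟩
    rw [hG, hu]
    exact x.2
  have hm₁ : ∀ u : G, (u : κ) ∈ A₁ := by
    intro u
    refine mem_of_wp p A₁ ?_
    have h := (hG u).1 u.2
    exact (A₁.valuation_le_one_iff _).1 (le_of_lt h.1)
  have hm₂ : ∀ u : G, (u : κ) ∈ A₂ := by
    intro u
    refine mem_of_wp p A₂ ?_
    have h := (hG u).1 u.2
    exact (A₂.valuation_le_one_iff _).1 (le_of_lt h.2)
  let ρ : G →+ ResidueField A₁ × ResidueField A₂ :=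
    { toFun := fun u => (residue A₁ ⟨u, hm₁ u⟩, residue A₂ ⟨u, hm₂ u⟩)
      map_zero' := Prod.ext (map_zero (residue A₁)) (map_zero (residue A₂))
      map_add' := fun x y => Prod.ext (map_add (residue A₁) ⟨x, hm₁ x⟩ ⟨y, hm₁ y⟩)
        (map_add (residue A₂) ⟨x, hm₂ x⟩ ⟨y, hm₂ y⟩) }
  have hfix₁ : ∀ u : G, (residue A₁ ⟨u, hm₁ u⟩) ^ p = residue A₁ ⟨u, hm₁ u⟩ := by
    intro u
    rw [← sub_eq_zero, ← map_pow, ← map_sub, residue_eq_zero_iff]
    exact (A₁.valuation_lt_one_iff _).2 ((hG u).1 u.2).1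
  have hfix₂ : ∀ u : G, (residue A₂ ⟨u, hm₂ u⟩) ^ p = residue A₂ ⟨u, hm₂ u⟩ := by
    intro u
    rw [← sub_eq_zero, ← map_pow, ← map_sub, residue_eq_zero_iff]
    exact (A₂.valuation_lt_one_iff _).2 ((hG u).1 u.2).2
  have hrange : Finite ρ.range := by
    have h1 : ((ρ.range : Set (ResidueField A₁ × ResidueField A₂))) ⊆
        {x | x ^ p = x} ×ˢ {x | x ^ p = x} := by
      rintro _ ⟨u, rfl⟩
      exact ⟨hfix₁ u, hfix₂ u⟩
    exact (((finite_fix p _).prod (finite_fix p _)).subset h1).to_subtype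
  have hkerfi : ρ.ker.FiniteIndex := inferInstance
  have hker : ∀ u : G, u ∈ ρ.ker ↔ (u : κ) ∈ J := by
    intro u
    rw [AddMonoidHom.mem_ker]
    constructor
    · intro h
      have h1 : residue A₁ ⟨u, hm₁ u⟩ = 0 := congrArg Prod.fst h
      have h2 : residue A₂ ⟨u, hm₂ u⟩ = 0 := congrArg Prod.snd h
      rw [residue_eq_zero_iff] at h1 h2
      exact ⟨(A₁.valuation_lt_one_iff _).1 h1, (A₂.valuation_lt_one_iff _).1 h2⟩
    · rintro ⟨h1, h2⟩
      refine Prod.ext ?_ ?_
      · exact (residue_eq_zero_iff _).2 ((A₁.valuation_lt_one_iff ⟨u, hm₁ u⟩).2 h1)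
      · exact (residue_eq_zero_iff _).2 ((A₂.valuation_lt_one_iff ⟨u, hm₂ u⟩).2 h2)
  refine ⟨ρ.ker.map φ, ?_, ?_⟩
  · refine ⟨?_⟩
    intro h
    have h1 := AddSubgroup.index_map_dvd (H := ρ.ker) hφ
    rw [h] at h1
    exact hkerfi.index_ne_zero (Nat.eq_zero_of_zero_dvd h1)
  · intro x
    rw [AddSubgroup.mem_map]
    constructor
    · rintro ⟨u, hu, rfl⟩
      exact ⟨u, (hker u).1 hu, rfl⟩
    · rintro ⟨u, hu, hux⟩
      have huG : u ∈ G := by
        rw [hG, hux]
        exact x.2
      exact ⟨⟨u, huG⟩, (hker ⟨u, huG⟩).2 hu, Subtype.ext hux⟩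

/-- an element close to `1` and to `0` -/
private lemma exists_sep {A₁ A₂ : ValuationSubring κ} (h₁ : ¬ A₁ ≤ A₂) (h₂ : ¬ A₂ ≤ A₁) :
    ∃ u : κ, A₁.valuation (u - 1) < 1 ∧ A₂.valuation u < 1 := by
  obtain ⟨a, ha1, ha2⟩ := SetLike.not_le_iff_exists.1 h₁
  obtain ⟨b, hb2, hb1⟩ := SetLike.not_le_iff_exists.1 h₂
  have hva1 : A₁.valuation a ≤ 1 := (A₁.valuation_le_one_iff _).2 ha1
  have hva2 : 1 < A₂.valuation a := by
    rw [← not_le, A₂.valuation_le_one_iff]; exact ha2
  have hvb2 : A₂.valuation b ≤ 1 := (A₂.valuation_le_one_iff _).2 hb2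
  have hvb1 : 1 < A₁.valuation b := by
    rw [← not_le, A₁.valuation_le_one_iff]; exact hb1
  have ha0 : a ≠ 0 := by rintro rfl; exact ha2 A₂.zero_mem
  have hb0 : b ≠ 0 := by rintro rfl; exact hb1 A₁.zero_mem
  have hvb10 : A₁.valuation b ≠ 0 := (_root_.map_ne_zero _).2 hb0
  have hvb20 : A₂.valuation b ≠ 0 := (_root_.map_ne_zero _).2 hb0
  -- `x = a / b`
  have hx1 : A₁.valuation (a / b) < 1 := by
    rw [map_div₀]
    exact (div_lt_one₀ (zero_lt_iff.2 hvb10)).2 (lt_of_le_of_lt hva1 hvb1)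
  have hx2 : 1 < A₂.valuation (a / b) := by
    rw [map_div₀]
    exact (one_lt_div₀ (zero_lt_iff.2 hvb20)).2 (lt_of_le_of_lt hvb2 hva2)
  set x := a / b with hx
  have h1x1 : A₁.valuation (1 + x) = 1 := by
    rw [Valuation.map_add_eq_of_lt_left A₁.valuation (by rw [map_one]; exact hx1), map_one]
  have h1x2 : A₂.valuation (1 + x) = A₂.valuation x :=
    Valuation.map_add_eq_of_lt_right A₂.valuation (by rw [map_one]; exact hx2)
  have hne : 1 + x ≠ 0 := by
    intro h
    rw [h, map_zero] at h1x1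
    exact zero_ne_one h1x1
  refine ⟨(1 + x)⁻¹, ?_, ?_⟩
  · have : (1 + x)⁻¹ - 1 = -x * (1 + x)⁻¹ := by
      field_simp
      ring
    rw [this, map_mul, Valuation.map_neg, map_inv₀, h1x1, inv_one, mul_one]
    exact hx1
  · rw [map_inv₀, h1x2]
    exact inv_lt_one_of_one_lt₀ hx2

private lemma N_ne_top {A₁ A₂ : ValuationSubring κ} [Algebra (ZMod p) κ] (h₁ : ¬ A₁ ≤ A₂)
    (h₂ : ¬ A₂ ≤ A₁) {N : AddSubgroup (JJ p A₁ A₂)}
    (hN : ∀ x : JJ p A₁ A₂, x ∈ N ↔ ∃ u ∈ JJ p A₁ A₂, u ^ p - u = (x : κ)) : N ≠ ⊤ := by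
  intro htop
  obtain ⟨u, hu1, hu2⟩ := exists_sep h₁ h₂
  have e1 : u ^ p - u = (u - 1) ^ p - (u - 1) := by
    rw [sub_pow_char, one_pow]
    ring
  have hJ : u ^ p - u ∈ JJ p A₁ A₂ := by
    refine ⟨?_, wp_lt p A₂ hu2⟩
    rw [e1]
    exact wp_lt p A₁ hu1
  have h3 : (⟨u ^ p - u, hJ⟩ : JJ p A₁ A₂) ∈ N := by rw [htop]; trivial
  obtain ⟨v, ⟨hv1, hv2⟩, hv⟩ := (hN _).1 h3
  have hc : (u - v) ^ p = u - v := by
    rw [sub_pow_char]
    simp only at hv
    linear_combination -hv
  have hc2 : A₂.valuation (u - v) < 1 :=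
    lt_of_le_of_lt (A₂.valuation.map_sub _ _) (max_lt hu2 hv2)
  have hc0 : u - v = 0 := by
    by_contra hne
    have h4 := wp_lt p A₂ hc2
    have h5 : A₂.valuation (u - v) ^ p = A₂.valuation (u - v) := by
      rw [← map_pow, hc]
    have h6 : A₂.valuation (u - v) ^ p < A₂.valuation (u - v) :=
      pow_lt_self_of_lt_one₀ (zero_lt_iff.2 ((_root_.map_ne_zero _).2 hne)) hc2 hp.out.one_lt
    exact absurd h5 h6.ne
  have h7 : A₁.valuation (-1 : κ) < 1 := by
    have : (-1 : κ) = (u - 1) - v := by linear_combination -hc0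
    rw [this]
    exact lt_of_le_of_lt (A₁.valuation.map_sub _ _) (max_lt hu1 hv1)
  rw [Valuation.map_neg, map_one] at h7
  exact lt_irrefl _ h7

end charP

theorem no_incomparable_charP {K : Type u} [Field K] [CompatibleRing K] (hK : NIP K) {L : Type u}
    [Field L] [Algebra K L] [FiniteDimensional K L] (O₁ O₂ : ValuationSubring L)
    (h₁ : ¬ O₁ ≤ O₂) (h₂ : ¬ O₂ ≤ O₁) (hd₁ : LDef₁ (Module.finBasis K L) {x | x ∈ O₁})
    (hd₂ : LDef₁ (Module.finBasis K L) {x | x ∈ O₂}) (p : ℕ) (hp : p.Prime)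
    (hchar : CharP (ResidueField (O₁ ⊔ O₂ : ValuationSubring L)) p) : False := by
  classical
  haveI : Fact p.Prime := ⟨hp⟩
  set U : ValuationSubring L := O₁ ⊔ O₂ with hU
  have hu₁ : O₁ ≤ U := le_sup_left
  have hu₂ : O₂ ≤ U := le_sup_right
  set A₁ : ValuationSubring (ResidueField U) := resVal hu₁ with hA₁
  set A₂ : ValuationSubring (ResidueField U) := resVal hu₂ with hA₂
  have ht₁ : A₁ ≠ ⊤ := resVal_ne_top hu₁ (fun h => h₂ (hu₂.trans h))
  have ht₂ : A₂ ≠ ⊤ := resVal_ne_top hu₂ (fun h => h₁ (hu₁.trans h))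
  have hsup : A₁ ⊔ A₂ = ⊤ := resVal_sup O₁ O₂
  have hA12 : ¬ A₁ ≤ A₂ := fun h => ht₂ (by rw [← hsup, sup_eq_right.2 h])
  have hA21 : ¬ A₂ ≤ A₁ := fun h => ht₁ (by rw [← hsup, sup_eq_left.2 h])
  letI : Algebra (ZMod p) (ResidueField U) := ZMod.algebra _ p
  letI : CompatibleRing (ResidueField U) := compatibleRingOfRing _
  have hdU : LDef₁ (Module.finBasis K L) {x | x ∈ U} := ldef_sup hd₁ hd₂
  have hnip : NIP (ResidueField U) := nip_residue hK U hdU
  have hinf : Infinite (ResidueField U) := by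
    by_contra hfin
    rw [not_infinite_iff_finite] at hfin
    apply ht₁
    rw [eq_top_iff]
    intro x _
    have : Algebra.IsAlgebraic (ZMod p) (ResidueField U) := inferInstance
    exact alg_mem p A₁ (Algebra.IsAlgebraic.isAlgebraic x)
  have hAS : ∀ w : ResidueField U, ∃ u : ResidueField U, u ^ p - u = w := fun w =>
    hnip.artinSchreier (Module.finBasis (ResidueField U) (ResidueField U)) w
  have hinfF : Infinite (algebraicClosure (ZMod p) (ResidueField U)) := infinite_alg p hAS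
  have hinfR : Infinite (IsLocalRing.ResidueField (algebraicClosure (ZMod p) (ResidueField U))) :=
    Infinite.of_injective (residue (algebraicClosure (ZMod p) (ResidueField U)))
      (RingHom.injective _)
  obtain ⟨N, hNfi, hN⟩ := exists_N p A₁ A₂ hAS
  have hNtop : N ≠ ⊤ := N_ne_top p hA12 hA21 hN
  have hM₁ := ldef_max hd₁
  have hM₂ := ldef_max hd₂
  have hMU : LDef₁ (Module.finBasis K L) {x | U.valuation x < 1} := ldef_max hdU
  have g1 : LDef (Module.finBasis K L) {v : (Fin 1 ⊕ Fin 1) ⊕ Fin 1 → L |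
      v (Sum.inr 0) ∈ {x | O₁.valuation x < 1}} := LDef₁.mem hM₁ (LFun.var _)
  have g2 : LDef (Module.finBasis K L) {v : (Fin 1 ⊕ Fin 1) ⊕ Fin 1 → L |
      v (Sum.inr 0) ∈ {x | O₂.valuation x < 1}} := LDef₁.mem hM₂ (LFun.var _)
  have g3 : LDef (Module.finBasis K L) {v : (Fin 1 ⊕ Fin 1) ⊕ Fin 1 → L |
      (v (Sum.inr 0) ^ p - v (Sum.inr 0)) -
        v (Sum.inl (Sum.inl 0)) * v (Sum.inl (Sum.inr 0)) ∈ {x | U.valuation x < 1}} := by
    refine LDef₁.mem hMU (LFun.sub (LFun.sub (LFun.pow (LFun.var _) _) (LFun.var _))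
      (LFun.mul (LFun.var _) (LFun.var _)))
  have g4 := ((g1.inter g2).inter g3).exists
  obtain ⟨m, hm⟩ := hK.ldef g4
  obtain ⟨r, z, hrz⟩ := exists_pattern (O := algebraicClosure (ZMod p) (ResidueField U)) N
    hNtop m
  have hlift : ∀ y : ResidueField U, ∃ x : U, residue U x = y := residue_surjective
  choose lift hl using hlift
  obtain ⟨i, S, hiS⟩ := hm (fun i _ => (lift (r i : ResidueField U) : L))
    (fun S _ => (lift ((∑ k ∈ Sᶜ, z k : JJ p A₁ A₂) : ResidueField U) : L))
  apply hiS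
  set s : JJ p A₁ A₂ := ∑ k ∈ Sᶜ, z k with hs
  have hkey : ∀ w : U, U.valuation (((w : L) ^ p - w) - (lift (r i : ResidueField U) : L) *
      (lift (s : ResidueField U) : L)) < 1 ↔
      (residue U w) ^ p - residue U w = ((r i • s : JJ p A₁ A₂) : ResidueField U) := by
    intro w
    have e1 : ((w : L) ^ p - w) - (lift (r i : ResidueField U) : L) *
        (lift (s : ResidueField U) : L) =
        (((w ^ p - w) - lift (r i : ResidueField U) * lift (s : ResidueField U) : U) : L) := by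
      push_cast
      rfl
    have e2 : ((r i • s : JJ p A₁ A₂) : ResidueField U) =
        (r i : ResidueField U) * (s : ResidueField U) := rfl
    rw [e1, ← U.valuation_lt_one_iff, ← residue_eq_zero_iff, map_sub, map_sub, map_pow, map_mul,
      hl, hl, sub_eq_zero, e2]
  have hmain : (r i • s) ∈ N ↔ ∃ u : Fin 1 → L,
      Sum.elim (Sum.elim (fun _ : Fin 1 => (lift (r i : ResidueField U) : L))
        (fun _ : Fin 1 => (lift (s : ResidueField U) : L))) u ∈
        ({v : (Fin 1 ⊕ Fin 1) ⊕ Fin 1 → L | v (Sum.inr 0) ∈ {x | O₁.valuation x < 1}} ∩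
        {v : (Fin 1 ⊕ Fin 1) ⊕ Fin 1 → L | v (Sum.inr 0) ∈ {x | O₂.valuation x < 1}}) ∩
        {v : (Fin 1 ⊕ Fin 1) ⊕ Fin 1 → L | (v (Sum.inr 0) ^ p - v (Sum.inr 0)) -
          v (Sum.inl (Sum.inl 0)) * v (Sum.inl (Sum.inr 0)) ∈ {x | U.valuation x < 1}} := by
    rw [hN]
    simp only [mem_ofPred_eq, mem_inter_iff, Sum.elim_inl, Sum.elim_inr]
    constructor
    · rintro ⟨y, ⟨hy1, hy2⟩, hy3⟩
      obtain ⟨w, rfl⟩ := residue_surjective y
      refine ⟨fun _ => (w : L), ⟨(resVal_val_lt_one hu₁).1 hy1, (resVal_val_lt_one hu₂).1 hy2⟩,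
        (hkey w).2 hy3⟩
    · rintro ⟨u, ⟨hu1, hu2⟩, hu3⟩
      have huU : u 0 ∈ U := hu₁ ((O₁.valuation_le_one_iff _).1 hu1.le)
      exact ⟨residue U ⟨u 0, huU⟩, ⟨(resVal_val_lt_one hu₁).2 hu1,
        (resVal_val_lt_one hu₂).2 hu2⟩, (hkey ⟨u 0, huU⟩).1 hu3⟩
  refine hmain.symm.trans ?_
  rw [hs, Finset.smul_sum]
  constructor
  · intro h
    by_contra hi
    have hi' : i ∈ Sᶜ := Finset.mem_compl.2 hi
    rw [← Finset.add_sum_erase _ _ hi'] at h
    have h2 : ∑ k ∈ Sᶜ.erase i, r i • z k ∈ N := by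
      refine AddSubgroup.sum_mem _ (fun k hk => ?_)
      exact (hrz i k).2 (Finset.ne_of_mem_erase hk).symm
    have h3 := (AddSubgroup.add_mem_cancel_right _ h2).1 h
    exact (hrz i i).1 h3 rfl
  · intro hi
    refine AddSubgroup.sum_mem _ (fun k hk => (hrz i k).2 ?_)
    rintro rfl
    exact (Finset.mem_compl.1 hk) hi

end Pool.Agent.NIPFields.LZ
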