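import Mathlib
import Pool.Agent.NIPFields.LZ.Compat
import Pool.Agent.NIPFields.LZ.IndepP

set_option autoImplicit false

/-!
# Bounded elements of an ultrapower
-/

namespace Pool.Agent.NIPFields.LZ

open FirstOrder FirstOrder.Language FirstOrder.Ring Set IsLocalRing Filter
open Pool.Agent.NIPFields.LC Pool.Agent.NIPFields.LG Pool.Agent.NIPFields.FI

universe u

attribute [local instance] germAlg

theorem bddV_const {κ : Type u} [Field κ] {A : ValuationSubring κ} {a : κ} :
    algebraMap κ (Germ (UF κ : Filter (Finset κ)) κ) a ∈ UV (UF κ) A ↔ a ∈ A := by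
  rw [alg_apply, mem_UV]
  constructor
  · intro h
    obtain ⟨t, ht⟩ := h.exists
    exact ht
  · intro h
    exact Eventually.of_forall fun _ => h

/-- The bounded elements of the ultrapower with respect to the valuation ring `A`. -/
def bddV {κ : Type u} [Field κ] (A : ValuationSubring κ) :
    ValuationSubring (Germ (UF κ : Filter (Finset κ)) κ) where
  carrier := {x | ∃ a : κ, a ≠ 0 ∧ x / algebraMap κ _ a ∈ UV (UF κ) A}
  mul_mem' := by
    rintro x y ⟨a, ha, hx⟩ ⟨b, hb, hy⟩
    refine ⟨a * b, mul_ne_zero ha hb, ?_⟩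
    rw [map_mul, mul_div_mul_comm]
    exact (UV (UF κ) A).mul_mem _ _ hx hy
  one_mem' := ⟨1, one_ne_zero, by rw [map_one, div_one]; exact (UV (UF κ) A).one_mem⟩
  zero_mem' := ⟨1, one_ne_zero, by rw [zero_div]; exact (UV (UF κ) A).zero_mem⟩
  add_mem' := by
    rintro x y ⟨a, ha, hx⟩ ⟨b, hb, hy⟩
    have ha' : algebraMap κ (Germ (UF κ : Filter (Finset κ)) κ) a ≠ 0 := (map_ne_zero _).2 ha
    have hb' : algebraMap κ (Germ (UF κ : Filter (Finset κ)) κ) b ≠ 0 := (map_ne_zero _).2 hb
    rcases A.mem_or_inv_mem (a / b) with h | h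
    · refine ⟨b, hb, ?_⟩
      have h1 := (bddV_const (A := A)).2 h
      have h2 : (x + y) / algebraMap κ (Germ (UF κ : Filter (Finset κ)) κ) b =
          x / algebraMap κ _ a * algebraMap κ _ (a / b) + y / algebraMap κ _ b := by
        rw [map_div₀]
        field_simp
      rw [h2]
      exact (UV (UF κ) A).add_mem _ _ ((UV (UF κ) A).mul_mem _ _ hx h1) hy
    · refine ⟨a, ha, ?_⟩
      rw [inv_div] at h
      have h1 := (bddV_const (A := A)).2 h
      have h2 : (x + y) / algebraMap κ (Germ (UF κ : Filter (Finset κ)) κ) a =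
          x / algebraMap κ _ a + y / algebraMap κ _ b * algebraMap κ _ (b / a) := by
        rw [map_div₀]
        field_simp
      rw [h2]
      exact (UV (UF κ) A).add_mem _ _ hx ((UV (UF κ) A).mul_mem _ _ hy h1)
  neg_mem' := by
    rintro x ⟨a, ha, hx⟩
    refine ⟨a, ha, ?_⟩
    rw [neg_div]
    exact (UV (UF κ) A).neg_mem _ hx
  mem_or_inv_mem' := by
    intro x
    rcases (UV (UF κ) A).mem_or_inv_mem x with h | h
    · exact Or.inl ⟨1, one_ne_zero, by rw [map_one, div_one]; exact h⟩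
    · exact Or.inr ⟨1, one_ne_zero, by rw [map_one, div_one]; exact h⟩

theorem mem_bddV {κ : Type u} [Field κ] {A : ValuationSubring κ}
    {x : Germ (UF κ : Filter (Finset κ)) κ} :
    x ∈ bddV A ↔ ∃ a : κ, a ≠ 0 ∧ x / algebraMap κ _ a ∈ UV (UF κ) A := Iff.rfl

theorem UV_le_bddV {κ : Type u} [Field κ] {A : ValuationSubring κ} : UV (UF κ) A ≤ bddV A := by
  intro x hx
  exact ⟨1, one_ne_zero, by rw [map_one, div_one]; exact hx⟩

theorem alg_mem_bddV {κ : Type u} [Field κ] {A : ValuationSubring κ} (a : κ) :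
    algebraMap κ (Germ (UF κ : Filter (Finset κ)) κ) a ∈ bddV A := by
  by_cases ha : a = 0
  · rw [ha, map_zero]
    exact (bddV A).zero_mem
  · refine ⟨a, ha, ?_⟩
    rw [div_self ((map_ne_zero _).2 ha)]
    exact (UV (UF κ) A).one_mem

theorem bddV_ne_top {κ : Type u} [Field κ] {A : ValuationSubring κ} (hA : A ≠ ⊤) :
    bddV A ≠ ⊤ := by
  classical
  have hbig : ∀ t : Finset κ, ∃ b : κ, ∀ a ∈ t, a ≠ 0 → A.valuation a < A.valuation b := by
    intro t
    obtain ⟨c, hc0, hc⟩ : ∃ c : κ, c ≠ 0 ∧ ∀ a ∈ t, A.valuation a ≤ A.valuation c := by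
      induction t using Finset.induction_on with
      | empty => exact ⟨1, one_ne_zero, by simp⟩
      | insert a t _ ih =>
        obtain ⟨c, hc0, hc⟩ := ih
        rcases le_total (A.valuation a) (A.valuation c) with h | h
        · refine ⟨c, hc0, fun b hb => ?_⟩
          rcases Finset.mem_insert.1 hb with rfl | hb
          · exact h
          · exact hc b hb
        · refine ⟨a, ?_, fun b hb => ?_⟩
          · rintro rfl
            rw [map_zero, le_zero_iff, map_eq_zero] at h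
            exact hc0 h
          · rcases Finset.mem_insert.1 hb with rfl | hb
            · exact le_rfl
            · exact (hc b hb).trans h
    obtain ⟨π, hπ0, hπ⟩ := exists_lt A hA c⁻¹ (inv_ne_zero hc0)
    refine ⟨π⁻¹, fun a ha _ => (hc a ha).trans_lt ?_⟩
    rw [map_inv₀] at hπ ⊢
    have h1 : 0 < A.valuation π := zero_lt_iff.2 ((A.valuation).ne_zero_iff.2 hπ0)
    have h2 : 0 < A.valuation c := zero_lt_iff.2 ((A.valuation).ne_zero_iff.2 hc0)
    rwa [lt_inv_comm₀ h1 h2] at hπ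
  choose b hb using hbig
  intro htop
  have h1 : (↑b : Germ (UF κ : Filter (Finset κ)) κ) ∈ bddV A := by rw [htop]; trivial
  obtain ⟨a, ha, h2⟩ := mem_bddV.1 h1
  rw [alg_apply, ← Germ.coe_div, mem_UV] at h2
  obtain ⟨t, h3, h4⟩ := (h2.and (eventually_mem a)).exists
  have h5 := hb t a h4 ha
  have h3' : b t / a ∈ A := h3
  have h6 := (A.valuation_le_one_iff _).2 h3'
  rw [map_div₀] at h6
  have h8 : 0 < A.valuation a := zero_lt_iff.2 ((A.valuation).ne_zero_iff.2 ha)
  rw [div_le_one₀ h8] at h6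
  exact absurd h5 (not_lt.2 h6)

theorem bddV_lt_one {κ : Type u} [Field κ] {A : ValuationSubring κ}
    {x : Germ (UF κ : Filter (Finset κ)) κ} :
    (bddV A).valuation x < 1 ↔ ∀ a : κ, a ≠ 0 →
      (UV (UF κ) A).valuation x < (UV (UF κ) A).valuation (algebraMap κ _ a) := by
  rw [val_lt_one_iff_inv]
  constructor
  · intro h a ha
    have ha' : algebraMap κ (Germ (UF κ : Filter (Finset κ)) κ) a ≠ 0 := (map_ne_zero _).2 ha
    by_contra hle
    rw [not_lt] at hle
    have hx0 : x ≠ 0 := by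
      rintro rfl
      rw [map_zero, le_zero_iff, map_eq_zero] at hle
      exact ha' hle
    refine h x⁻¹ (mul_inv_cancel₀ hx0) (mem_bddV.2 ⟨a⁻¹, inv_ne_zero ha, ?_⟩)
    rw [← (UV (UF κ) A).valuation_le_one_iff, map_inv₀ (algebraMap κ _), div_inv_eq_mul, mul_comm,
      ← div_eq_mul_inv, map_div₀]
    exact div_le_one_of_le₀ hle zero_le
  · intro h y hxy hy
    obtain ⟨a, ha, h1⟩ := mem_bddV.1 hy
    have ha' : algebraMap κ (Germ (UF κ : Filter (Finset κ)) κ) a ≠ 0 := (map_ne_zero _).2 ha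
    have hx0 : x ≠ 0 := left_ne_zero_of_mul_eq_one hxy
    have hy' : y = x⁻¹ := (inv_eq_of_mul_eq_one_right hxy).symm
    have h2 := h a⁻¹ (inv_ne_zero ha)
    rw [← (UV (UF κ) A).valuation_le_one_iff, hy', map_div₀, map_inv₀] at h1
    rw [map_inv₀ (algebraMap κ _), map_inv₀] at h2
    have e1 : 0 < (UV (UF κ) A).valuation x :=
      zero_lt_iff.2 (((UV (UF κ) A).valuation).ne_zero_iff.2 hx0)
    have e2 : 0 < (UV (UF κ) A).valuation (algebraMap κ _ a) :=
      zero_lt_iff.2 (((UV (UF κ) A).valuation).ne_zero_iff.2 ha')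
    rw [div_le_one₀ e2, inv_le_comm₀ e1 e2] at h1
    exact absurd h2 (not_lt.2 h1)

theorem bddV_sup {κ : Type u} [Field κ] {A : Bool → ValuationSubring κ}
    (hA : ∀ i, A i ≠ ⊤) (hind : A true ⊔ A false = ⊤) :
    bddV (A true) ⊔ bddV (A false) = ⊤ := by
  rw [eq_top_iff]
  intro x _
  induction x using Germ.inductionOn with | _ f
  choose y hy z hz hxy using fun t => exists_factor hA hind (f t)
  rw [mem_sup_iff]
  refine ⟨(↑y : Germ (UF κ : Filter (Finset κ)) κ), UV_le_bddV (Eventually.of_forall hy),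
    (↑z : Germ (UF κ : Filter (Finset κ)) κ), UV_le_bddV (Eventually.of_forall hz), ?_⟩
  rw [← Germ.coe_mul]
  congr 1
  funext t
  exact hxy t

theorem sup_bddV {κ : Type u} [Field κ] {A : Bool → ValuationSubring κ}
    (hA : ∀ i, A i ≠ ⊤) (hind : A true ⊔ A false = ⊤)
    (V : ValuationSubring (Germ (UF κ : Filter (Finset κ)) κ)) :
    ∃ i, V ⊔ bddV (A i) = ⊤ := by
  have h1 := bddV_sup hA hind
  have h2 := (ValuationSubring.linearOrderOverring (A := V)).le_total
    ⟨V ⊔ bddV (A true), le_sup_left⟩ ⟨V ⊔ bddV (A false), le_sup_left⟩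
  rcases h2 with h | h
  · refine ⟨false, ?_⟩
    rw [eq_top_iff, ← h1]
    exact sup_le ((le_sup_right : bddV (A true) ≤ V ⊔ bddV (A true)).trans h) le_sup_right
  · refine ⟨true, ?_⟩
    rw [eq_top_iff, ← h1]
    exact sup_le le_sup_right ((le_sup_right : bddV (A false) ≤ V ⊔ bddV (A false)).trans h)

end Pool.Agent.NIPFields.LZ
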