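import Mathlib
import Pool.Agent.NIPFields.LZ.BddV
import Pool.Agent.NIPFields.LG.Germ

set_option autoImplicit false

/-!
# Two independent definable valuation rings contradict `TL`: the character
-/

namespace Pool.Agent.NIPFields.LZ

open FirstOrder FirstOrder.Language FirstOrder.Ring Set IsLocalRing Filter
open Pool.Agent.NIPFields.LC Pool.Agent.NIPFields.LG Pool.Agent.NIPFields.FI

universe u

attribute [local instance] germAlg

/-- the relation of the VC condition -/
def iv_R (κ : Type u) [Field κ] {k : Type u} [Field k] [Algebra κ k] (A : ValuationSubring k)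
    (F : Finset κ) (f x c t : k) : Prop :=
  ∃ y : k, y ^ 2 = 1 + f * x ∧ (y - 1) / c ∈ US κ 2 k F ∧ A.valuation (y - 1) < A.valuation t

theorem iv_US {κ : Type u} [Field κ] {F : Finset κ} {g : Finset κ → κ} :
    (↑g : Germ (UF κ : Filter (Finset κ)) κ) ∈ US κ 2 (Germ (UF κ : Filter (Finset κ)) κ) F ↔
      ∀ᶠ s in (UF κ : Filter (Finset κ)), g s ∈ US κ 2 κ F := by
  have h1 : (∀ᶠ s in (UF κ : Filter (Finset κ)), g s ∈ US κ 2 κ F) ↔
      ∀ φ ∈ F, ∀ᶠ s in (UF κ : Filter (Finset κ)), 1 + φ * g s ∈ Pw κ 2 := by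
    rw [← Filter.eventually_all_finset]
    rfl
  rw [h1]
  refine forall₂_congr fun φ _ => ?_
  rw [alg_apply, ← Germ.coe_mul, ← Germ.coe_one, ← Germ.coe_add, mem_Pw_germ]
  rfl

/-- the theorem of Łoś for the relation -/
theorem iv_los {κ : Type u} [Field κ] {A : ValuationSubring κ} {F : Finset κ}
    {f x : Finset κ → κ} {c t : κ} :
    iv_R κ (UV (UF κ) A) F (↑f : Germ (UF κ : Filter (Finset κ)) κ)
      (↑x : Germ (UF κ : Filter (Finset κ)) κ) (algebraMap κ _ c) (algebraMap κ _ t) ↔
    ∀ᶠ s in (UF κ : Filter (Finset κ)), iv_R κ A F (f s) (x s) c t := by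
  classical
  have key : ∀ y : Finset κ → κ,
      ((↑y : Germ (UF κ : Filter (Finset κ)) κ) ^ 2 = 1 + ↑f * ↑x ∧
      ((↑y : Germ (UF κ : Filter (Finset κ)) κ) - 1) / algebraMap κ _ c ∈
        US κ 2 (Germ (UF κ : Filter (Finset κ)) κ) F ∧
      (UV (UF κ) A).valuation ((↑y : Germ (UF κ : Filter (Finset κ)) κ) - 1) <
        (UV (UF κ) A).valuation (algebraMap κ _ t)) ↔
      ∀ᶠ s in (UF κ : Filter (Finset κ)), (y s ^ 2 = 1 + f s * x s ∧
        (y s - 1) / c ∈ US κ 2 κ F ∧ A.valuation (y s - 1) < A.valuation t) := by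
    intro y
    rw [eventually_and, eventually_and, alg_apply, alg_apply, ← Germ.coe_pow, ← Germ.coe_mul,
      ← Germ.coe_one, ← Germ.coe_add, Germ.coe_eq, ← Germ.coe_sub, ← Germ.coe_div, iv_US, UV_lt]
    rfl
  constructor
  · rintro ⟨y, hy⟩
    induction y using Germ.inductionOn with | _ y
    filter_upwards [(key y).1 hy] with s hs
    exact ⟨y s, hs⟩
  · intro h
    let y : Finset κ → κ := fun s => if hs : iv_R κ A F (f s) (x s) c t then hs.choose else 0
    refine ⟨↑y, (key y).2 ?_⟩
    filter_upwards [h] with s hs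
    have h1 : y s = hs.choose := dif_pos hs
    rw [h1]
    exact hs.choose_spec

/-- Two independent valuation rings on a field `κ` of characteristic `0` with nonsquares, such
that the relevant relation has finite VC dimension, contradict `TL`. -/
theorem no_indep_of_val {κ : Type u} [Field κ] [CharZero κ] {A : Bool → ValuationSubring κ}
    (hA : ∀ i, A i ≠ ⊤) (hind : A true ⊔ A false = ⊤)
    (D : LD κ (Germ (UF κ : Filter (Finset κ)) κ) 2)
    (V : ValuationSubring (Germ (UF κ : Filter (Finset κ)) κ)) (hV : V ≠ ⊤)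
    (hVK : ∀ a : κ, algebraMap κ (Germ (UF κ : Filter (Finset κ)) κ) a ∈ V)
    (hVJ : ∀ x, V.valuation x < 1 ↔ x ∈ Inf κ (Pw (Germ (UF κ : Filter (Finset κ)) κ) 2))
    (hVC : ∀ (i : Bool) (F : Finset κ), ∃ d : ℕ, ∀ (f : Fin d → κ) (c t : κ),
      ∃ J : Finset (Fin d), ∀ x : κ, ∃ j, ¬ ((∃ y, y ^ 2 = 1 + f j * x ∧
        (y - 1) / c ∈ US κ 2 κ F ∧ (A i).valuation (y - 1) < (A i).valuation t) ↔ j ∈ J)) :
    False := by
  classical
  obtain ⟨i, hi⟩ := sup_bddV hA hind V
  set k := Germ (UF κ : Filter (Finset κ)) κ with hk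
  set W := bddV (A i) with hW
  have hWK : ∀ a : κ, algebraMap κ k a ∈ W := fun a => alg_mem_bddV a
  have hWtop : W ≠ ⊤ := bddV_ne_top (hA i)
  let O : Bool → ValuationSubring k := fun b => bif b then V else W
  let β : Bool → k := fun _ => 1
  have hOt : O true = V := rfl
  have hOf : O false = W := rfl
  have hB : ∀ x, x ∈ BSet O β ↔ V.valuation x < 1 ∧ W.valuation x < 1 := by
    intro x
    constructor
    · intro h
      have h1 := h true
      have h2 := h false
      rw [show β true = 1 from rfl, map_one] at h1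
      rw [show β false = 1 from rfl, map_one] at h2
      exact ⟨h1, h2⟩
    · rintro ⟨h1, h2⟩ (_ | _)
      · rw [show β false = 1 from rfl, map_one]
        exact h2
      · rw [show β true = 1 from rfl, map_one]
        exact h1
  -- `2` is a unit
  have h2u : ∀ S : ValuationSubring k, (∀ a : κ, algebraMap κ k a ∈ S) →
      S.valuation (2 : k) = 1 := by
    intro S hS
    have e1 : (2 : k) ∈ S := by
      have := hS 2
      rwa [map_ofNat] at this
    have e2 : (2 : k)⁻¹ ∈ S := by
      have := hS 2⁻¹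
      rwa [map_inv₀, map_ofNat] at this
    have h20 : (2 : k) ≠ 0 := by
      have h : algebraMap κ k 2 ≠ 0 := (map_ne_zero _).2 two_ne_zero
      rwa [map_ofNat] at h
    refine le_antisymm ((S.valuation_le_one_iff _).2 e1) ?_
    have e3 := (S.valuation_le_one_iff _).2 e2
    rw [map_inv₀] at e3
    exact (inv_le_one₀ (zero_lt_iff.2 ((S.valuation).ne_zero_iff.2 h20))).1 e3
  have hV2 := h2u V hVK
  have hW2 := h2u W hWK
  -- classes of square roots of one
  have hpm : ∀ (S : ValuationSubring k) (y : k), S.valuation (y ^ 2 - 1) < 1 →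
      S.valuation (y - 1) < 1 ∨ S.valuation (y + 1) < 1 := by
    intro S y h
    by_contra hcon
    push Not at hcon
    have e : y ^ 2 - 1 = (y - 1) * (y + 1) := by ring
    rw [e, map_mul] at h
    have := mul_le_mul' hcon.1 hcon.2
    rw [mul_one] at this
    exact absurd h (not_lt.2 this)
  have hnotboth : ∀ (S : ValuationSubring k) (y : k), S.valuation (2 : k) = 1 →
      S.valuation (y - 1) < 1 → S.valuation (y + 1) < 1 → False := by
    intro S y h2 h3 h4
    have h5 := Valuation.map_sub_lt _ h4 h3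
    rw [show y + 1 - (y - 1) = 2 by ring, h2] at h5
    exact lt_irrefl _ h5
  have hval1 : ∀ (S : ValuationSubring k) (y : k), S.valuation (y + 1) < 1 →
      S.valuation y = 1 := by
    intro S y h
    have h1 : y = -(1 + -(y + 1)) := by ring
    rw [h1, Valuation.map_neg]
    exact Valuation.map_one_add_of_lt _ (by rwa [Valuation.map_neg])
  have hval1' : ∀ (S : ValuationSubring k) (y : k), S.valuation (y - 1) < 1 →
      S.valuation y = 1 := by
    intro S y h
    have h1 : y = 1 + (y - 1) := by ring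
    rw [h1]
    exact Valuation.map_one_add_of_lt _ h
  let P : k → Prop := fun z => ∃ y, y ^ 2 = z ∧ V.valuation (y - 1) < 1 ∧ W.valuation (y - 1) < 1
  let N : k → Prop := fun z => ∃ y, y ^ 2 = z ∧ V.valuation (y - 1) < 1 ∧ W.valuation (y + 1) < 1
  have hPN : ∀ x, V.valuation x < 1 → W.valuation x < 1 → P (1 + x) ∨ N (1 + x) := by
    intro x hx1 hx2
    have h1 := (hVJ x).1 hx1
    have h2 : 1 + x ∈ Pw k 2 := by
      have := h1 1
      rwa [map_one, one_mul] at this
    obtain ⟨y, hy0, hy⟩ := h2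
    have hyV : V.valuation (y ^ 2 - 1) < 1 := by rw [← hy, add_sub_cancel_left]; exact hx1
    have hyW : W.valuation (y ^ 2 - 1) < 1 := by rw [← hy, add_sub_cancel_left]; exact hx2
    obtain ⟨y', hy', hy'V⟩ : ∃ y', y' ^ 2 = 1 + x ∧ V.valuation (y' - 1) < 1 := by
      rcases hpm V y hyV with h | h
      · exact ⟨y, hy.symm, h⟩
      · refine ⟨-y, by rw [hy]; ring, ?_⟩
        rw [show -y - 1 = -(y + 1) by ring, Valuation.map_neg]
        exact h
    have hy'W : W.valuation (y' ^ 2 - 1) < 1 := by
      rw [hy', add_sub_cancel_left]; exact hx2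
    rcases hpm W y' hy'W with h | h
    · exact Or.inl ⟨y', hy', hy'V, h⟩
    · exact Or.inr ⟨y', hy', hy'V, h⟩
  have hPnN : ∀ z, P z → N z → False := by
    rintro z ⟨y, hy, h1, h2⟩ ⟨y', hy', h3, h4⟩
    have h5 : (y - y') * (y + y') = 0 := by
      have : y ^ 2 = y' ^ 2 := hy.trans hy'.symm
      linear_combination this
    rcases mul_eq_zero.1 h5 with h6 | h6
    · have : y = y' := sub_eq_zero.1 h6
      subst this
      exact hnotboth W y hW2 h2 h4
    · have h7 : y' = -y := by linear_combination h6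
      subst h7
      refine hnotboth V y hV2 h1 ?_
      rw [show y + 1 = -(-y - 1) by ring, Valuation.map_neg]
      exact h3
  -- the group and the character
  let Q : Type := Multiplicative (ZMod 2)
  let q : Q := Multiplicative.ofAdd 1
  have hq1 : q ≠ 1 := by decide
  have hqq : q * q = 1 := by decide
  let c : k → Q := fun z => if P z then 1 else q
  have hcP : ∀ {z}, P z → c z = 1 := fun h => if_pos h
  have hcN : ∀ {z}, N z → c z = q := fun {z} h => if_neg fun hP => hPnN z hP h
  have hmul : ∀ (S : ValuationSubring k) (y y' : k), S.valuation (y - 1) < 1 →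
      S.valuation (y' - 1) < 1 → S.valuation (y * y' - 1) < 1 := by
    intro S y y' h1 h2
    have e : y * y' - 1 = (y - 1) * y' + (y' - 1) := by ring
    rw [e]
    refine Valuation.map_add_lt _ ?_ h2
    rw [map_mul, hval1' S y' h2, mul_one]
    exact h1
  have hc : ∀ x ∈ BSet O β, ∀ y ∈ BSet O β, c ((1 + x) * (1 + y)) = c (1 + x) * c (1 + y) := by
    intro x hx y hy
    rw [hB] at hx hy
    rcases hPN x hx.1 hx.2 with hP1 | hN1 <;> rcases hPN y hy.1 hy.2 with hP2 | hN2
    · rw [hcP hP1, hcP hP2, mul_one]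
      obtain ⟨u, hu, hu1, hu2⟩ := hP1
      obtain ⟨v, hv, hv1, hv2⟩ := hP2
      exact hcP ⟨u * v, by rw [mul_pow, hu, hv], hmul V u v hu1 hv1, hmul W u v hu2 hv2⟩
    · rw [hcP hP1, hcN hN2, one_mul]
      obtain ⟨u, hu, hu1, hu2⟩ := hP1
      obtain ⟨v, hv, hv1, hv2⟩ := hN2
      refine hcN ⟨u * v, by rw [mul_pow, hu, hv], hmul V u v hu1 hv1, ?_⟩
      have := hmul W u (-v) hu2 (by rw [show -v - 1 = -(v + 1) by ring, Valuation.map_neg]; exact hv2)
      rw [show u * v + 1 = -(u * -v - 1) by ring, Valuation.map_neg]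
      exact this
    · rw [hcN hN1, hcP hP2, mul_one]
      obtain ⟨u, hu, hu1, hu2⟩ := hN1
      obtain ⟨v, hv, hv1, hv2⟩ := hP2
      refine hcN ⟨u * v, by rw [mul_pow, hu, hv], hmul V u v hu1 hv1, ?_⟩
      have := hmul W (-u) v (by rw [show -u - 1 = -(u + 1) by ring, Valuation.map_neg]; exact hu2) hv2
      rw [show u * v + 1 = -(-u * v - 1) by ring, Valuation.map_neg]
      exact this
    · rw [hcN hN1, hcN hN2, hqq]
      obtain ⟨u, hu, hu1, hu2⟩ := hN1
      obtain ⟨v, hv, hv1, hv2⟩ := hN2
      refine hcP ⟨u * v, by rw [mul_pow, hu, hv], hmul V u v hu1 hv1, ?_⟩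
      have := hmul W (-u) (-v)
        (by rw [show -u - 1 = -(u + 1) by ring, Valuation.map_neg]; exact hu2)
        (by rw [show -v - 1 = -(v + 1) by ring, Valuation.map_neg]; exact hv2)
      rwa [neg_mul_neg] at this
  -- the VC condition in the ultrapower
  obtain ⟨F, hF⟩ := D.exists_UGood
  obtain ⟨d, hd⟩ := hVC i F
  have hWlt : ∀ u : k, W.valuation u < 1 ↔ ∀ a : κ, a ≠ 0 →
      (UV (UF κ) (A i)).valuation u < (UV (UF κ) (A i)).valuation (algebraMap κ _ a) :=
    fun u => bddV_lt_one
  have hVCk : ∀ f : Fin d → k, ∃ J : Finset (Fin d), ∀ x : k,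
      (∀ j, f j * x ∈ BSet O β) → ∃ j, ¬ (P (1 + f j * x) ↔ j ∈ J) := by
    intro f
    by_contra hcon
    push Not at hcon
    choose x hx1 hx2 using hcon
    -- roots
    have hroot : ∀ (j : Fin d) (J : Finset (Fin d)), ∃ y : k, y ^ 2 = 1 + f j * x J := by
      intro j J
      have h1 := (hB _).1 (hx1 J j)
      rcases hPN _ h1.1 h1.2 with ⟨y, hy, -⟩ | ⟨y, hy, -⟩
      · exact ⟨y, hy⟩
      · exact ⟨y, hy⟩
    choose y hy using hroot
    let Z : Finset k := (Finset.univ.image fun p : Fin d × Finset (Fin d) => y p.1 p.2 - 1) ∪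
      (Finset.univ.image fun p : Fin d × Finset (Fin d) => -y p.1 p.2 - 1)
    obtain ⟨cc, hcc, hscale⟩ := hF.exists_scale D Z
    obtain ⟨t, ht0, ht⟩ : ∃ t : κ, t ≠ 0 ∧ ∀ z ∈ Z, W.valuation z < 1 ↔
        (UV (UF κ) (A i)).valuation z < (UV (UF κ) (A i)).valuation (algebraMap κ k t) := by
      have h1 : ∀ z : k, ∃ a : κ, a ≠ 0 ∧ (¬ W.valuation z < 1 →
          (UV (UF κ) (A i)).valuation (algebraMap κ k a) ≤ (UV (UF κ) (A i)).valuation z) := by
        intro z
        by_cases hz : W.valuation z < 1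
        · exact ⟨1, one_ne_zero, fun h => absurd hz h⟩
        · rw [hWlt] at hz
          push Not at hz
          obtain ⟨a, ha, hle⟩ := hz
          exact ⟨a, ha, fun _ => hle⟩
      choose a ha0 ha using h1
      have h2 : ∀ Z : Finset k, ∃ t : κ, t ≠ 0 ∧ ∀ z ∈ Z,
          (UV (UF κ) (A i)).valuation (algebraMap κ k t) ≤
            (UV (UF κ) (A i)).valuation (algebraMap κ k (a z)) := by
        intro Z
        induction Z using Finset.induction_on with
        | empty => exact ⟨1, one_ne_zero, by simp⟩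
        | insert z Z _ ih =>
          obtain ⟨t, ht0, ht⟩ := ih
          rcases le_total ((UV (UF κ) (A i)).valuation (algebraMap κ k t))
            ((UV (UF κ) (A i)).valuation (algebraMap κ k (a z))) with h | h
          · refine ⟨t, ht0, fun w hw => ?_⟩
            rcases Finset.mem_insert.1 hw with rfl | hw
            · exact h
            · exact ht w hw
          · refine ⟨a z, ha0 z, fun w hw => ?_⟩
            rcases Finset.mem_insert.1 hw with rfl | hw
            · exact le_rfl
            · exact h.trans (ht w hw)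
      obtain ⟨t, ht0, ht⟩ := h2 Z
      refine ⟨t, ht0, fun z hz => ⟨fun h => (hWlt z).1 h t ht0, fun h => ?_⟩⟩
      by_contra hcon
      exact absurd (h.trans_le ((ht z hz).trans (ha z hcon))) (lt_irrefl _)
    -- the relation in the ultrapower
    have hPR : ∀ j J, P (1 + f j * x J) ↔ iv_R κ (UV (UF κ) (A i)) F (f j) (x J)
        (algebraMap κ k cc) (algebraMap κ k t) := by
      intro j J
      have hcase : ∀ w : k, w ^ 2 = 1 + f j * x J → w - 1 ∈ Z := by
        intro w hw
        have h5 : (w - y j J) * (w + y j J) = 0 := by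
          have : w ^ 2 = y j J ^ 2 := hw.trans (hy j J).symm
          linear_combination this
        rcases mul_eq_zero.1 h5 with h6 | h6
        · rw [sub_eq_zero.1 h6]
          exact Finset.mem_union_left _ (Finset.mem_image.2 ⟨(j, J), Finset.mem_univ _, rfl⟩)
        · have h7 : w = -y j J := by linear_combination h6
          rw [h7]
          exact Finset.mem_union_right _ (Finset.mem_image.2 ⟨(j, J), Finset.mem_univ _, rfl⟩)
      constructor
      · rintro ⟨w, hw, hw1, hw2⟩
        have hm := hcase w hw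
        exact ⟨w, hw, (hscale _ hm).1 ((hVJ _).1 hw1), (ht _ hm).1 hw2⟩
      · rintro ⟨w, hw, hw1, hw2⟩
        have hm := hcase w hw
        exact ⟨w, hw, (hVJ _).2 ((hscale _ hm).2 hw1), (ht _ hm).2 hw2⟩
    -- representatives
    have hrep : ∀ z : k, ∃ g : Finset κ → κ, (↑g : k) = z := by
      intro z
      induction z using Germ.inductionOn with | _ g
      exact ⟨g, rfl⟩
    choose rep hreps using hrep
    have hlos : ∀ j J, ∀ᶠ s in (UF κ : Filter (Finset κ)),
        (iv_R κ (A i) F (rep (f j) s) (rep (x J) s) cc t ↔ j ∈ J) := by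
      intro j J
      have h2 := (hPR j J).symm.trans (hx2 J j)
      rw [← hreps (f j), ← hreps (x J), iv_los] at h2
      by_cases hj : j ∈ J
      · filter_upwards [h2.2 hj] with s hs
        exact ⟨fun _ => hj, fun _ => hs⟩
      · have h3 : ¬ ∀ᶠ s in (UF κ : Filter (Finset κ)),
            iv_R κ (A i) F (rep (f j) s) (rep (x J) s) cc t := fun h => hj (h2.1 h)
        rw [← Ultrafilter.eventually_not] at h3
        filter_upwards [h3] with s hs
        exact ⟨fun h => absurd h hs, fun h => absurd h hj⟩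
    have hall : ∀ᶠ s in (UF κ : Filter (Finset κ)), ∀ j J,
        (iv_R κ (A i) F (rep (f j) s) (rep (x J) s) cc t ↔ j ∈ J) := by
      rw [eventually_all]
      intro j
      rw [eventually_all]
      exact fun J => hlos j J
    obtain ⟨s, hs⟩ := hall.exists
    obtain ⟨J, hJ⟩ := hd (fun j => rep (f j) s) cc t
    obtain ⟨j, hj⟩ := hJ (rep (x J) s)
    exact hj (hs j J)
  have hVC' : ∀ r : Q, ∃ d : ℕ, ∀ f : Fin d → k, ∃ J : Finset (Fin d), ∀ x : k,
      (∀ i, f i * x ∈ BSet O β) → ∃ i, ¬ (c (1 + f i * x) = r ↔ i ∈ J) := by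
    intro r
    refine ⟨d, fun f => ?_⟩
    obtain ⟨J, hJ⟩ := hVCk f
    have hcz : ∀ z, c z = 1 ↔ P z := by
      intro z
      constructor
      · intro h
        by_contra hP
        exact hq1 ((if_neg hP : c z = q).symm.trans h)
      · exact fun h => hcP h
    by_cases hr : r = 1
    · subst hr
      refine ⟨J, fun x hx => ?_⟩
      obtain ⟨j, hj⟩ := hJ x hx
      exact ⟨j, by rw [hcz]; exact hj⟩
    · refine ⟨Jᶜ, fun x hx => ?_⟩
      obtain ⟨j, hj⟩ := hJ x hx
      refine ⟨j, ?_⟩
      have hr' : r = q := by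
        revert hr
        revert r
        decide
      have hcq : c (1 + f j * x) = r ↔ ¬ P (1 + f j * x) := by
        rw [hr']
        constructor
        · intro h hP
          rw [hcP hP] at h
          exact hq1 h.symm
        · intro h
          exact if_neg h
      rw [hcq, Finset.mem_compl]
      tauto
  -- the local character theorem
  have hOne : ∀ b, O b ≠ ⊤ := by
    rintro (_ | _)
    · exact hWtop
    · exact hV
  obtain ⟨e, he1, he2, -, he4⟩ := local_character (O := O) (β := β) hOne hi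
    (fun _ => one_ne_zero) (fun b => by
      rw [show β b = 1 from rfl, map_one]) (c := c) hc hVC' (b := 1) one_ne_zero
    (Polynomial.C (-4))
  rw [map_one] at he1 he2
  change V.valuation (e - 1) < 1 at he1
  change W.valuation e < 1 at he2
  have hP : P (1 + e * (1 - e) * Polynomial.eval e (Polynomial.C (-4))) := by
    by_contra hP
    exact hq1 ((if_neg hP : c _ = q).symm.trans he4)
  rw [Polynomial.eval_C] at hP
  obtain ⟨y, hy, hy1, hy2⟩ := hP
  have h5 : (y - (1 - 2 * e)) * (y + (1 - 2 * e)) = 0 := by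
    linear_combination hy
  rcases mul_eq_zero.1 h5 with h6 | h6
  · -- `e` would be small for `V`
    have h7 : y - 1 = -(2 * e) := by linear_combination h6
    rw [h7, Valuation.map_neg, map_mul, hV2, one_mul] at hy1
    have h8 := Valuation.map_sub_lt _ hy1 he1
    rw [show e - (e - 1) = 1 by ring, map_one] at h8
    exact lt_irrefl _ h8
  · have h7 : y - 1 = 2 * (e - 1) := by linear_combination h6
    rw [h7, map_mul, hW2, one_mul] at hy2
    have h8 := Valuation.map_sub_lt _ he2 hy2
    rw [show e - (e - 1) = 1 by ring, map_one] at h8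
    exact lt_irrefl _ h8

end Pool.Agent.NIPFields.LZ
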