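import Mathlib
import Pool.Agent.NIPFields.LZ.Compat
import Pool.Agent.NIPFields.LZ.IndepP
import Pool.Agent.NIPFields.LZ.IndepV

set_option autoImplicit false

/-!
# Incomparable definable valuation rings: residue characteristic zero of the join
-/

namespace Pool.Agent.NIPFields.LZ

open FirstOrder FirstOrder.Language FirstOrder.Ring Set IsLocalRing Filter
open Pool.Agent.NIPFields.LC Pool.Agent.NIPFields.LG Pool.Agent.NIPFields.FI

universe u

attribute [local instance] germAlg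

section

variable {K : Type u} [Field K] [CompatibleRing K] {L : Type u} [Field L] [Algebra K L] {d : ℕ}
  {e : Module.Basis (Fin d) K L}

theorem i0_res_lt {L : Type*} [Field L] {U : ValuationSubring L} (E : U) :
    U.valuation (E : L) < 1 ↔ residue U E = 0 := by
  rw [← U.valuation_lt_one_iff, residue_eq_zero_iff]

/-- The finite VC dimension of the relation on the residue field of the join. -/
theorem i0_vc (hK : NIP K) {A U : ValuationSubring L} (hdA : LDef₁ e {x | x ∈ A})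
    (hdU : LDef₁ e {x | x ∈ U}) (hu : A ≤ U) (F : Finset (ResidueField U)) :
    ∃ d : ℕ, ∀ (f : Fin d → ResidueField U) (c t : ResidueField U),
      ∃ J : Finset (Fin d), ∀ x : ResidueField U, ∃ j, ¬ ((∃ y, y ^ 2 = 1 + f j * x ∧
        (y - 1) / c ∈ US (ResidueField U) 2 (ResidueField U) F ∧
        (resVal hu).valuation (y - 1) < (resVal hu).valuation t) ↔ j ∈ J) := by
  classical
  have hlift : ∀ y : ResidueField U, ∃ x : U, residue U x = y := residue_surjective
  choose lift hl using hlift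
  set m := F.card with hm
  let φ : Fin m → ResidueField U := fun j => (F.equivFin.symm j : ResidueField U)
  have hφ : ∀ z ∈ F, ∃ j, φ j = z := by
    intro z hz
    exact ⟨F.equivFin ⟨z, hz⟩, by simp [φ]⟩
  have hφ' : ∀ j, φ j ∈ F := fun j => (F.equivFin.symm j).2
  have hMA := ldef_max hdA
  have hMU : LDef₁ e {x | U.valuation x < 1} := ldef_max hdU
  have h1 : LDef e {v : (Fin 3 ⊕ Fin 1) ⊕ Fin (m + 1) → L |
      v (Sum.inr 0) ∈ {x | A.valuation x < 1}} := LDef₁.mem hMA (LFun.var _)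
  have h2 : LDef e {v : (Fin 3 ⊕ Fin 1) ⊕ Fin (m + 1) → L |
      (1 + v (Sum.inl (Sum.inl 2)) * v (Sum.inr 0)) ^ 2 -
        (1 + v (Sum.inl (Sum.inl 0)) * v (Sum.inl (Sum.inr 0))) ∈ {x | U.valuation x < 1}} := by
    refine LDef₁.mem hMU (LFun.sub (LFun.pow (LFun.add (LFun.const 1)
      (LFun.mul (LFun.var _) (LFun.var _))) _) (LFun.add (LFun.const 1)
      (LFun.mul (LFun.var _) (LFun.var _))))
  have h3 : ∀ j : Fin m, LDef e {v : (Fin 3 ⊕ Fin 1) ⊕ Fin (m + 1) → L |
      1 + (lift (φ j) : L) * ((v (Sum.inl (Sum.inl 2)) * v (Sum.inr 0)) *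
        v (Sum.inl (Sum.inl 1))) - v (Sum.inr j.succ) ^ 2 ∈ {x | U.valuation x < 1}} := by
    intro j
    refine LDef₁.mem hMU (LFun.sub (LFun.add (LFun.const 1) (LFun.mul (LFun.const _)
      (LFun.mul (LFun.mul (LFun.var _) (LFun.var _)) (LFun.var _)))) (LFun.pow (LFun.var _) _))
  have h4 : ∀ j : Fin m, LDef e {v : (Fin 3 ⊕ Fin 1) ⊕ Fin (m + 1) → L |
      v (Sum.inr j.succ) ∈ {x | x ∈ U}} := fun j => LDef₁.mem hdU (LFun.var _)
  have h5 : ∀ j : Fin m, LDef e {v : (Fin 3 ⊕ Fin 1) ⊕ Fin (m + 1) → L |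
      v (Sum.inr j.succ) ∈ {x | U.valuation x < 1}}ᶜ := fun j =>
    (LDef₁.mem hMU (LFun.var _)).compl
  have h6 := ((h1.inter h2).inter (LDef.iInter fun j => ((h3 j).inter (h4 j)).inter (h5 j))).exists
  obtain ⟨n, hn⟩ := hK.ldef h6
  have hn0 : Nonempty (Fin n) := ⟨(hn (fun _ _ => 0) (fun _ _ => 0)).choose⟩
  refine ⟨n, fun f c t => ?_⟩
  by_cases ht0 : t = 0
  · refine ⟨Finset.univ, fun x => ⟨hn0.some, ?_⟩⟩
    rintro ⟨-, h⟩
    obtain ⟨y, -, -, h7⟩ := h (Finset.mem_univ _)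
    rw [ht0, map_zero] at h7
    exact absurd h7 not_lt_zero
  by_contra hcon
  push Not at hcon
  choose x hx using hcon
  obtain ⟨i, J, hiJ⟩ := hn (fun i => ![(lift (f i) : L), (lift c⁻¹ : L), (lift t : L)])
    (fun J _ => (lift (x J) : L))
  apply hiJ
  rw [← hx J i]
  clear hiJ
  simp only [mem_ofPred_eq, mem_inter_iff, mem_iInter, mem_compl_iff, Sum.elim_inl, Sum.elim_inr,
    Matrix.cons_val_zero, Matrix.cons_val_one, Matrix.cons_val]
  have htv : 0 < (resVal hu).valuation t :=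
    zero_lt_iff.2 (((resVal hu).valuation).ne_zero_iff.2 ht0)
  -- the key equivalences
  have key2 : ∀ w : U, U.valuation ((1 + (lift t : L) * (w : L)) ^ 2 -
        (1 + (lift (f i) : L) * (lift (x J) : L))) < 1 ↔
      (1 + t * residue U w) ^ 2 = 1 + f i * x J := by
    intro w
    have e1 : (1 + (lift t : L) * (w : L)) ^ 2 - (1 + (lift (f i) : L) * (lift (x J) : L)) =
        (((1 + lift t * w) ^ 2 - (1 + lift (f i) * lift (x J)) : U) : L) := by
      push_cast
      rfl
    rw [e1, i0_res_lt, map_sub, map_pow, map_add, map_mul, map_one, map_add, map_mul, map_one,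
      hl, hl, hl, sub_eq_zero]
  have key3 : ∀ (j : Fin m) (w b : U), U.valuation (1 + (lift (φ j) : L) *
        (((lift t : L) * (w : L)) * (lift c⁻¹ : L)) - (b : L) ^ 2) < 1 ↔
      1 + φ j * ((t * residue U w) * c⁻¹) = residue U b ^ 2 := by
    intro j w b
    have e1 : 1 + (lift (φ j) : L) * (((lift t : L) * (w : L)) * (lift c⁻¹ : L)) - (b : L) ^ 2 =
        ((1 + lift (φ j) * ((lift t * w) * lift c⁻¹) - b ^ 2 : U) : L) := by
      push_cast
      rfl
    rw [e1, i0_res_lt, map_sub, map_pow, map_add, map_mul, map_mul, map_mul, map_one, hl, hl, hl,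
      sub_eq_zero]
  constructor
  · rintro ⟨v, ⟨hv1, hv2⟩, hv3⟩
    have hvU : v 0 ∈ U := hu ((A.valuation_le_one_iff _).1 hv1.le)
    refine ⟨1 + t * residue U ⟨v 0, hvU⟩, (key2 ⟨v 0, hvU⟩).1 hv2, ?_, ?_⟩
    · intro z hz
      obtain ⟨j, rfl⟩ := hφ z hz
      obtain ⟨⟨h7, h8⟩, h9⟩ := hv3 j
      refine ⟨residue U ⟨v j.succ, h8⟩, ?_, ?_⟩
      · intro h0
        exact h9 ((i0_res_lt (⟨v j.succ, h8⟩ : U)).2 h0)
      · have h10 := (key3 j ⟨v 0, hvU⟩ ⟨v j.succ, h8⟩).1 h7
        rw [← h10, add_sub_cancel_left, div_eq_mul_inv]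
        rfl
    · rw [add_sub_cancel_left, map_mul]
      refine mul_lt_of_lt_one_right htv ?_
      exact (resVal_val_lt_one _).2 hv1
  · rintro ⟨y, hy1, hy2, hy3⟩
    obtain ⟨w, hw⟩ := residue_surjective ((y - 1) / t)
    have hyw : y = 1 + t * residue U w := by
      rw [hw]; field_simp; ring
    have hwA : A.valuation (w : L) < 1 := by
      refine (resVal_val_lt_one hu).1 ?_
      rw [hw, map_div₀]
      exact (div_lt_one₀ htv).2 hy3
    have hb : ∀ j : Fin m, ∃ b : U, residue U b ≠ 0 ∧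
        1 + φ j * ((t * residue U w) * c⁻¹) = residue U b ^ 2 := by
      intro j
      obtain ⟨b, hb0, hb⟩ := hy2 (φ j) (hφ' j)
      refine ⟨lift b, by rw [hl]; exact hb0, ?_⟩
      rw [hl, ← hb, hyw, add_sub_cancel_left, div_eq_mul_inv]
      rfl
    choose b hb0 hb using hb
    refine ⟨Fin.cons (w : L) (fun j => (b j : L)), ⟨⟨?_, ?_⟩, fun j => ⟨⟨?_, ?_⟩, ?_⟩⟩⟩
    · rw [Fin.cons_zero]
      exact hwA
    · rw [Fin.cons_zero]
      exact (key2 w).2 (by rw [← hyw]; exact hy1)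
    · rw [Fin.cons_zero, Fin.cons_succ]
      exact (key3 j w (b j)).2 (hb j)
    · rw [Fin.cons_succ]
      exact (b j).2
    · rw [Fin.cons_succ]
      intro h
      exact hb0 j ((i0_res_lt (b j)).1 h)

end

theorem no_incomparable_char0 {K : Type u} [Field K] [CompatibleRing K] (hK : NIP K) {L : Type u}
    [Field L] [Algebra K L] [FiniteDimensional K L]
    (O₁ O₂ : ValuationSubring L)
    (h₁ : ¬ O₁ ≤ O₂) (h₂ : ¬ O₂ ≤ O₁) (hd₁ : LDef₁ (Module.finBasis K L) {x | x ∈ O₁})
    (hd₂ : LDef₁ (Module.finBasis K L) {x | x ∈ O₂})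
    (hchar : CharZero (ResidueField (O₁ ⊔ O₂ : ValuationSubring L)))
    (hTL : ∀ (F : Type u) [Field F] [CompatibleRing F]
      (_ : ResidueField (O₁ ⊔ O₂ : ValuationSubring L) →+* F), NIP F → TL F 2) : False := by
  classical
  set U : ValuationSubring L := O₁ ⊔ O₂ with hU
  have hdU : LDef₁ (Module.finBasis K L) {x | x ∈ U} := ldef_sup hd₁ hd₂
  have hu₁ : O₁ ≤ U := le_sup_left
  have hu₂ : O₂ ≤ U := le_sup_right
  have hn₁ : resVal hu₁ ≠ ⊤ := resVal_ne_top hu₁ (fun h => h₂ (hu₂.trans h))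
  have hn₂ : resVal hu₂ ≠ ⊤ := resVal_ne_top hu₂ (fun h => h₁ (hu₁.trans h))
  have hsup : resVal hu₁ ⊔ resVal hu₂ = ⊤ := resVal_sup O₁ O₂
  have h20 : ((2 : ℕ) : ResidueField U) ≠ 0 := by
    exact_mod_cast (two_ne_zero : (2 : ResidueField U) ≠ 0)
  have hprim : IsPrimitiveRoot (-1 : ResidueField U) 2 := by
    have hne : (-1 : ResidueField U) ≠ 1 := by
      intro h
      apply (two_ne_zero : (2 : ResidueField U) ≠ 0)
      linear_combination -h
    have hord : orderOf (-1 : ResidueField U) = 2 := orderOf_eq_prime (by norm_num) hne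
    rw [← hord]
    exact IsPrimitiveRoot.orderOf _
  by_cases hsq : ∃ a : ResidueField U, ∀ y, a ≠ y ^ 2
  · let _ : CompatibleRing (ResidueField U) := compatibleRingOfRing (ResidueField U)
    have hNIP : NIP (ResidueField U) := nip_residue hK U hdU
    obtain ⟨D, V, hV, hVK, hVJ⟩ := exists_val_of_TL hNIP Nat.prime_two h20 hprim hTL hsq
    let A : Bool → ValuationSubring (ResidueField U) := fun b => bif b then resVal hu₁ else resVal hu₂
    refine no_indep_of_val (A := A) ?_ hsup D V hV hVK hVJ ?_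
    · rintro (_ | _)
      · exact hn₂
      · exact hn₁
    · rintro (_ | _) F
      · exact i0_vc hK hd₂ hdU hu₂ F
      · exact i0_vc hK hd₁ hdU hu₁ F
  · push Not at hsq
    refine LC.TT hn₁ hn₂ hsup le_rfl h20 hprim ?_ (vc_res hK hd₁ hd₂ hdU hu₁ hu₂ 2 h20)
    have htop : (powMonoidHom 2 : (ResidueField U)ˣ →* (ResidueField U)ˣ).range = ⊤ := by
      rw [eq_top_iff]
      intro z _
      obtain ⟨y, hy⟩ := hsq (z : ResidueField U)
      have hy0 : y ≠ 0 := by
        rintro rfl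
        rw [zero_pow two_ne_zero] at hy
        exact z.ne_zero hy
      refine ⟨Units.mk0 y hy0, Units.ext ?_⟩
      simp only [powMonoidHom_apply, Units.val_pow_eq_pow_val, Units.val_mk0]
      exact hy.symm
    rw [htop]
    infer_instance

end Pool.Agent.NIPFields.LZ
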