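import Mathlib
import Pool.Agent.NIPFields.LZ.Indep0
import Pool.Agent.NIPFields.LC.TwoVal

set_option autoImplicit false

/-!
# Definable valuation rings are henselian
-/

namespace Pool.Agent.NIPFields.LZ

open FirstOrder FirstOrder.Language FirstOrder.Ring Set IsLocalRing Filter
open Pool.Agent.NIPFields.LC Pool.Agent.NIPFields.LG Pool.Agent.NIPFields.FI

universe u v

/-- Algebraic numbers are in every valuation ring with residue characteristic zero. -/
theorem mem_of_isAlgebraic {L : Type*} [Field L] (V : ValuationSubring L)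
    [CharZero (ResidueField V)] {x : L} (hx : IsAlgebraic ℤ x) : x ∈ V := by
  obtain ⟨y, hy0, hy⟩ := hx.exists_integral_multiple
  have h1 : IsIntegral V (y • x) := hy.tower_top
  have h2 : y • x ∈ V := by
    obtain ⟨z, hz⟩ := (IsIntegrallyClosed.isIntegral_iff (R := V) (K := L)).1 h1
    rw [← hz]
    exact z.2
  have h3 : IsUnit ((y : ℤ) : V) := by
    by_contra hcon
    have h4 : ((y : ℤ) : V) ∈ maximalIdeal V := (mem_maximalIdeal _).2 hcon
    rw [← residue_eq_zero_iff, map_intCast] at h4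
    exact hy0 (Int.cast_eq_zero.1 h4)
  obtain ⟨z, hz⟩ := h3.exists_left_inv
  have h5 : (z : L) * (y : L) = 1 := by
    have := congrArg (fun w : V => (w : L)) hz
    simpa using this
  have h6 : x = z * (y • x) := by
    rw [zsmul_eq_mul, ← mul_assoc, h5, one_mul]
  rw [h6]
  exact V.mul_mem _ _ z.2 h2

theorem henselian_of_definable_TL {k : Type v} [Field k] (hk : ∀ x : k, IsAlgebraic ℤ x)
    {K : Type u} [Field K] [CompatibleRing K] (φ : k →+* K) (hK : NIP K)
    (hTL : ∀ (F : Type u) [Field F] [CompatibleRing F] [CharZero F] (_ : k →+* F), NIP F →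
      ∀ ℓ : ℕ, ℓ.Prime → TL F ℓ)
    {O : ValuationSubring K} (hO : (univ : Set K).Definable₁ Language.ring {x | x ∈ O}) :
    HenselianLocalRing O := by
  by_contra hnh
  obtain ⟨L, _, _, _, -, O₁, O₂, h₁, h₂, hd₁, hd₂⟩ :=
    exists_incomparable_of_not_henselian hO hnh 1 one_ne_zero
  obtain ⟨p, hp⟩ := CharP.exists (ResidueField (O₁ ⊔ O₂ : ValuationSubring L))
  rcases CharP.char_is_prime_or_zero (ResidueField (O₁ ⊔ O₂ : ValuationSubring L)) p with
    hpp | rfl
  · exact no_incomparable_charP hK O₁ O₂ h₁ h₂ hd₁ hd₂ p hpp hp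
  · have h0 := CharP.charP_to_charZero (ResidueField (O₁ ⊔ O₂ : ValuationSubring L))
    refine no_incomparable_char0 hK O₁ O₂ h₁ h₂ hd₁ hd₂ h0 fun F _ _ g hF => ?_
    have : CharZero F := charZero_of_injective_ringHom g.injective
    let ψ : k →+* L := (algebraMap K L).comp φ
    have hψ : ∀ x, ψ x ∈ (O₁ ⊔ O₂ : ValuationSubring L) := fun x =>
      mem_of_isAlgebraic _ ((hk x).algHom (RingHom.toIntAlgHom ψ))
    exact hTL F (g.comp ((residue (O₁ ⊔ O₂ : ValuationSubring L)).comp
      (ψ.codRestrict (O₁ ⊔ O₂ : ValuationSubring L).toSubring hψ))) hF 2 Nat.prime_two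

end Pool.Agent.NIPFields.LZ
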