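import Mathlib
import Pool.Agent.NIPFields.LG.Large

set_option autoImplicit false

/-!
# Real closed fields are large
-/

namespace Pool.Agent.NIPFields.LZ

universe u

open Polynomial

section Order

variable {K : Type u} [Field K] [LinearOrder K] [IsStrictOrderedRing K]

private theorem ivt_irred (hsq : ∀ x : K, 0 ≤ x → IsSquare x) {p : K[X]} (hp : Irreducible p)
    (hd : p.natDegree ≤ 2) (a b : K) (hab : a < b) (h : p.eval a * p.eval b < 0) :
    ∃ c, a < c ∧ c < b ∧ p.eval c = 0 := by
  have h0 : 0 < p.natDegree := hp.natDegree_pos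
  by_cases h1 : p.natDegree = 1
  · obtain ⟨u, hu, v, rfl⟩ := Polynomial.natDegree_eq_one.1 h1
    simp only [eval_add, eval_mul, eval_C, eval_X] at h ⊢
    refine ⟨-v / u, ?_, ?_, by field_simp; ring⟩
    · rcases lt_or_gt_of_ne hu with hu' | hu'
      · rw [lt_div_iff_of_neg hu']
        by_contra hc
        push Not at hc
        nlinarith [mul_lt_mul_of_neg_left hab hu']
      · rw [lt_div_iff₀ hu']
        by_contra hc
        push Not at hc
        nlinarith [mul_lt_mul_of_pos_left hab hu']
    · rcases lt_or_gt_of_ne hu with hu' | hu'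
      · rw [div_lt_iff_of_neg hu']
        by_contra hc
        push Not at hc
        nlinarith [mul_lt_mul_of_neg_left hab hu']
      · rw [div_lt_iff₀ hu']
        by_contra hc
        push Not at hc
        nlinarith [mul_lt_mul_of_pos_left hab hu']
  · exfalso
    have h2 : p.natDegree = 2 := by omega
    obtain ⟨u, v, w, hu, rfl⟩ : ∃ u v w : K, u ≠ 0 ∧ p = C u * X ^ 2 + C v * X + C w := by
      refine ⟨p.coeff 2, p.coeff 1, p.coeff 0, ?_, ?_⟩
      · rw [← h2]
        exact fun hc => hp.ne_zero (Polynomial.leadingCoeff_eq_zero.1 hc)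
      · exact Polynomial.eq_quadratic_of_degree_le_two
          ((Polynomial.natDegree_le_iff_degree_le).1 h2.le)
    have hroot : ∀ x : K, (C u * X ^ 2 + C v * X + C w : K[X]).eval x ≠ 0 := by
      intro x hx
      have := Polynomial.degree_eq_one_of_irreducible_of_root hp hx
      rw [Polynomial.degree_eq_natDegree hp.ne_zero, h2] at this
      norm_num at this
    have hdisc : 0 < 4 * u * w - v ^ 2 := by
      by_contra hc
      push Not at hc
      obtain ⟨s, hs⟩ := hsq (v ^ 2 - 4 * u * w) (by linarith)
      apply hroot ((-v + s) / (2 * u))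
      simp only [eval_add, eval_mul, eval_C, eval_X, eval_pow]
      have : u * ((-v + s) / (2 * u)) ^ 2 + v * ((-v + s) / (2 * u)) + w
          = (s * s - (v ^ 2 - 4 * u * w)) / (4 * u) := by
        field_simp
        ring
      rw [this, hs, sub_self, zero_div]
    simp only [eval_add, eval_mul, eval_C, eval_X, eval_pow] at h
    have ha : 0 < 4 * u * (u * a ^ 2 + v * a + w) := by
      nlinarith [sq_nonneg (2 * u * a + v)]
    have hb : 0 < 4 * u * (u * b ^ 2 + v * b + w) := by
      nlinarith [sq_nonneg (2 * u * b + v)]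
    have := mul_pos ha hb
    have h16 : 0 < u ^ 2 := by positivity
    nlinarith [mul_pos_of_neg_of_neg h (neg_neg_of_pos h16)]

private theorem ivt (hsq : ∀ x : K, 0 ≤ x → IsSquare x)
    (hirr : ∀ p : K[X], Irreducible p → p.natDegree ≤ 2) (p : K[X]) :
    ∀ a b : K, a < b → p.eval a * p.eval b < 0 → ∃ c, a < c ∧ c < b ∧ p.eval c = 0 := by
  induction p using WfDvdMonoid.induction_on_irreducible with
  | zero =>
    intro a b hab h
    simp at h
  | unit q hq =>
    intro a b hab h
    obtain ⟨r, hr, rfl⟩ := Polynomial.isUnit_iff.1 hq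
    simp only [eval_C] at h
    exact absurd h (not_lt.2 (mul_self_nonneg r))
  | mul q i hq hi ih =>
    intro a b hab h
    rw [eval_mul, eval_mul] at h
    by_cases h1 : q.eval a * q.eval b < 0
    · obtain ⟨c, hc1, hc2, hc3⟩ := ih a b hab h1
      exact ⟨c, hc1, hc2, by rw [eval_mul, hc3, mul_zero]⟩
    · push Not at h1
      have h2 : i.eval a * i.eval b < 0 := by
        by_contra hc
        push Not at hc
        have := mul_nonneg h1 hc
        nlinarith
      obtain ⟨c, hc1, hc2, hc3⟩ := ivt_irred hsq hi (hirr i hi) a b hab h2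
      exact ⟨c, hc1, hc2, by rw [eval_mul, hc3, zero_mul]⟩

/-- A polynomial keeps its sign near a point where it does not vanish. -/
private theorem sign_near (hsq : ∀ x : K, 0 ≤ x → IsSquare x)
    (hirr : ∀ p : K[X], Irreducible p → p.natDegree ≤ 2) (q : K[X]) (b : K)
    (hb : q.eval b ≠ 0) : ∃ e : K, 0 < e ∧ ∀ x, |x - b| ≤ e → 0 < q.eval x * q.eval b := by
  have hq0 : q ≠ 0 := by
    rintro rfl
    simp at hb
  have key : ∀ S : Finset K, b ∉ S → ∃ e : K, 0 < e ∧ ∀ s ∈ S, e < |s - b| := by
    intro S
    induction S using Finset.induction_on with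
    | empty => exact fun _ => ⟨1, one_pos, by simp⟩
    | insert s S hs ih =>
      intro hbS
      rw [Finset.mem_insert, not_or] at hbS
      obtain ⟨e, he, h⟩ := ih hbS.2
      have h3 : 0 < |s - b| := abs_pos.2 (sub_ne_zero.2 (Ne.symm hbS.1))
      refine ⟨min e (|s - b| / 2), lt_min he (by positivity), ?_⟩
      intro t ht
      rcases Finset.mem_insert.1 ht with rfl | ht
      · exact lt_of_le_of_lt (min_le_right _ _) (by linarith)
      · exact lt_of_le_of_lt (min_le_left _ _) (h t ht)
  obtain ⟨e, he, h⟩ := key q.roots.toFinset (by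
    rw [Multiset.mem_toFinset, Polynomial.mem_roots hq0]
    exact hb)
  refine ⟨e, he, fun x hx => ?_⟩
  have hnr : ∀ c, |c - b| ≤ e → q.eval c ≠ 0 := by
    intro c hc hc0
    have := h c (by
      rw [Multiset.mem_toFinset, Polynomial.mem_roots hq0]
      exact hc0)
    linarith
  by_contra hneg
  push Not at hneg
  have hlt : q.eval x * q.eval b < 0 :=
    lt_of_le_of_ne hneg (mul_ne_zero (hnr x hx) hb)
  rcases lt_trichotomy x b with hxb | hxb | hxb
  · obtain ⟨c, h1, h2, h3⟩ := ivt hsq hirr q x b hxb hlt
    refine hnr c ?_ h3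
    rw [abs_le] at hx ⊢
    constructor <;> linarith
  · rw [hxb] at hlt
    exact absurd hlt (not_lt.2 (mul_self_nonneg _))
  · obtain ⟨c, h1, h2, h3⟩ := ivt hsq hirr q b x hxb (by rw [mul_comm]; exact hlt)
    refine hnr c ?_ h3
    rw [abs_le] at hx ⊢
    constructor <;> linarith

private theorem large_ordered (hsq : ∀ x : K, 0 ≤ x → IsSquare x)
    (hirr : ∀ p : K[X], Irreducible p → p.natDegree ≤ 2) : Pool.Agent.NIPFields.LG.Large K := by
  rintro f ⟨a, b, hab, hd⟩
  have hev : ∀ (g : K[X][X]) (x y : K), g.evalEval x y = (g.map (evalRingHom x)).eval y := by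
    intro g x y
    have h1 := congrArg (fun φ : K[X][X] →+* K => φ g)
      (congrFun (Polynomial.evalEvalRingHom_eq x) y)
    simp only [coe_evalEvalRingHom, coe_eval₂RingHom] at h1
    rw [h1, Polynomial.eval_map]
  have hev' : ∀ x y : K, f.evalEval x y = (f.eval (C y)).eval x := fun x y => rfl
  have hroot : (f.map (evalRingHom a)).IsRoot b := by
    rw [Polynomial.IsRoot, ← hev, hab]
  obtain ⟨q, hq⟩ := Polynomial.dvd_iff_isRoot.2 hroot
  have hqb : q.eval b ≠ 0 := by
    have h2 : (derivative (f.map (evalRingHom a))).eval b ≠ 0 := by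
      rw [Polynomial.derivative_map, ← hev]
      exact hd
    rw [hq] at h2
    simpa [Polynomial.derivative_mul] using h2
  obtain ⟨e, he, hsgn⟩ := sign_near hsq hirr q b hqb
  have h1 := hsgn (b + e) (by rw [add_sub_cancel_left, abs_of_pos he])
  have h2 := hsgn (b - e) (by rw [sub_sub_cancel_left, abs_neg, abs_of_pos he])
  have hplus : f.evalEval a (b + e) = e * q.eval (b + e) := by
    rw [hev, hq]
    simp
  have hminus : f.evalEval a (b - e) = -e * q.eval (b - e) := by
    rw [hev, hq]
    simp
  have hqq : 0 < q.eval (b + e) * q.eval (b - e) := by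
    have h3 := mul_pos h1 h2
    have h4 : 0 < q.eval b * q.eval b := mul_self_pos.2 hqb
    by_contra hc
    push Not at hc
    nlinarith
  have hneg : f.evalEval a (b + e) * f.evalEval a (b - e) < 0 := by
    rw [hplus, hminus]
    have h5 : 0 < e * e := mul_pos he he
    nlinarith [mul_pos h5 hqq]
  have hp0 : (f.eval (C (b + e))).eval a ≠ 0 := by
    rw [← hev']
    intro hc
    rw [hc, zero_mul] at hneg
    exact lt_irrefl _ hneg
  have hm0 : (f.eval (C (b - e))).eval a ≠ 0 := by
    rw [← hev']
    intro hc
    rw [hc, mul_zero] at hneg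
    exact lt_irrefl _ hneg
  obtain ⟨d1, hd1, hs1⟩ := sign_near hsq hirr _ a hp0
  obtain ⟨d2, hd2, hs2⟩ := sign_near hsq hirr _ a hm0
  have hmin : 0 < min d1 d2 := lt_min hd1 hd2
  refine Set.Infinite.of_image Prod.fst (Set.Infinite.mono ?_
    (Set.Ioo_infinite (show a < a + min d1 d2 by linarith)))
  intro x hx
  have hxa : |x - a| ≤ min d1 d2 := by
    rw [abs_of_pos (sub_pos.2 hx.1)]
    linarith [hx.2]
  have h3 := hs1 x (hxa.trans (min_le_left _ _))
  have h4 := hs2 x (hxa.trans (min_le_right _ _))
  rw [← hev', ← hev'] at h3 h4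
  have hneg' : f.evalEval x (b - e) * f.evalEval x (b + e) < 0 := by
    by_contra hc
    push Not at hc
    have h5 := mul_pos h3 h4
    nlinarith
  rw [hev, hev] at hneg'
  obtain ⟨y, -, -, hy⟩ := ivt hsq hirr _ (b - e) (b + e) (by linarith) hneg'
  exact ⟨(x, y), show f.evalEval x y = 0 by rw [hev]; exact hy, rfl⟩

end Order

section Alg

variable {K : Type u} [Field K] [CharZero K]

private theorem coords (h : Module.finrank K (AlgebraicClosure K) = 2)
    {β : AlgebraicClosure K} (hβ : ∀ x : K, algebraMap K (AlgebraicClosure K) x ≠ β)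
    (γ : AlgebraicClosure K) : ∃ x y : K,
      γ = algebraMap K (AlgebraicClosure K) x + algebraMap K (AlgebraicClosure K) y * β := by
  have hli : LinearIndependent K ![(1 : AlgebraicClosure K), β] := by
    rw [LinearIndependent.pair_iff]
    intro s t hst
    by_cases ht : t = 0
    · subst ht
      simp at hst
      exact ⟨hst, rfl⟩
    · exfalso
      apply hβ (-s / t)
      rw [map_div₀, map_neg]
      have ht' : algebraMap K (AlgebraicClosure K) t ≠ 0 := by simpa using ht
      rw [Algebra.smul_def, Algebra.smul_def, mul_one] at hst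
      field_simp
      linear_combination -hst
  have hspan := hli.span_eq_top_of_card_eq_finrank (by rw [h]; simp)
  have hmem : γ ∈ Submodule.span K (Set.range ![(1 : AlgebraicClosure K), β]) := by
    rw [hspan]
    trivial
  rw [Matrix.range_cons, Matrix.range_cons, Matrix.range_empty, Set.union_empty,
    Set.singleton_union, Submodule.mem_span_pair] at hmem
  obtain ⟨x, y, rfl⟩ := hmem
  exact ⟨x, y, by rw [Algebra.smul_def, Algebra.smul_def, mul_one]⟩

private theorem coords_zero {β : AlgebraicClosure K}
    (hβ : ∀ x : K, algebraMap K (AlgebraicClosure K) x ≠ β) {x y : K}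
    (h : algebraMap K (AlgebraicClosure K) x + algebraMap K (AlgebraicClosure K) y * β = 0) :
    x = 0 ∧ y = 0 := by
  by_cases hy : y = 0
  · subst hy
    simp at h
    exact ⟨h, rfl⟩
  · exfalso
    apply hβ (-x / y)
    rw [map_div₀, map_neg]
    have hy' : algebraMap K (AlgebraicClosure K) y ≠ 0 := by simpa using hy
    field_simp
    linear_combination -h

private theorem sq_or_neg_sq (h : Module.finrank K (AlgebraicClosure K) = 2) (b : K) :
    IsSquare b ∨ IsSquare (-b) := by
  by_cases hb : IsSquare b
  · exact Or.inl hb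
  · right
    obtain ⟨β, hβ⟩ := IsAlgClosed.exists_pow_nat_eq (algebraMap K (AlgebraicClosure K) b)
      (n := 2) (by norm_num)
    have hβK : ∀ x : K, algebraMap K (AlgebraicClosure K) x ≠ β := by
      intro x hx
      apply hb
      refine ⟨x, ?_⟩
      apply (algebraMap K (AlgebraicClosure K)).injective
      rw [map_mul, hx, ← hβ]
      ring
    obtain ⟨γ, hγ⟩ := IsAlgClosed.exists_pow_nat_eq β (n := 2) (by norm_num)
    obtain ⟨x, y, hxy⟩ := coords h hβK γ
    have h0 : algebraMap K (AlgebraicClosure K) (x ^ 2 + y ^ 2 * b)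
        + algebraMap K (AlgebraicClosure K) (2 * x * y - 1) * β = 0 := by
      simp only [map_add, map_mul, map_pow, map_sub, map_one, map_ofNat]
      rw [hxy] at hγ
      linear_combination hγ + (algebraMap K (AlgebraicClosure K) y) ^ 2 * (-hβ)
    obtain ⟨h1, h2⟩ := coords_zero hβK h0
    have hy : y ≠ 0 := by
      rintro rfl
      simp at h2
    refine ⟨x / y, ?_⟩
    field_simp
    linear_combination -h1

private theorem neg_one_not_sq (h : Module.finrank K (AlgebraicClosure K) = 2) :
    ¬ IsSquare (-1 : K) := by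
  intro hm
  have hall : ∀ b : K, IsSquare b := by
    intro b
    rcases sq_or_neg_sq h b with hb | hb
    · exact hb
    · have := hm.mul hb
      simpa using this
  obtain ⟨β, hβ⟩ : ∃ β : AlgebraicClosure K, ∀ x : K, algebraMap K (AlgebraicClosure K) x ≠ β := by
    by_contra hc
    push Not at hc
    have hsurj : Function.Surjective (algebraMap K (AlgebraicClosure K)) := hc
    have h1 : Module.finrank K (AlgebraicClosure K) = 1 := by
      have e : K ≃ₐ[K] AlgebraicClosure K :=
        AlgEquiv.ofBijective (Algebra.ofId K _) ⟨(algebraMap K _).injective, hsurj⟩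
      rw [← e.toLinearEquiv.finrank_eq, Module.finrank_self]
    omega
  obtain ⟨x, y, hxy⟩ := coords h hβ (β ^ 2)
  obtain ⟨e, he⟩ := hall (x + y ^ 2 / 4)
  have he' := congrArg (algebraMap K (AlgebraicClosure K)) he
  simp only [map_add, map_mul, map_pow, map_div₀, map_ofNat] at he'
  have h2 : (β - algebraMap K _ y / 2 - algebraMap K _ e)
      * (β - algebraMap K _ y / 2 + algebraMap K _ e) = 0 := by
    linear_combination hxy + he'
  rcases mul_eq_zero.1 h2 with h3 | h3
  · apply hβ (y / 2 + e)
    simp only [map_add, map_div₀, map_ofNat]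
    linear_combination -h3
  · apply hβ (y / 2 - e)
    simp only [map_sub, map_div₀, map_ofNat]
    linear_combination -h3

private theorem sq_add_sq (h : Module.finrank K (AlgebraicClosure K) = 2) {a b : K}
    (ha : IsSquare a) (hb : IsSquare b) : IsSquare (a + b) := by
  obtain ⟨x, rfl⟩ := ha
  obtain ⟨y, rfl⟩ := hb
  obtain ⟨β, hβ⟩ := IsAlgClosed.exists_pow_nat_eq (-1 : AlgebraicClosure K)
    (n := 2) (by norm_num)
  have hβK : ∀ x : K, algebraMap K (AlgebraicClosure K) x ≠ β := by
    intro x hx
    apply neg_one_not_sq h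
    refine ⟨x, ?_⟩
    apply (algebraMap K (AlgebraicClosure K)).injective
    rw [map_mul, hx, map_neg, map_one, ← hβ]
    ring
  obtain ⟨γ, hγ⟩ := IsAlgClosed.exists_pow_nat_eq
    (algebraMap K (AlgebraicClosure K) x + algebraMap K (AlgebraicClosure K) y * β)
    (n := 2) (by norm_num)
  obtain ⟨u, v, huv⟩ := coords h hβK γ
  have h0 : algebraMap K (AlgebraicClosure K) (u ^ 2 - v ^ 2 - x)
      + algebraMap K (AlgebraicClosure K) (2 * u * v - y) * β = 0 := by
    simp only [map_add, map_mul, map_pow, map_sub, map_one, map_ofNat]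
    rw [huv] at hγ
    linear_combination hγ + (algebraMap K (AlgebraicClosure K) v) ^ 2 * (-hβ)
  obtain ⟨h1, h2⟩ := coords_zero hβK h0
  refine ⟨u ^ 2 + v ^ 2, ?_⟩
  linear_combination -(x + u ^ 2 - v ^ 2) * h1 - (y + 2 * u * v) * h2

private theorem irred_le_two (h : Module.finrank K (AlgebraicClosure K) = 2) (p : K[X])
    (hp : Irreducible p) : p.natDegree ≤ 2 := by
  haveI : FiniteDimensional K (AlgebraicClosure K) :=
    Module.finite_of_finrank_pos (by omega)
  obtain ⟨z, hz⟩ := IsAlgClosed.exists_aeval_eq_zero (AlgebraicClosure K) p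
    (Polynomial.degree_pos_of_irreducible hp).ne'
  have h1 : minpoly K z ∣ p := minpoly.dvd K z hz
  have h2 : Associated (minpoly K z) p :=
    (minpoly.irreducible (Algebra.IsIntegral.isIntegral z)).associated_of_dvd hp h1
  rw [← Polynomial.natDegree_eq_of_degree_eq (Polynomial.degree_eq_degree_of_associated h2)]
  calc (minpoly K z).natDegree ≤ Module.finrank K (AlgebraicClosure K) :=
        minpoly.natDegree_le z
    _ = 2 := h

/-- The cone of squares. -/
private def sqCone (h : Module.finrank K (AlgebraicClosure K) = 2) : RingCone K where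
  carrier := {a | IsSquare a}
  mul_mem' := fun ha hb => IsSquare.mul ha hb
  one_mem' := IsSquare.one
  add_mem' := fun ha hb => sq_add_sq h ha hb
  zero_mem' := IsSquare.zero
  eq_zero_of_mem_of_neg_mem' := by
    rintro a ⟨s, hs⟩ ⟨t, ht⟩
    by_contra ha
    apply neg_one_not_sq h
    have hs0 : s ≠ 0 := by
      rintro rfl
      exact ha (by simpa using hs)
    refine ⟨t / s, ?_⟩
    field_simp
    linear_combination hs + ht

/-- A field of characteristic zero whose algebraic closure has degree two is large. -/
theorem large_of_finrank_two {K : Type u} [Field K] [CharZero K]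
    (h : Module.finrank K (AlgebraicClosure K) = 2) : Pool.Agent.NIPFields.LG.Large K := by
  classical
  haveI : HasMemOrNegMem (sqCone h) := ⟨fun a => sq_or_neg_sq h a⟩
  letI : LinearOrder K := LinearOrder.mkOfAddGroupCone (sqCone h)
  haveI : IsOrderedRing K := IsOrderedRing.mkOfCone (sqCone h)
  haveI : IsStrictOrderedRing K := IsOrderedRing.toIsStrictOrderedRing K
  exact large_ordered (fun x hx => by
    have : IsSquare (x - 0) := hx
    simpa using this) (irred_le_two h)

end Alg

end Pool.Agent.NIPFields.LZ
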