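import Mathlib
import Pool.Agent.NIPFields.LC.Galois0

set_option autoImplicit false

/-!
# A finite extension with roots of unity and a non-power
-/

namespace Pool.Agent.NIPFields.LZ

universe u

open Module Polynomial

/-- in an extension of degree prime to `q` non-`q`-th powers stay non-powers -/
private theorem root_descend {L C : Type u} [Field L] [Field C] [Algebra L C]
    [FiniteDimensional L C] {q : ℕ} (hq : q.Prime) (hco : (finrank L C).Coprime q) {a : L}
    (ha : ∀ y : L, a ≠ y ^ q) (z : C) : algebraMap L C a ≠ z ^ q := by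
  intro h
  have ha0 : a ≠ 0 := by
    rintro rfl
    exact ha 0 (zero_pow hq.ne_zero).symm
  have h1 : a ^ finrank L C = (Algebra.norm L z) ^ q := by
    rw [← Algebra.norm_algebraMap, h, map_pow]
  have h2 : IsCoprime ((finrank L C : ℕ) : ℤ) (q : ℤ) := Nat.isCoprime_iff_coprime.2 hco
  obtain ⟨s, t, hst⟩ := h2
  refine ha ((Algebra.norm L z) ^ s * a ^ t) ?_
  have hz0 : Algebra.norm L z ≠ 0 := by
    intro h0
    rw [h0, zero_pow hq.ne_zero] at h1
    exact pow_ne_zero _ ha0 h1
  calc a = a ^ (1 : ℤ) := (zpow_one a).symm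
    _ = a ^ (s * (finrank L C : ℕ) + t * (q : ℤ)) := by rw [hst]
    _ = (a ^ ((finrank L C : ℕ) : ℤ)) ^ s * (a ^ t) ^ (q : ℤ) := by
        rw [zpow_add₀ ha0, mul_comm s, zpow_mul, zpow_mul]
    _ = ((Algebra.norm L z) ^ (q : ℤ)) ^ s * (a ^ t) ^ (q : ℤ) := by
        rw [zpow_natCast a, h1, zpow_natCast (Algebra.norm L z)]
    _ = (Algebra.norm L z ^ s * a ^ t) ^ q := by
        rw [← zpow_mul, mul_comm (q : ℤ) s, zpow_mul, ← mul_zpow, zpow_natCast]

private theorem root_degree (q : ℕ) (F : Type u) [Field F] [CharZero F] (hq : q.Prime) :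
    ∃ (C : Type u) (_ : Field C) (_ : Algebra F C), FiniteDimensional F C ∧
      (∃ ζ : C, IsPrimitiveRoot ζ q) ∧ (finrank F C).Coprime q := by
  have hne : NeZero ((q : ℕ) : F) := ⟨Nat.cast_ne_zero.2 hq.ne_zero⟩
  have hq0 : NeZero q := ⟨hq.ne_zero⟩
  let C := CyclotomicField q F
  have hfd : FiniteDimensional F C := IsCyclotomicExtension.finiteDimensional {q} F C
  have hneC : NeZero ((q : ℕ) : C) := NeZero.nat_of_injective (algebraMap F C).injective
  have hζ := IsCyclotomicExtension.zeta_spec q F C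
  have h1 : finrank F C ≤ q - 1 := by
    have h3 : finrank F C = (minpoly F (IsCyclotomicExtension.zeta q F C)).natDegree := by
      rw [(hζ.powerBasis F).finrank, IsPrimitiveRoot.powerBasis_dim]
    rw [h3, ← Nat.totient_prime hq, ← natDegree_cyclotomic q F]
    refine natDegree_le_of_dvd (minpoly.dvd _ _ ?_) (cyclotomic_ne_zero q F)
    rw [aeval_def, ← eval_map, map_cyclotomic]
    exact hζ.isRoot_cyclotomic hq.pos
  have hpos : 0 < finrank F C := finrank_pos
  have hlt : finrank F C < q := by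
    have h3 := hq.one_lt
    omega
  refine ⟨C, inferInstance, inferInstance, hfd, ⟨_, hζ⟩, ?_⟩
  rw [Nat.coprime_comm]
  exact (Nat.Prime.coprime_iff_not_dvd hq).2 fun h => absurd (Nat.le_of_dvd hpos h) (by omega)

theorem exists_not_power_root {K : Type u} [Field K] [CharZero K] :
    IsAlgClosed K ∨ Module.finrank K (AlgebraicClosure K) = 2 ∨
      ∃ (L : Type u) (_ : Field L) (_ : Algebra K L) (q : ℕ), FiniteDimensional K L ∧
        (∃ i : L, i ^ 2 = -1) ∧ q.Prime ∧ (∃ ζ : L, IsPrimitiveRoot ζ q) ∧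
          ∃ a : L, ∀ y : L, a ≠ y ^ q := by
  rcases LC.exists_not_power (K := K) with h | h | ⟨L, _, _, q, hfd, ⟨i, hi⟩, hq, a, ha⟩
  · exact Or.inl h
  · exact Or.inr (Or.inl h)
  · right; right
    have hL : CharZero L := charZero_of_injective_algebraMap (algebraMap K L).injective
    obtain ⟨C, _, _, hC, hζ, hco⟩ := root_degree q L hq
    let _ : Algebra K C := ((algebraMap L C).comp (algebraMap K L)).toAlgebra
    have htower : IsScalarTower K L C := IsScalarTower.of_algebraMap_eq fun _ => rfl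
    refine ⟨C, inferInstance, inferInstance, q, FiniteDimensional.trans K L C,
      ⟨algebraMap L C i, ?_⟩, hq, hζ, algebraMap L C a, root_descend hq hco ha⟩
    rw [← map_pow, hi]
    simp

end Pool.Agent.NIPFields.LZ
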