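import Mathlib
import Pool.Agent.NIPFields.LZ.Hens0
import Pool.Agent.NIPFields.LZ.DVPow
import Pool.Agent.NIPFields.LZ.RealLarge
import Pool.Agent.NIPFields.LZ.Root
import Pool.Agent.NIPFields.LG.Final

set_option autoImplicit false

/-!
# Shelah's conjecture in characteristic zero and large fields
-/

namespace Pool.Agent.NIPFields.LZ

open FirstOrder FirstOrder.Language FirstOrder.Ring Set IsLocalRing Filter
open Pool.Agent.NIPFields.LC Pool.Agent.NIPFields.LG Pool.Agent.NIPFields.FI

universe u v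

attribute [local instance] germAlg

/-- A field with `ζ_q` and `i` and a non-`q`-th power has a definable valuation ring. -/
theorem exists_definable_of_TL_root {L : Type u} [Field L] [Infinite L] [CompatibleRing L]
    (hL : NIP L) {q : ℕ} (hq : q.Prime) (hqL : (q : L) ≠ 0) {ζ : L} (hζ : IsPrimitiveRoot ζ q)
    (hi : ∃ i : L, i ^ 2 = -1)
    (hTL : ∀ (F : Type u) [Field F] [CompatibleRing F] (_ : L →+* F), NIP F → TL F q)
    (ha : ∃ a : L, ∀ y, a ≠ y ^ q) :
    ∃ O : ValuationSubring L, O ≠ ⊤ ∧ (univ : Set L).Definable₁ Language.ring {x | x ∈ O} := by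
  obtain ⟨D, V, hV, -, hVJ⟩ := exists_val_of_TL hL hq hqL hζ hTL ha
  obtain ⟨i, hi⟩ := hi
  let E := Germ (UF L : Filter (Finset L)) L
  let _ : CompatibleRing E := germCompat (UF L) L
  have hE : NIP E := NIP.germ hL
  obtain ⟨O₁, h₁, hd₁⟩ := exists_definable_of_compat_pow hE hq
    ⟨algebraMap L E ζ, hζ.map_of_injective (algebraMap L E).injective⟩
    ⟨algebraMap L E i, by rw [← map_pow, hi, map_neg, map_one]⟩ (by
      obtain ⟨a, ha0, haP⟩ := D.ne
      refine ⟨algebraMap L E a, fun y hy => haP ⟨y, ?_, hy⟩⟩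
      rintro rfl
      rw [zero_pow hq.ne_zero] at hy
      exact (map_ne_zero _).2 ha0 hy)
    ⟨V, hV, fun m hm => by
      obtain ⟨b, _, hb⟩ := one_add_mem ((hVJ m).1 hm)
      exact ⟨b, hb⟩⟩
  exact exists_definable_of_germ O₁ h₁ hd₁

theorem shelah_of_TL_char0 {k : Type v} [Field k] (hk : ∀ x : k, IsAlgebraic ℤ x)
    {K : Type u} [Field K] [CompatibleRing K] (φ : k →+* K) (hK : NIP K) [CharZero K]
    (hTL : ∀ (F : Type u) [Field F] [CompatibleRing F] [CharZero F] (_ : k →+* F), NIP F →
      ∀ ℓ : ℕ, ℓ.Prime → TL F ℓ) :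
    IsSepClosed K ∨ Module.finrank K (AlgebraicClosure K) = 2 ∨
      ∃ O : ValuationSubring K, O ≠ ⊤ ∧ HenselianLocalRing O ∧
        (univ : Set K).Definable₁ Language.ring {x | x ∈ O} := by
  rcases exists_not_power_root (K := K) with h | h | ⟨L, _, _, q, hfd, hi, hq, ⟨ζ, hζ⟩, ha⟩
  · exact Or.inl inferInstance
  · exact Or.inr (Or.inl h)
  right; right
  let _ : CompatibleRing L := compatibleRingOfRing L
  have hchL : CharZero L := charZero_of_injective_algebraMap (algebraMap K L).injective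
  have hL : NIP L := hK.finite (Module.finBasis K L)
  obtain ⟨O₂, h₂, hd₂⟩ := exists_definable_of_TL_root hL hq (Nat.cast_ne_zero.2 hq.ne_zero) hζ hi
    (fun F _ _ g hF => by
      have : CharZero F := charZero_of_injective_ringHom g.injective
      exact hTL F (g.comp ((algebraMap K L).comp φ)) hF q hq) ha
  obtain ⟨O, hO1, hO2⟩ := LC.exists_definable_restrict (K := K) h₂ hd₂
  exact ⟨O, hO1, henselian_of_definable_TL hk φ hK hTL hO2, hO2⟩

theorem large_of_shelah_char0 {K : Type u} [Field K] [CharZero K]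
    (h : Finite K ∨ IsSepClosed K ∨ Module.finrank K (AlgebraicClosure K) = 2 ∨
      ∃ O : ValuationSubring K, O ≠ ⊤ ∧ HenselianLocalRing O) : Large K := by
  rcases h with h | h | h | ⟨O, hO, h⟩
  · exact absurd h (not_finite_iff_infinite.2 inferInstance)
  · exact large_of_isSepClosed
  · exact large_of_finrank_two h
  · exact large_of_henselian O hO h

end Pool.Agent.NIPFields.LZ
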