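import Mathlib
import Pool.Agent.NIPFields.LC.Final
import Pool.Agent.NIPFields.LZ.IndepP

set_option autoImplicit false

/-!
# Characteristic zero: powers of one exponent with finite index
-/

namespace Pool.Agent.NIPFields.LZ

open FirstOrder FirstOrder.Language FirstOrder.Ring Set IsLocalRing Filter Polynomial
open Pool.Agent.NIPFields.LC

universe u

/-- If the `m`-th powers have finite index in all finite extensions of the NIP field `K` of
characteristic zero, then the definable valuation rings of `K` are henselian. -/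
theorem henselian_of_definable_pow {K : Type u} [Field K] [CompatibleRing K] (hK : NIP K)
    [CharZero K] {m : ℕ} (hm : 2 ≤ m)
    (hfin : ∀ (L : Type u) [Field L] [Algebra K L] [FiniteDimensional K L],
      ((powMonoidHom m : Lˣ →* Lˣ).range).FiniteIndex)
    {O : ValuationSubring K} (hO : (univ : Set K).Definable₁ Language.ring {x | x ∈ O}) :
    HenselianLocalRing O := by
  by_contra hnh
  obtain ⟨L, _, _, _, hsplit, O₁, O₂, h₁, h₂, hd₁, hd₂⟩ :=
    exists_incomparable_of_not_henselian hO hnh (cyclotomic m K) (cyclotomic_ne_zero m K)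
  have hL0 : CharZero L := charZero_of_injective_algebraMap (algebraMap K L).injective
  obtain ⟨p, hp⟩ := CharP.exists (ResidueField (O₁ ⊔ O₂ : ValuationSubring L))
  rcases CharP.char_is_prime_or_zero (ResidueField (O₁ ⊔ O₂ : ValuationSubring L)) p with
    hpp | rfl
  · exact no_incomparable_charP hK O₁ O₂ h₁ h₂ hd₁ hd₂ p hpp hp
  have h0 : CharZero (ResidueField (O₁ ⊔ O₂ : ValuationSubring L)) :=
    CharP.charP_to_charZero _
  have hm0 : (m : ResidueField (O₁ ⊔ O₂ : ValuationSubring L)) ≠ 0 :=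
    Nat.cast_ne_zero.2 (by omega)
  -- the root of unity
  rw [map_cyclotomic] at hsplit
  have hdeg : (cyclotomic m L).degree ≠ 0 := by
    have h1 := degree_cyclotomic_pos m L (by omega)
    exact h1.ne'
  obtain ⟨ζ, hζ⟩ := hsplit.exists_eval_eq_zero hdeg
  have hζU : ζ ∈ (O₁ ⊔ O₂ : ValuationSubring L) := by
    have h1 : IsIntegral (O₁ ⊔ O₂ : ValuationSubring L) ζ := by
      refine ⟨cyclotomic m _, cyclotomic.monic m _, ?_⟩
      rw [eval₂_eq_eval_map, map_cyclotomic]
      exact hζ
    obtain ⟨z, hz⟩ := IsIntegrallyClosed.isIntegral_iff.1 h1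
    rw [← hz]
    exact z.2
  have hζ' : IsPrimitiveRoot (residue (O₁ ⊔ O₂ : ValuationSubring L) ⟨ζ, hζU⟩) m := by
    have hne : NeZero (m : ResidueField (O₁ ⊔ O₂ : ValuationSubring L)) := ⟨hm0⟩
    rw [← isRoot_cyclotomic_iff, IsRoot.def, ← map_cyclotomic m (residue _), eval_map,
      eval₂_hom]
    have h2 : eval (⟨ζ, hζU⟩ : (O₁ ⊔ O₂ : ValuationSubring L)) (cyclotomic m _) = 0 := by
      apply Subtype.ext
      have h3 := eval_map_algebraMap (B := L) (cyclotomic m (O₁ ⊔ O₂ : ValuationSubring L))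
        (algebraMap (O₁ ⊔ O₂ : ValuationSubring L) L ⟨ζ, hζU⟩)
      rw [aeval_algebraMap_apply, map_cyclotomic] at h3
      have h4 : algebraMap (O₁ ⊔ O₂ : ValuationSubring L) L ⟨ζ, hζU⟩ = ζ := rfl
      rw [h4, hζ] at h3
      exact h3.symm
    rw [h2, map_zero]
  refine TT (resVal_ne_top (le_sup_left : O₁ ≤ O₁ ⊔ O₂) ?_)
      (resVal_ne_top (le_sup_right : O₂ ≤ O₁ ⊔ O₂) ?_) (resVal_sup O₁ O₂) hm hm0 hζ'
      (finiteIndex_res (by omega) (hfin L))
      (vc_res hK hd₁ hd₂ (ldef_sup hd₁ hd₂) le_sup_left le_sup_right m hm0)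
  · exact fun h => h₂ (le_sup_right.trans h)
  · exact fun h => h₁ (le_sup_left.trans h)

/-- Shelah's conjecture in characteristic zero if the `m`-th powers have finite index in all
finite extensions for one `m`, and the `ℓ`-th powers form a proper subgroup of finite index in one
finite extension which contains a square root of `-1`. -/
theorem shelah_charZero_pow {K : Type u} [Field K] [CompatibleRing K] (hK : NIP K) [CharZero K]
    {m : ℕ} (hm : 2 ≤ m)
    (hfin : ∀ (L : Type u) [Field L] [Algebra K L] [FiniteDimensional K L],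
      ((powMonoidHom m : Lˣ →* Lˣ).range).FiniteIndex)
    {L : Type u} [Field L] [Algebra K L] [FiniteDimensional K L] {ℓ : ℕ} (hℓ : 2 ≤ ℓ)
    (hi : ∃ i : L, i ^ 2 = -1) (ha : ∃ a : L, ∀ y : L, a ≠ y ^ ℓ)
    (hf : ((powMonoidHom ℓ : Lˣ →* Lˣ).range).FiniteIndex) :
    ∃ O : ValuationSubring K, O ≠ ⊤ ∧ HenselianLocalRing O ∧
      (univ : Set K).Definable₁ Language.ring {x | x ∈ O} := by
  have _ : Infinite K := CharZero.infinite K
  obtain ⟨O, hO1, hO2⟩ := exists_definable_of_extension hK (L := L) hℓ hf ha hi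
  exact ⟨O, hO1, henselian_of_definable_pow hK hm hfin hO2, hO2⟩

end Pool.Agent.NIPFields.LZ
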